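import Pool.Agent.Helper11.Coclass.Defs

/-!
# Counting: lower bounds for the coclass
-/

namespace Pool.Agent.Helper11.Coclass

open scoped commutatorElement

universe u

variable {P : Type u} [Group P]

/-- Iterated commutators with the whole group. -/
def itN (N : Subgroup P) : ℕ → Subgroup P
  | 0 => N
  | l + 1 => ⁅itN N l, (⊤ : Subgroup P)⁆

lemma itN_mono {N M : Subgroup P} (h : N ≤ M) (l : ℕ) : itN N l ≤ itN M l := by
  induction l with
  | zero => exact h
  | succ l ih => exact Subgroup.commutator_mono ih le_rfl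

lemma itN_add (N : Subgroup P) (a l : ℕ) : itN N (a + l) = itN (itN N a) l := by
  induction l with
  | zero => rfl
  | succ l ih =>
    show ⁅itN N (a + l), (⊤ : Subgroup P)⁆ = ⁅itN (itN N a) l, (⊤ : Subgroup P)⁆
    rw [ih]

lemma itN_succ' (N : Subgroup P) (l : ℕ) : itN N (l + 1) = itN ⁅N, (⊤ : Subgroup P)⁆ l := by
  rw [add_comm, itN_add]
  rfl

lemma itN_normal (N : Subgroup P) [hN : N.Normal] (l : ℕ) : (itN N l).Normal := by
  induction l with
  | zero => exact hN
  | succ l ih =>
    show (⁅itN N l, (⊤ : Subgroup P)⁆).Normal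
    exact Subgroup.commutator_normal _ _

lemma itN_bot (l : ℕ) : itN (⊥ : Subgroup P) l = ⊥ := by
  induction l with
  | zero => rfl
  | succ l ih =>
    show ⁅itN (⊥ : Subgroup P) l, (⊤ : Subgroup P)⁆ = ⊥
    rw [ih, Subgroup.commutator_bot_left]

lemma itN_top (l : ℕ) : itN (⊤ : Subgroup P) l = (⊤ : Subgroup P).lowerCentralSeries l := by
  induction l with
  | zero => rfl
  | succ l ih =>
    show ⁅itN (⊤ : Subgroup P) l, (⊤ : Subgroup P)⁆ = _
    rw [ih]
    rfl

/-- `N` has relative coclass at least `t`. -/
def CC (p : ℕ) (N : Subgroup P) (t : ℕ) : Prop :=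
  ∃ l, itN N l = ⊥ ∧ p ^ (l + t) ≤ Nat.card N

lemma CC_bot (p : ℕ) : CC p (⊥ : Subgroup P) 0 :=
  ⟨0, rfl, by simp⟩

lemma CC.step {p : ℕ} {N M : Subgroup P} {t : ℕ} (h : CC p M t)
    (hNM : ⁅N, (⊤ : Subgroup P)⁆ ≤ M) (hcard : p ^ 2 * Nat.card M ≤ Nat.card N) :
    CC p N (t + 1) := by
  obtain ⟨l, hl, hc⟩ := h
  refine ⟨l + 1, ?_, ?_⟩
  · rw [itN_succ', ← le_bot_iff, ← hl]
    exact itN_mono hNM l
  · have e : p ^ (l + 1 + (t + 1)) = p ^ 2 * p ^ (l + t) := by
      rw [← pow_add]
      congr 1
      omega
    rw [e]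
    exact (Nat.mul_le_mul_left _ hc).trans hcard

variable {p : ℕ} [hp : Fact p.Prime] [Finite P]

/-- A proper subgroup has at most a `p`-th of the elements. -/
lemma mul_card_le (hP : IsPGroup p P) {A B : Subgroup P} (h : A < B) :
    p * Nat.card A ≤ Nat.card B := by
  obtain ⟨a, ha⟩ := IsPGroup.iff_card.1 (hP.to_subgroup A)
  obtain ⟨b, hb⟩ := IsPGroup.iff_card.1 (hP.to_subgroup B)
  have hlt : Nat.card A < Nat.card B := by
    refine lt_of_le_of_ne (Subgroup.card_le_of_le h.le) fun he => h.ne ?_
    exact Subgroup.eq_of_le_of_card_ge h.le he.ge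
  rw [ha, hb] at hlt
  have hab : a < b := (Nat.pow_lt_pow_iff_right hp.out.one_lt).1 hlt
  rw [ha, hb, ← pow_succ']
  exact Nat.pow_le_pow_right hp.out.pos hab

lemma commutator_sup_lt (hP : IsPGroup p P) {N M : Subgroup P} [hN : N.Normal] [M.Normal]
    (h : N < M) : ⁅M, (⊤ : Subgroup P)⁆ ⊔ N < M := by
  have hle : ⁅M, (⊤ : Subgroup P)⁆ ≤ M := Subgroup.commutator_le_left _ _
  refine lt_of_le_of_ne (sup_le hle h.le) fun heq => ?_
  have hcn : ∀ l, M ≤ itN M l ⊔ N := by
    intro l
    induction l with
    | zero => exact le_sup_left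
    | succ l ih =>
      have hn1 : (itN M (l + 1) ⊔ N).Normal := by
        have h1 : (itN M (l + 1)).Normal := itN_normal M _
        exact Subgroup.sup_normal _ _
      have h1 : ⁅M, (⊤ : Subgroup P)⁆ ≤ itN M (l + 1) ⊔ N := by
        refine (Subgroup.commutator_mono ih le_rfl).trans ?_
        rw [Subgroup.commutator_le]
        intro x hx g _
        -- elements of a join with a normal subgroup
        rw [← SetLike.mem_coe, Subgroup.mul_normal] at hx
        obtain ⟨y, hy, z, hz, rfl⟩ := hx
        change ⁅y * z, g⁆ ∈ itN M (l + 1) ⊔ N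
        have e : ⁅y * z, g⁆ = (y * ⁅z, g⁆ * y⁻¹) * ⁅y, g⁆ := by
          simp only [commutatorElement_def]; group
        rw [e]
        have h2 : ⁅z, g⁆ ∈ N := by
          rw [commutatorElement_def, mul_assoc, mul_assoc, ← mul_assoc g]
          exact mul_mem hz (hN.conj_mem _ (inv_mem hz) g)
        have h3 : ⁅y, g⁆ ∈ itN M (l + 1) := Subgroup.commutator_mem_commutator hy trivial
        exact mul_mem (Subgroup.mem_sup_right (hN.conj_mem _ h2 y)) (Subgroup.mem_sup_left h3)
      calc M = ⁅M, (⊤ : Subgroup P)⁆ ⊔ N := heq.symm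
        _ ≤ itN M (l + 1) ⊔ N := sup_le h1 le_sup_right
  have hnil : Group.IsNilpotent P := hP.isNilpotent
  have h1 := hcn (Group.nilpotencyClass P)
  have h2 : itN M (Group.nilpotencyClass P) = ⊥ := by
    rw [← le_bot_iff, ← Subgroup.lowerCentralSeries_nilpotencyClass (G := P), ← itN_top]
    exact itN_mono le_top _
  rw [h2, bot_sup_eq] at h1
  exact absurd h1 (not_le_of_gt h)

lemma exists_itN_le (hP : IsPGroup p P) {N : Subgroup P} [N.Normal] (n : ℕ) :
    ∀ M : Subgroup P, M.Normal → N ≤ M → Nat.card M ≤ n →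
      ∃ a, itN M a ≤ N ∧ p ^ a * Nat.card N ≤ Nat.card M := by
  induction n with
  | zero =>
    intro M _ _ h
    have := Nat.card_pos (α := M)
    omega
  | succ n ih =>
    intro M hM hNM hcard
    rcases hNM.eq_or_lt with h | h
    · subst h
      exact ⟨0, le_rfl, by simp⟩
    have hlt := commutator_sup_lt hP h
    have hn1 : (⁅M, (⊤ : Subgroup P)⁆ ⊔ N).Normal := by
      have h1 : (⁅M, (⊤ : Subgroup P)⁆).Normal := Subgroup.commutator_normal _ _
      exact Subgroup.sup_normal _ _
    have hmul := mul_card_le hP hlt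
    have hp2 := hp.out.two_le
    have hpos := Nat.card_pos (α := (⁅M, (⊤ : Subgroup P)⁆ ⊔ N : Subgroup P))
    obtain ⟨a, ha, hac⟩ := ih _ hn1 le_sup_right (by nlinarith)
    refine ⟨a + 1, ?_, ?_⟩
    · rw [itN_succ']
      exact (itN_mono le_sup_left a).trans ha
    · calc p ^ (a + 1) * Nat.card N = p * (p ^ a * Nat.card N) := by ring
        _ ≤ p * Nat.card (⁅M, (⊤ : Subgroup P)⁆ ⊔ N : Subgroup P) := Nat.mul_le_mul_left _ hac
        _ ≤ Nat.card M := hmul

lemma CC.mono (hP : IsPGroup p P) {N M : Subgroup P} [N.Normal] [hM : M.Normal] {t : ℕ}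
    (h : CC p N t) (hNM : N ≤ M) : CC p M t := by
  obtain ⟨l, hl, hc⟩ := h
  obtain ⟨a, ha, hac⟩ := exists_itN_le hP (N := N) _ M hM hNM le_rfl
  refine ⟨a + l, ?_, ?_⟩
  · rw [itN_add, ← le_bot_iff, ← hl]
    exact itN_mono ha l
  · have e : p ^ (a + l + t) = p ^ a * p ^ (l + t) := by
      rw [← pow_add]
      congr 1
      omega
    rw [e]
    exact (Nat.mul_le_mul_left _ hc).trans hac

/-- **Counting.** -/
theorem coclass_count {s : ℕ} (hP : IsPGroup p P) (h : HasCoclass p P s) (k : ℕ)
    (A B : ℕ → Subgroup P) (hA : ∀ i, (A i).Normal) (hB : ∀ i, (B i).Normal)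
    (h1 : ∀ i < k, ⁅A i, (⊤ : Subgroup P)⁆ ≤ B i)
    (h2 : ∀ i < k, p ^ 2 * Nat.card (B i) ≤ Nat.card (A i))
    (h3 : ∀ i, i + 1 < k → A (i + 1) ≤ B i) : k ≤ s := by
  have hnil : Group.IsNilpotent P := hP.isNilpotent
  have key : ∀ j, j ≤ k → 1 ≤ j → CC p (A (k - j)) j := by
    intro j
    induction j with
    | zero => intro _ h0; omega
    | succ j ih =>
      intro hj _
      have hBj : CC p (B (k - (j + 1))) j := by
        rcases Nat.eq_zero_or_pos j with h0 | h0
        · subst h0
          exact (CC_bot p).mono hP bot_le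
        · have h4 := ih (by omega) h0
          have h5 := h3 (k - (j + 1)) (by omega)
          have e : k - (j + 1) + 1 = k - j := by omega
          rw [e] at h5
          have := hA (k - j)
          have := hB (k - (j + 1))
          exact h4.mono hP h5
      exact hBj.step (h1 _ (by omega)) (h2 _ (by omega))
  rcases Nat.eq_zero_or_pos k with h0 | h0
  · omega
  have h4 := key k le_rfl h0
  rw [Nat.sub_self] at h4
  have := hA 0
  have h5 : CC p (⊤ : Subgroup P) k := h4.mono hP le_top
  obtain ⟨l, hl, hc⟩ := h5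
  rw [itN_top, Subgroup.lowerCentralSeries_eq_bot_iff_nilpotencyClass_le] at hl
  have h6 : Nat.card (⊤ : Subgroup P) = Nat.card P := Subgroup.card_top
  unfold HasCoclass at h
  rw [h6, h] at hc
  have h7 := (Nat.pow_le_pow_iff_right hp.out.one_lt).1 hc
  omega

/-- The order of the abelianisation: a homomorphism onto a cyclic group of order `p^b` forces
`b ≤ s + 1`. -/
theorem surj_le {s : ℕ} (hP : IsPGroup p P) (h : HasCoclass p P s) {b : ℕ}
    (f : P →* Multiplicative (ZMod (p ^ b))) (hf : Function.Surjective f) : b ≤ s + 1 := by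
  have hnil : Group.IsNilpotent P := hP.isNilpotent
  -- the commutator subgroup is in the kernel
  have hker : (⊤ : Subgroup P).lowerCentralSeries 1 ≤ f.ker := by
    rw [Subgroup.top_lowerCentralSeries_one]
    exact Abelianization.commutator_subset_ker f
  have hn1 : ((⊤ : Subgroup P).lowerCentralSeries 1).Normal := inferInstance
  -- the order of the commutator subgroup
  rcases Nat.eq_zero_or_pos (Group.nilpotencyClass P) with h0 | h0
  · have hc : Nat.card P = p ^ s := by
      unfold HasCoclass at h
      rw [h, h0, zero_add]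
    have h1 : Nat.card (Multiplicative (ZMod (p ^ b))) ≤ Nat.card P :=
      Nat.card_le_card_of_surjective f hf
    have h2 : Nat.card (Multiplicative (ZMod (p ^ b))) = p ^ b := by
      rw [Nat.card_congr Multiplicative.toAdd, Nat.card_zmod]
    rw [h2, hc] at h1
    have := (Nat.pow_le_pow_iff_right hp.out.one_lt).1 h1
    omega
  · have hdesc : ∀ j, j ≤ Group.nilpotencyClass P → p ^ j ≤
        Nat.card ((⊤ : Subgroup P).lowerCentralSeries (Group.nilpotencyClass P - j)) := by
      intro j
      induction j with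
      | zero => intro _; rw [pow_zero]; exact Nat.card_pos
      | succ j ih =>
        intro hj
        have h1 := ih (by omega)
        have hlt : (⊤ : Subgroup P).lowerCentralSeries (Group.nilpotencyClass P - j) <
            (⊤ : Subgroup P).lowerCentralSeries (Group.nilpotencyClass P - (j + 1)) := by
          refine lt_of_le_of_ne (Subgroup.lowerCentralSeries_antitone _ (by omega)) fun heq => ?_
          -- then the series is constant, hence trivial
          have hconst : ∀ i, (⊤ : Subgroup P).lowerCentralSeries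
              (Group.nilpotencyClass P - (j + 1)) ≤
              (⊤ : Subgroup P).lowerCentralSeries (Group.nilpotencyClass P - (j + 1) + i) := by
            intro i
            induction i with
            | zero => exact le_rfl
            | succ i ih =>
              have e1 : Group.nilpotencyClass P - j = Group.nilpotencyClass P - (j + 1) + 1 := by
                omega
              have h5 : (⊤ : Subgroup P).lowerCentralSeries (Group.nilpotencyClass P - (j + 1)) ≤
                  (⊤ : Subgroup P).lowerCentralSeries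
                    (Group.nilpotencyClass P - (j + 1) + 1) := by
                rw [← e1, heq]
              exact h5.trans (Subgroup.commutator_mono ih le_rfl)
          have h6 := hconst j
          have e2 : Group.nilpotencyClass P - (j + 1) + j = Group.nilpotencyClass P - 1 := by omega
          have h7 := hconst (j + 1)
          have e3 : Group.nilpotencyClass P - (j + 1) + (j + 1) = Group.nilpotencyClass P := by
            omega
          rw [e3, Subgroup.lowerCentralSeries_nilpotencyClass, le_bot_iff,
            Subgroup.lowerCentralSeries_eq_bot_iff_nilpotencyClass_le] at h7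
          omega
        have h2 := mul_card_le hP hlt
        calc p ^ (j + 1) = p * p ^ j := pow_succ' _ _
          _ ≤ p * _ := Nat.mul_le_mul_left _ h1
          _ ≤ _ := h2
    have h1 := hdesc (Group.nilpotencyClass P - 1) (by omega)
    have e : Group.nilpotencyClass P - (Group.nilpotencyClass P - 1) = 1 := by omega
    rw [e] at h1
    have h2 : Nat.card f.ker * p ^ b = Nat.card P := by
      have h3 := Subgroup.card_mul_index f.ker
      rw [Subgroup.index_ker, MonoidHom.range_eq_top.2 hf, Subgroup.card_top,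
        Nat.card_congr Multiplicative.toAdd, Nat.card_zmod] at h3
      exact h3
    have h4 : p ^ (Group.nilpotencyClass P - 1) ≤ Nat.card f.ker :=
      h1.trans (Subgroup.card_le_of_le hker)
    have h5 : p ^ (Group.nilpotencyClass P - 1 + b) ≤ p ^ (Group.nilpotencyClass P + s) := by
      rw [pow_add]
      calc p ^ (Group.nilpotencyClass P - 1) * p ^ b ≤ Nat.card f.ker * p ^ b :=
            Nat.mul_le_mul_right _ h4
        _ = Nat.card P := h2
        _ = _ := h
    have := (Nat.pow_le_pow_iff_right hp.out.one_lt).1 h5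
    omega

end Pool.Agent.Helper11.Coclass
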