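import Mathlib

/-!
# Definitions for the finiteness theorem on p-adic space groups

`p`-adic space groups, finite coclass of a pro-`p` group, coclass of a finite `p`-group.
-/

namespace Pool.Agent.Helper11.Coclass

/-- For a prime `p`: the finite `p`-group `G` has coclass `s`, that is, its order is `p ^ n` with
`n = c + s` where `c` is its nilpotency class. -/
def HasCoclass (p : ℕ) (G : Type*) [Group G] (s : ℕ) : Prop :=
  Nat.card G = p ^ (Group.nilpotencyClass G + s)

/-- The closed lower central series of a topological group; `closedLCS R i` is `γ_{i+1}(R)`. -/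
def closedLCS (R : Type*) [Group R] [TopologicalSpace R] [IsTopologicalGroup R] :
    ℕ → Subgroup R
  | 0 => ⊤
  | i + 1 => (⁅closedLCS R i, (⊤ : Subgroup R)⁆).topologicalClosure

instance closedLCS_normal (R : Type*) [Group R] [TopologicalSpace R] [IsTopologicalGroup R]
    (i : ℕ) : (closedLCS R i).Normal := by
  induction i with
  | zero => exact Subgroup.normal_of_characteristic ⊤
  | succ i ih =>
    have : (⁅closedLCS R i, (⊤ : Subgroup R)⁆).Normal := Subgroup.commutator_normal _ _
    exact Subgroup.is_normal_topologicalClosure _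

/-- `R` has finite coclass: the quotients `R / γ_{i+1}(R)` by the closed lower central series are
finite `p`-groups of bounded coclass. -/
def FiniteCoclass (p : ℕ) (R : Type*) [Group R] [TopologicalSpace R] [IsTopologicalGroup R] :
    Prop :=
  ∃ r : ℕ, ∀ i : ℕ, ∃ t ≤ r, HasCoclass p (R ⧸ closedLCS R i) t

/-- `R` is a `p`-adic space group of dimension `d` with translation subgroup `T`. -/
structure IsSpaceGroup (p : ℕ) [Fact p.Prime] (R : Type*) [Group R] [TopologicalSpace R]
    [IsTopologicalGroup R] (T : Subgroup R) [T.Normal] (d : ℕ) : Prop where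
  compact : CompactSpace R
  hausdorff : T2Space R
  totallyDisconnected : TotallyDisconnectedSpace R
  pro_p : ∀ U : Subgroup R, U.Normal → IsOpen (U : Set R) → ∃ k : ℕ, U.index = p ^ k
  dim_pos : 1 ≤ d
  closed : IsClosed (T : Set R)
  lattice : Nonempty (T ≃ₜ* Multiplicative (Fin d → ℤ_[p]))
  finite_quotient : Finite (R ⧸ T)
  faithful : Subgroup.centralizer (T : Set R) ≤ T

/-- A lattice for `P` over `ℤ_p` on which `P` acts faithfully and uniserially: every `P`-stable
submodule `L` of finite index has `[L : [L, P]] = p`. -/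
structure IsUniserialLattice (p : ℕ) [Fact p.Prime] (P : Type*) [Group P] (M : Type*)
    [AddCommGroup M] [Module ℤ_[p] M] [DistribMulAction P M] [SMulCommClass P ℤ_[p] M] :
    Prop where
  finite : Module.Finite ℤ_[p] M
  torsionFree : ∀ (c : ℤ_[p]) (x : M), c • x = 0 → c = 0 ∨ x = 0
  nontrivial : Nontrivial M
  faithful : ∀ g : P, (∀ x : M, g • x = x) → g = 1
  step : ∀ L : Submodule ℤ_[p] M, (∀ (g : P), ∀ x ∈ L, g • x ∈ L) →
    Finite (M ⧸ L) →
    (AddSubgroup.closure {y : M | ∃ g : P, ∃ x ∈ L, y = g • x - x}).relIndex L.toAddSubgroup = p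

/-- The permutation module of the `G`-set `Ω` over `F_p` is uniserial: invariant subspaces of the
function space are totally ordered by inclusion. -/
def UniserialPerm (p : ℕ) (G : Type*) [Group G] (Ω : Type*) [MulAction G Ω] : Prop :=
  ∀ A B : Submodule (ZMod p) (Ω → ZMod p),
    (∀ (g : G), ∀ f ∈ A, (fun ω => f (g⁻¹ • ω)) ∈ A) →
    (∀ (g : G), ∀ f ∈ B, (fun ω => f (g⁻¹ • ω)) ∈ B) → A ≤ B ∨ B ≤ A

end Pool.Agent.Helper11.Coclass
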