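import Mathlib

/-!
# Jacobson's formula, in the form: the error term of the `p`-th power is a sum of commutators
-/

namespace Pool.Agent.Helper11.Coclass

open Polynomial Finset

section Ring

variable {R : Type*} [Ring R] {p : ℕ}

/-- `(a - b)^(p-1) = ∑ a^j b^(p-1-j)` for commuting elements in characteristic `p`. -/
lemma sub_pow_pred_of_commute [hp : Fact p.Prime] [CharP R p] {a b : R} (h : Commute a b) :
    (a - b) ^ (p - 1) = ∑ j ∈ range p, a ^ j * b ^ (p - 1 - j) := by
  have hp1 : p - 1 + 1 = p := Nat.sub_add_cancel hp.out.one_le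
  have hchoose : ∀ j ≤ p - 1, ((Nat.choose (p - 1) j : ℕ) : R) = (-1) ^ j := by
    intro j
    induction j with
    | zero => intro _; simp
    | succ j ih =>
      intro hj
      have h1 : Nat.choose p (j + 1) = Nat.choose (p - 1) j + Nat.choose (p - 1) (j + 1) := by
        conv_lhs => rw [← hp1]
        rw [Nat.choose_succ_succ]
      have h2 : ((Nat.choose p (j + 1) : ℕ) : R) = 0 := by
        rw [CharP.cast_eq_zero_iff R p]
        exact hp.out.dvd_choose_self (by omega) (by omega)
      rw [h1, Nat.cast_add, ih (by omega)] at h2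
      rw [pow_succ, mul_neg_one]
      exact eq_neg_of_add_eq_zero_right h2
  have hc : Commute a (-b) := h.neg_right
  rw [sub_eq_add_neg, hc.add_pow, hp1]
  refine Finset.sum_congr rfl fun j hj => ?_
  have hj' : j ≤ p - 1 := by have := Finset.mem_range.1 hj; omega
  rw [hchoose j hj', neg_pow b (p - 1 - j)]
  have h3 : ((-1 : R)) ^ (p - 1 - j) * (-1) ^ j = 1 := by
    rw [← pow_add, Nat.sub_add_cancel hj']
    rcases hp.out.eq_two_or_odd' with h2 | h2
    · subst h2
      have : (-1 : R) = 1 := by
        have h4 : ((2 : ℕ) : R) = 0 := CharP.cast_eq_zero R 2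
        have h5 : (1 : R) + 1 = 0 := by rw [← h4]; norm_num
        exact neg_eq_of_add_eq_zero_left h5
      rw [this, one_pow]
    · have : Even (p - 1) := by
        obtain ⟨m, hm⟩ := h2
        exact ⟨m, by omega⟩
      exact this.neg_one_pow
  have h6 : Commute ((-1 : R) ^ j) (b ^ (p - 1 - j)) := by
    exact (Commute.neg_one_left _).pow_left _
  calc a ^ j * ((-1) ^ (p - 1 - j) * b ^ (p - 1 - j)) * (-1) ^ j
      = a ^ j * ((-1) ^ (p - 1 - j) * (b ^ (p - 1 - j) * (-1) ^ j)) := by
        simp only [mul_assoc]
    _ = a ^ j * ((-1) ^ (p - 1 - j) * ((-1) ^ j * b ^ (p - 1 - j))) := by rw [h6.eq]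
    _ = a ^ j * (((-1) ^ (p - 1 - j) * (-1) ^ j) * b ^ (p - 1 - j)) := by
        simp only [mul_assoc]
    _ = a ^ j * b ^ (p - 1 - j) := by rw [h3, one_mul]

/-- The commutator with `u`, as an additive map. -/
def adMap (u : R) : R →+ R := AddMonoidHom.mulLeft u - AddMonoidHom.mulRight u

@[simp] lemma adMap_apply (u x : R) : adMap u x = u * x - x * u := rfl

/-- Left multiplication in the ring of additive endomorphisms. -/
def lmul (u : R) : AddMonoid.End R := AddMonoidHom.mulLeft u

/-- Right multiplication in the ring of additive endomorphisms. -/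
def rmul (u : R) : AddMonoid.End R := AddMonoidHom.mulRight u

@[simp] lemma lmul_apply (u x : R) : lmul u x = u * x := rfl

@[simp] lemma rmul_apply (u x : R) : rmul u x = x * u := rfl

lemma lmul_pow (u : R) (n : ℕ) (x : R) : (lmul u ^ n) x = u ^ n * x := by
  induction n generalizing x with
  | zero => simp
  | succ n ih =>
    rw [pow_succ]
    show (lmul u ^ n) (u * x) = _
    rw [ih, pow_succ, mul_assoc]

lemma rmul_pow (u : R) (n : ℕ) (x : R) : (rmul u ^ n) x = x * u ^ n := by
  induction n generalizing x with
  | zero => simp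
  | succ n ih =>
    rw [pow_succ]
    show (rmul u ^ n) (x * u) = _
    rw [ih, pow_succ', mul_assoc]

/-- `ad(u)^(p-1) x = ∑ u^j x u^(p-1-j)` in characteristic `p`. -/
lemma adMap_iterate [hp : Fact p.Prime] [CharP R p] (u x : R) :
    (adMap u)^[p - 1] x = ∑ j ∈ range p, u ^ j * x * u ^ (p - 1 - j) := by
  have hnt : Nontrivial R := CharP.nontrivial_of_char_ne_one (v := p) hp.out.ne_one
  have hnt' : Nontrivial (AddMonoid.End R) := by
    refine ⟨0, 1, fun h => ?_⟩
    have := DFunLike.congr_fun h (1 : R)
    simp at this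
  have hchar : CharP (AddMonoid.End R) p := by
    refine (CharP.charP_iff_prime_eq_zero hp.out).2 ?_
    ext x
    rw [AddMonoid.End.natCast_apply, nsmul_eq_mul, CharP.cast_eq_zero, zero_mul]
    rfl
  have hcomm : Commute (lmul u) (rmul u) := by
    refine AddMonoidHom.ext fun x => ?_
    show u * (x * u) = (u * x) * u
    rw [mul_assoc]
  have h := sub_pow_pred_of_commute (p := p) hcomm
  have h2 := DFunLike.congr_fun h x
  have h3 : ∀ n : ℕ, ∀ y : R, ((lmul u - rmul u) ^ n) y = (adMap u)^[n] y := by
    intro n
    induction n with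
    | zero => intro y; simp
    | succ n ih =>
      intro y
      rw [pow_succ]
      show ((lmul u - rmul u) ^ n) ((lmul u - rmul u) y) = _
      rw [ih]
      rfl
  rw [h3] at h2
  have hsum : ∀ (s : Finset ℕ) (F : ℕ → AddMonoid.End R),
      (∑ j ∈ s, F j) x = ∑ j ∈ s, F j x := by
    intro s F
    induction s using Finset.induction_on with
    | empty => rfl
    | insert a s ha ih =>
      rw [Finset.sum_insert ha, Finset.sum_insert ha, ← ih]
      rfl
  rw [h2, hsum]
  refine Finset.sum_congr rfl fun j _ => ?_
  show (lmul u ^ j) ((rmul u ^ (p - 1 - j)) x) = _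
  rw [rmul_pow, lmul_pow, mul_assoc]

end Ring

section Poly

variable {R : Type*} [Ring R] {p : ℕ}

lemma derivative_pow_noncomm (u : R[X]) (n : ℕ) :
    derivative (u ^ n) = ∑ j ∈ range n, u ^ j * derivative u * u ^ (n - 1 - j) := by
  induction n with
  | zero => simp
  | succ n ih =>
    rw [pow_succ, derivative_mul, ih, Finset.sum_range_succ, Finset.sum_mul]
    congr 1
    · refine Finset.sum_congr rfl fun j hj => ?_
      have hj' := Finset.mem_range.1 hj
      rw [mul_assoc, ← pow_succ]
      congr 2
      omega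
    · simp

/-- All coefficients of the polynomial lie in the set `L`. -/
def CoeffIn (L : Set R) (f : R[X]) : Prop := ∀ i, f.coeff i ∈ L

/-- **Jacobson's formula.** If the additive subgroups `L v` are closed under commutators
(`[L v, L w] ≤ L (v + w)`) and under division by numbers prime to `p`, then
`(A + B)^p - A^p - B^p ∈ L (p * w)` for `A, B ∈ L w`. -/
theorem add_pow_sub_mem [hp : Fact p.Prime] [CharP R p] (L : ℕ → AddSubgroup R)
    (hL : ∀ v w, ∀ x ∈ L v, ∀ y ∈ L w, x * y - y * x ∈ L (v + w))
    (hdiv : ∀ v (m : ℕ) (x : R), 0 < m → m < p → (m : R) * x ∈ L v → x ∈ L v)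
    {w : ℕ} {A B : R} (hA : A ∈ L w) (hB : B ∈ L w) :
    (A + B) ^ p - A ^ p - B ^ p ∈ L (p * w) := by
  set u : R[X] := C A * X + C B with hu
  have hp0 : 0 < p := hp.out.pos
  -- coefficients of `ad u`
  have had : ∀ v, ∀ f : R[X], CoeffIn (L v : Set R) f → CoeffIn (L (v + w) : Set R)
      (adMap u f) := by
    intro v f hf i
    have h1 : (adMap u f).coeff i = (if i = 0 then 0 else (A * f.coeff (i - 1) -
        f.coeff (i - 1) * A)) + (B * f.coeff i - f.coeff i * B) := by
      rw [adMap_apply, hu]
      rcases i with _ | i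
      · simp [mul_add, add_mul, mul_assoc, Polynomial.coeff_sub]
      · simp only [add_mul, mul_add, coeff_sub, coeff_add, coeff_C_mul, coeff_mul_C,
          Nat.succ_ne_zero, if_false, Nat.add_sub_cancel]
        have h2 : (C A * X * f).coeff (i + 1) = A * f.coeff i := by
          rw [mul_assoc, coeff_C_mul, coeff_X_mul]
        have h3 : (f * (C A * X)).coeff (i + 1) = f.coeff i * A := by
          rw [← mul_assoc, coeff_mul_X, coeff_mul_C]
        rw [h2, h3]
        abel
    show (adMap u f).coeff i ∈ L (v + w)
    rw [h1]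
    have hBf : B * f.coeff i - f.coeff i * B ∈ L (v + w) := by
      have := (L (v + w)).neg_mem (hL v w _ (hf i) _ hB)
      rwa [neg_sub] at this
    refine (L (v + w)).add_mem ?_ hBf
    split_ifs with hi
    · exact (L (v + w)).zero_mem
    · have := (L (v + w)).neg_mem (hL v w _ (hf (i - 1)) _ hA)
      rwa [neg_sub] at this
  have hiter : ∀ n, CoeffIn (L ((n + 1) * w) : Set R) ((adMap u)^[n] (C A)) := by
    intro n
    induction n with
    | zero =>
      intro i
      rw [Function.iterate_zero, id, coeff_C]
      split_ifs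
      · simpa using hA
      · exact (L _).zero_mem
    | succ n ih =>
      rw [Function.iterate_succ_apply']
      have := had _ _ ih
      have h2 : (n + 1) * w + w = (n + 1 + 1) * w := by ring
      rwa [h2] at this
  have hderu : derivative u = C A := by
    rw [hu]
    simp
  have hchar : CharP R[X] p := inferInstance
  have hder : derivative (u ^ p) = (adMap u)^[p - 1] (C A) := by
    rw [derivative_pow_noncomm, adMap_iterate, hderu]
  have hcoef : ∀ m, 0 < m → m < p → (u ^ p).coeff m ∈ L (p * w) := by
    intro m hm hmp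
    refine hdiv (p * w) m _ hm hmp ?_
    have h1 := hiter (p - 1) (m - 1)
    rw [← hder, coeff_derivative, Nat.sub_add_cancel hp.out.one_le, Nat.sub_add_cancel hm] at h1
    have h2 : (((m - 1 : ℕ) : R) + 1) = (m : R) := by
      rw [← Nat.cast_add_one, Nat.sub_add_cancel hm]
    rw [h2, (Nat.cast_commute m _).symm.eq] at h1
    exact h1
  -- evaluate at one
  let ev : R[X] →+* R := eval₂RingHom' (RingHom.id R) 1 (fun a => Commute.one_right a)
  have hev1 : ev u = A + B := by
    simp [ev, hu, eval₂RingHom']
  have hnat : (u ^ p).natDegree ≤ p := by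
    calc (u ^ p).natDegree ≤ p * u.natDegree := natDegree_pow_le
      _ ≤ p * 1 := by
        refine Nat.mul_le_mul_left p ?_
        rw [hu]
        exact natDegree_linear_le
      _ = p := mul_one p
  have hev2 : (A + B) ^ p = ∑ m ∈ range (p + 1), (u ^ p).coeff m := by
    rw [← hev1, ← map_pow]
    show eval₂ (RingHom.id R) 1 (u ^ p) = _
    rw [eval₂_eq_sum_range' _ (Nat.lt_succ_of_le hnat)]
    simp
  have hcoef0 : (u ^ p).coeff 0 = B ^ p := by
    have h1 : ∀ n, (u ^ n).coeff 0 = B ^ n := by
      intro n
      induction n with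
      | zero => simp
      | succ n ih =>
        rw [pow_succ, mul_coeff_zero, ih, hu]
        simp [pow_succ]
    exact h1 p
  have hcoefp : (u ^ p).coeff p = A ^ p := by
    have h1 : ∀ n, (u ^ n).coeff n = A ^ n := by
      intro n
      induction n with
      | zero => simp
      | succ n ih =>
        have hdeg : (u ^ n).coeff (n + 1) = 0 := by
          refine coeff_eq_zero_of_natDegree_lt ?_
          calc (u ^ n).natDegree ≤ n * u.natDegree := natDegree_pow_le
            _ ≤ n * 1 := by
              refine Nat.mul_le_mul_left n ?_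
              rw [hu]
              exact natDegree_linear_le
            _ < n + 1 := by omega
        rw [pow_succ, hu, mul_add, coeff_add, ← mul_assoc, coeff_mul_X, coeff_mul_C, coeff_mul_C,
          ← hu, ih, hdeg, zero_mul, add_zero, pow_succ]
    exact h1 p
  have hsum : (A + B) ^ p - A ^ p - B ^ p = ∑ m ∈ Finset.Ioo 0 p, (u ^ p).coeff m := by
    rw [hev2, Finset.sum_range_succ, Finset.range_eq_Ico, ← Finset.sum_Ioo_add_eq_sum_Ico hp0,
      hcoef0, hcoefp]
    abel
  rw [hsum]
  refine AddSubgroup.sum_mem _ fun m hm => ?_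
  rw [Finset.mem_Ioo] at hm
  exact hcoef m hm.1 hm.2

end Poly

end Pool.Agent.Helper11.Coclass
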