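import Pool.Agent.Helper11.Coclass.WJ2
import Pool.Agent.Helper11.Coclass.Jacobson

/-!
# The recursion for dimension subgroups of finite `p`-groups

`D_n = [D_{n-1}, G] · ⟨h^p : h ∈ D_{⌈n/p⌉}⟩` for `n ≥ 2`.
-/

namespace Pool.Agent.Helper11.Coclass

open Pool.Agent.Helper34.Coclass MonoidAlgebra
open scoped commutatorElement

universe u v

section Group

variable {G : Type u} [Group G]

/-- The elements commuting with `A` modulo the normal subgroup `R`. -/
def centMod (A : Set G) (R : Subgroup G) [hR : R.Normal] : Subgroup G where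
  carrier := {v | ∀ u ∈ A, ⁅u, v⁆ ∈ R}
  mul_mem' := by
    intro v v' hv hv' u hu
    have e : ⁅u, v * v'⁆ = ⁅u, v⁆ * (v * ⁅u, v'⁆ * v⁻¹) := by
      simp only [commutatorElement_def]; group
    rw [e]
    exact mul_mem (hv u hu) (hR.conj_mem _ (hv' u hu) v)
  one_mem' := by
    intro u _
    rw [commutatorElement_one_right]
    exact one_mem _
  inv_mem' := by
    intro v hv u hu
    have e : ⁅u, v⁻¹⁆ = v⁻¹ * ⁅u, v⁆⁻¹ * v⁻¹⁻¹ := by
      simp only [commutatorElement_def]; group
    rw [e]
    exact hR.conj_mem _ (inv_mem (hv u hu)) v⁻¹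

lemma comm_symm_mem {R : Subgroup G} {u v : G} (h : ⁅u, v⁆ ∈ R) : ⁅v, u⁆ ∈ R := by
  have e : ⁅v, u⁆ = ⁅u, v⁆⁻¹ := by simp only [commutatorElement_def]; group
  rw [e]
  exact inv_mem h

/-- The three subgroups lemma modulo a normal subgroup. -/
lemma three_sub {R H₁ H₂ H₃ : Subgroup G} [R.Normal] (h1 : ⁅⁅H₂, H₃⁆, H₁⁆ ≤ R)
    (h2 : ⁅⁅H₃, H₁⁆, H₂⁆ ≤ R) : ⁅⁅H₁, H₂⁆, H₃⁆ ≤ R := by
  have key : ∀ A : Subgroup G, A ≤ R ↔ A.map (QuotientGroup.mk' R) = ⊥ := by
    intro A
    rw [Subgroup.map_eq_bot_iff, QuotientGroup.ker_mk']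
  rw [key, Subgroup.map_commutator, Subgroup.map_commutator] at h1 h2 ⊢
  exact Subgroup.commutator_commutator_eq_bot_of_rotate h1 h2

/-- A normal subgroup `N` of a finite `p`-group with `N = [N,G] N^p` is trivial. -/
lemma eq_bot_of_le {p : ℕ} [hp : Fact p.Prime] [Finite G] (hG : IsPGroup p G) (N : Subgroup G)
    [hN : N.Normal] (h : N ≤ ⁅N, (⊤ : Subgroup G)⁆ ⊔ Subgroup.closure {z | ∃ x ∈ N, z = x ^ p}) :
    N = ⊥ := by
  set M := ⁅N, (⊤ : Subgroup G)⁆ with hM
  have hMn : M.Normal := Subgroup.commutator_normal _ _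
  set f := QuotientGroup.mk' M with hf
  have hcomm : ∀ x ∈ N, ∀ y ∈ N, Commute (f x) (f y) := by
    intro x hx y _
    have h1 : ⁅x, y⁆ ∈ M := Subgroup.commutator_mem_commutator hx trivial
    have h2 : f ⁅x, y⁆ = 1 := (QuotientGroup.eq_one_iff _).2 h1
    rw [map_commutatorElement, commutatorElement_eq_one_iff_mul_comm] at h2
    exact h2
  let T : Subgroup (G ⧸ M) :=
    { carrier := {y | ∃ x ∈ N, y = f x ^ p}
      mul_mem' := by
        rintro _ _ ⟨x, hx, rfl⟩ ⟨y, hy, rfl⟩
        exact ⟨x * y, mul_mem hx hy, by rw [map_mul, (hcomm x hx y hy).mul_pow]⟩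
      one_mem' := ⟨1, one_mem _, by rw [map_one, one_pow]⟩
      inv_mem' := by
        rintro _ ⟨x, hx, rfl⟩
        exact ⟨x⁻¹, inv_mem hx, by rw [map_inv, inv_pow]⟩ }
  have h1 : N ≤ T.comap f := by
    refine h.trans (sup_le ?_ ?_)
    · intro x hx
      refine ⟨1, one_mem _, ?_⟩
      rw [map_one, one_pow]
      exact (QuotientGroup.eq_one_iff _).2 hx
    · rw [Subgroup.closure_le]
      rintro _ ⟨x, hx, rfl⟩
      exact ⟨x, hx, map_pow _ _ _⟩
  have h2 : ∀ k : ℕ, ∀ x ∈ N, ∃ y ∈ N, f x = f y ^ p ^ k := by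
    intro k
    induction k with
    | zero => intro x hx; exact ⟨x, hx, by rw [pow_zero, pow_one]⟩
    | succ k ih =>
      intro x hx
      obtain ⟨y, hy, hxy⟩ := ih x hx
      obtain ⟨z, hz, hyz⟩ := h1 hy
      exact ⟨z, hz, by rw [hxy, hyz, ← pow_mul, pow_succ']⟩
  have h3 : N ≤ M := by
    intro x hx
    obtain ⟨n, hn⟩ := IsPGroup.iff_card.1 hG
    obtain ⟨y, hy, hxy⟩ := h2 n x hx
    rw [← hn, ← map_pow, pow_card_eq_one', map_one] at hxy
    exact (QuotientGroup.eq_one_iff _).1 hxy
  have h4 : ∀ n, N ≤ (⊤ : Subgroup G).lowerCentralSeries n := by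
    intro n
    induction n with
    | zero => exact le_top
    | succ n ih => exact h3.trans (Subgroup.commutator_mono ih le_rfl)
  have hnil : Group.IsNilpotent G := hG.isNilpotent
  obtain ⟨n, hn⟩ := Subgroup.nilpotent_iff_lowerCentralSeries.1 hnil
  exact le_bot_iff.1 (hn ▸ h4 n)

end Group

variable {K : Type v} [Field K] {p : ℕ} [hp : Fact p.Prime] [CharP K p] {G : Type u} [Group G]

/-- Generators of the `n`-th term of the smallest `N_p`-series. -/
def genSet (K : Type v) [Field K] (p : ℕ) (G : Type u) [Group G] (n : ℕ) : Set G :=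
  {z | (∃ a b, 1 ≤ a ∧ 1 ≤ b ∧ a + b = n ∧ ∃ g ∈ dimSub K (G := G) a,
    ∃ h ∈ dimSub K (G := G) b, z = ⁅g, h⁆) ∨
    ∃ h ∈ dimSub K (G := G) ((n + p - 1) / p), z = h ^ p}

omit [CharP K p] hp in
lemma genSet_normal (n : ℕ) : (Subgroup.closure (genSet K p G n)).Normal := by
  refine ⟨fun x hx g => ?_⟩
  induction hx using Subgroup.closure_induction with
  | mem x hx =>
    refine Subgroup.subset_closure ?_
    rcases hx with ⟨a, b, ha, hb, hab, u, hu, v, hv, rfl⟩ | ⟨h, hh, rfl⟩
    · refine Or.inl ⟨a, b, ha, hb, hab, g * u * g⁻¹, (dimSub_normal K a).conj_mem _ hu g,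
        g * v * g⁻¹, (dimSub_normal K b).conj_mem _ hv g, ?_⟩
      simp only [commutatorElement_def]; group
    · refine Or.inr ⟨g * h * g⁻¹, (dimSub_normal K _).conj_mem _ hh g, ?_⟩
      rw [conj_pow]
  | one => simp
  | mul x y _ _ hx hy =>
    have e : g * (x * y) * g⁻¹ = (g * x * g⁻¹) * (g * y * g⁻¹) := by group
    rw [e]
    exact mul_mem hx hy
  | inv x _ hx =>
    have e : g * x⁻¹ * g⁻¹ = (g * x * g⁻¹)⁻¹ := by group
    rw [e]
    exact inv_mem hx

lemma genSet_le (n : ℕ) (hn : 2 ≤ n) : Subgroup.closure (genSet K p G n) ≤ dimSub K n := by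
  rw [Subgroup.closure_le]
  rintro z (⟨a, b, ha, hb, hab, u, hu, v, hv, rfl⟩ | ⟨h, hh, rfl⟩)
  · rw [← hab]
    exact commutator_mem_dimSub K hu hv
  · have h1 := pow_mem_dimSub K p hh
    refine dimSub_anti K ?_ h1
    have h2 : n + p - 1 < ((n + p - 1) / p + 1) * p := by
      have := Nat.lt_div_mul_add (a := n + p - 1) (b := p) hp.out.pos
      have e : ((n + p - 1) / p + 1) * p = (n + p - 1) / p * p + p := by ring
      omega
    have e : ((n + p - 1) / p + 1) * p = p * ((n + p - 1) / p) + p := by ring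
    have := hp.out.pos
    omega

variable [Finite G]

/-- **Jennings**: the dimension subgroups satisfy the recursion of the smallest `N_p`-series. -/
theorem dimSub_le_closure (hG : IsPGroup p G) {n : ℕ} (hn : 2 ≤ n) :
    dimSub K n ≤ Subgroup.closure (genSet K p G n) := by
  classical
  set E := Subgroup.closure (genSet K p G n) with hE
  have hEn : E.Normal := genSet_normal n
  have hp0 := hp.out.pos
  let κ : NpSer p G :=
    { k := fun m => if m < n then dimSub K m else E ⊓ dimSub K m
      zero := by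
        show (if 0 < n then dimSub K 0 else E ⊓ dimSub K 0) = ⊤
        rw [if_pos (by omega), dimSub_zero]
      one := by
        show (if 1 < n then dimSub K 1 else E ⊓ dimSub K 1) = ⊤
        rw [if_pos (by omega), dimSub_one]
      anti := by
        intro m
        show (if m + 1 < n then dimSub K (m + 1) else E ⊓ dimSub K (m + 1)) ≤
          (if m < n then dimSub K m else E ⊓ dimSub K m)
        have h1 := dimSub_anti K (G := G) (Nat.le_succ m)
        split_ifs with h2 h3 h3
        · exact h1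
        · omega
        · exact inf_le_right.trans h1
        · exact inf_le_inf_left _ h1
      comm := by
        intro a b g hg h hh
        change g ∈ (if a < n then dimSub K a else E ⊓ dimSub K a) at hg
        change h ∈ (if b < n then dimSub K b else E ⊓ dimSub K b) at hh
        show ⁅g, h⁆ ∈ (if a + b < n then dimSub K (a + b) else E ⊓ dimSub K (a + b))
        have hg' : g ∈ dimSub K a := by
          split_ifs at hg with h1
          · exact hg
          · exact hg.2
        have hh' : h ∈ dimSub K b := by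
          split_ifs at hh with h1
          · exact hh
          · exact hh.2
        have h1 := commutator_mem_dimSub K hg' hh'
        split_ifs with h2
        · exact h1
        refine ⟨?_, h1⟩
        rcases Nat.eq_zero_or_pos a with ha | ha
        · subst ha
          rw [if_neg (by omega)] at hh
          have h4 : ⁅g, h⁆ ∈ E := by
            rw [commutatorElement_def]
            exact mul_mem (hEn.conj_mem _ hh.1 g) (inv_mem hh.1)
          exact h4
        rcases Nat.eq_zero_or_pos b with hb | hb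
        · subst hb
          rw [if_neg (by omega)] at hg
          have h4 : ⁅h, g⁆ ∈ E := by
            rw [commutatorElement_def]
            exact mul_mem (hEn.conj_mem _ hg.1 h) (inv_mem hg.1)
          exact comm_symm_mem h4
        refine Subgroup.subset_closure (Or.inl ?_)
        rcases Nat.lt_or_ge a n with h3 | h3
        · exact ⟨a, n - a, ha, by omega, by omega, g, hg', h,
            dimSub_anti K (show n - a ≤ b by omega) hh', rfl⟩
        · exact ⟨n - 1, 1, by omega, le_rfl, by omega, g,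
            dimSub_anti K (show n - 1 ≤ a by omega) hg', h,
            dimSub_anti K (show 1 ≤ b by omega) hh', rfl⟩
      pow := by
        intro a g hg
        change g ∈ (if a < n then dimSub K a else E ⊓ dimSub K a) at hg
        show g ^ p ∈ (if p * a < n then dimSub K (p * a) else E ⊓ dimSub K (p * a))
        have hg' : g ∈ dimSub K a := by
          split_ifs at hg with h1
          · exact hg
          · exact hg.2
        have h1 := pow_mem_dimSub K p hg'
        split_ifs with h2
        · exact h1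
        refine ⟨Subgroup.subset_closure (Or.inr ⟨g, dimSub_anti K ?_ hg', rfl⟩), h1⟩
        rw [Nat.div_le_iff_le_mul_add_pred hp0]
        omega }
  have h1 := dimSub_le (K := K) hG κ n
  have h2 : κ.k n = E ⊓ dimSub K n := by
    show (if n < n then dimSub K n else E ⊓ dimSub K n) = _
    rw [if_neg (lt_irrefl _)]
  rw [h2] at h1
  exact h1.trans inf_le_left

/-- Termination of the dimension series. -/
theorem exists_dimSub_eq_bot (hG : IsPGroup p G) : ∃ M, ∀ m, M ≤ m → dimSub K (G := G) m = ⊥ := by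
  -- the series stabilises
  have hfin : (Set.range fun m => dimSub K (G := G) m).Finite := Set.toFinite _
  obtain ⟨M, hM⟩ : ∃ M, ∀ m, M ≤ m → dimSub K (G := G) m = dimSub K M := by
    have hwf := WellFounded.has_min (wellFounded_lt (α := Subgroup G))
      (Set.range fun m => dimSub K (G := G) m) ⟨_, 0, rfl⟩
    obtain ⟨_, ⟨M, rfl⟩, hmin⟩ := hwf
    refine ⟨M, fun m hm => ?_⟩
    have h1 := dimSub_anti K (G := G) hm
    by_contra hne
    exact hmin _ ⟨m, rfl⟩ (lt_of_le_of_ne h1 hne)
  refine ⟨M, fun m hm => ?_⟩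
  rw [hM m hm]
  refine eq_bot_of_le hG _ ?_
  have hp2 := hp.out.two_le
  set n := p * M + 2 with hn
  have h2M : 2 * M ≤ p * M := Nat.mul_le_mul_right M hp2
  have h1 : dimSub K M = dimSub K (G := G) n := (hM n (by omega)).symm
  rw [h1]
  refine (dimSub_le_closure hG (by omega)).trans ?_
  rw [← h1, Subgroup.closure_le]
  rintro z (⟨a, b, ha, hb, hab, u, hu, v, hv, rfl⟩ | ⟨h, hh, rfl⟩)
  · refine Subgroup.mem_sup_left ?_
    rcases Nat.lt_or_ge a M with h3 | h3
    · have h4 : M ≤ b := by omega
      rw [hM b h4] at hv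
      exact comm_symm_mem (Subgroup.commutator_mem_commutator hv trivial)
    · rw [hM a h3] at hu
      exact Subgroup.commutator_mem_commutator hu trivial
  · refine Subgroup.mem_sup_right (Subgroup.subset_closure ⟨h, ?_, rfl⟩)
    have h4 : M ≤ (n + p - 1) / p := by
      rw [Nat.le_div_iff_mul_le hp.out.pos]
      have : M * p = p * M := mul_comm _ _
      omega
    rwa [hM _ h4] at hh

end Pool.Agent.Helper11.Coclass
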