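import Pool.Agent.Helper11.Coclass.DimRec

/-!
# The recursion `D_n = [D_{n-1}, G] · ⟨h^p : h ∈ D_{⌈n/p⌉}⟩`
-/

namespace Pool.Agent.Helper11.Coclass

open Pool.Agent.Helper34.Coclass MonoidAlgebra
open scoped commutatorElement

universe u v

variable {K : Type v} [Field K] {p : ℕ} [hp : Fact p.Prime] [CharP K p] {G : Type u} [Group G]

/-- `[D_{n-1}, G] D_{n+1}`. -/
noncomputable def RR (K : Type v) [Field K] (G : Type u) [Group G] (n : ℕ) : Subgroup G :=
  ⁅dimSub K (G := G) (n - 1), (⊤ : Subgroup G)⁆ ⊔ dimSub K (n + 1)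

omit hp [CharP K p] in
instance RR_normal (n : ℕ) : (RR K G n).Normal := by
  have h1 : (⁅dimSub K (G := G) (n - 1), (⊤ : Subgroup G)⁆).Normal := Subgroup.commutator_normal _ _
  exact Subgroup.sup_normal _ _

omit hp [CharP K p] in
lemma dimSub_le_RR (n : ℕ) : dimSub K (n + 1) ≤ RR K G n := le_sup_right

omit hp [CharP K p] in
lemma RR_le (n : ℕ) (hn : 1 ≤ n) : RR K G n ≤ dimSub K n := by
  refine sup_le ?_ (dimSub_anti K (Nat.le_succ n))
  have h := dimSub_commutator_le K (G := G) (n - 1) 1
  rw [dimSub_one, Nat.sub_add_cancel hn] at h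
  exact h

/-- the iterated commutator -/
def itc (u h : G) : ℕ → G
  | 0 => u
  | j + 1 => ⁅itc u h j, h⁆

omit hp [CharP K p] in
lemma itc_mem {a c : ℕ} {u h : G} (hu : u ∈ dimSub K a) (hh : h ∈ dimSub K c) (j : ℕ) :
    itc u h j ∈ dimSub K (a + j * c) := by
  induction j with
  | zero =>
    rw [zero_mul, add_zero]
    exact hu
  | succ j ih =>
    have h1 := commutator_mem_dimSub K ih hh
    have e : a + (j + 1) * c = a + j * c + c := by ring
    rw [e]
    exact h1

omit hp [CharP K p] in
/-- The iterated commutator in the group algebra. -/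
lemma itc_congr {a c : ℕ} {u h : G} (hu : u ∈ dimSub K a) (hh : h ∈ dimSub K c) (j : ℕ) :
    (of K G (itc u h j) - 1) -
      ((rmul (of K G h - 1) - lmul (of K G h - 1)) ^ j : AddMonoid.End (MonoidAlgebra K G))
        (of K G u - 1) ∈ filt K G (a + j * c + 1) := by
  induction j with
  | zero =>
    rw [pow_zero, itc]
    have e : (of K G u - 1) - (1 : AddMonoid.End (MonoidAlgebra K G)) (of K G u - 1) = 0 :=
      sub_self _
    rw [e]
    exact zero_mem _
  | succ j ih =>
    set y := of K G h - 1 with hy
    set z := ((rmul y - lmul y) ^ j : AddMonoid.End (MonoidAlgebra K G)) (of K G u - 1) with hz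
    have e0 : ((rmul y - lmul y) ^ (j + 1) : AddMonoid.End (MonoidAlgebra K G))
        (of K G u - 1) = z * y - y * z := by
      rw [pow_succ']
      rfl
    have h1 := commutator_congr K (itc_mem hu hh j) hh
    rw [← hy] at h1
    have e1 : a + (j + 1) * c + 1 = a + j * c + c + 1 := by ring
    rw [e0, e1]
    have h2 : ((of K G (itc u h j) - 1) - z) * y ∈ filt K G (a + j * c + 1 + c) :=
      mul_mem_filt K ih hh
    have h3 : y * ((of K G (itc u h j) - 1) - z) ∈ filt K G (c + (a + j * c + 1)) :=
      mul_mem_filt K hh ih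
    have e2 : a + j * c + 1 + c = a + j * c + c + 1 := by omega
    have e3 : c + (a + j * c + 1) = a + j * c + c + 1 := by omega
    rw [e2] at h2
    rw [e3] at h3
    have e4 : (of K G (itc u h (j + 1)) - 1) - (z * y - y * z) =
        ((of K G ⁅itc u h j, h⁆ - 1) - ((of K G (itc u h j) - 1) * y -
          y * (of K G (itc u h j) - 1))) +
        (((of K G (itc u h j) - 1) - z) * y - y * ((of K G (itc u h j) - 1) - z)) := by
      rw [itc]
      noncomm_ring
    rw [e4]
    exact add_mem h1 (sub_mem h2 h3)

/-- `[u, h^p]` is the `p`-fold commutator modulo deeper terms. -/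
lemma comm_pow_congr {a c : ℕ} {u h : G} (hu : u ∈ dimSub K a) (hh : h ∈ dimSub K c) :
    ⁅u, h ^ p⁆ * (itc u h p)⁻¹ ∈ dimSub K (a + p * c + 1) := by
  have hchar : CharP (AddMonoid.End (MonoidAlgebra K G)) p := by
    have : Nontrivial (AddMonoid.End (MonoidAlgebra K G)) := by
      refine ⟨0, 1, fun h => ?_⟩
      have h2 := DFunLike.congr_fun h (1 : MonoidAlgebra K G)
      have h3 : (0 : MonoidAlgebra K G) = 1 := h2
      exact zero_ne_one h3
    refine (CharP.charP_iff_prime_eq_zero hp.out).2 ?_
    refine DFunLike.ext _ _ fun x => ?_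
    rw [AddMonoid.End.natCast_apply, ← Nat.cast_smul_eq_nsmul K, CharP.cast_eq_zero, zero_smul]
    rfl
  set y := of K G h - 1 with hy
  have hcomm : Commute (rmul y) (lmul y) := by
    refine AddMonoidHom.ext fun x => ?_
    show (y * x) * y = y * (x * y)
    rw [mul_assoc]
  have h1 := itc_congr hu hh p
  rw [← hy, sub_pow_char_of_commute _ hcomm] at h1
  have e1 : (rmul y ^ p - lmul y ^ p : AddMonoid.End (MonoidAlgebra K G)) (of K G u - 1) =
      (of K G u - 1) * y ^ p - y ^ p * (of K G u - 1) := by
    rw [← rmul_pow, ← lmul_pow]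
    rfl
  rw [e1, hy, ← of_pow_sub_one] at h1
  have h2 := commutator_congr K hu (pow_mem_dimSub K p hh)
  have h3 := sub_mem h2 h1
  have e2 : (of K G ⁅u, h ^ p⁆ - 1) - ((of K G u - 1) * (of K G (h ^ p) - 1) -
      (of K G (h ^ p) - 1) * (of K G u - 1)) - ((of K G (itc u h p) - 1) -
      ((of K G u - 1) * (of K G (h ^ p) - 1) - (of K G (h ^ p) - 1) * (of K G u - 1))) =
      of K G ⁅u, h ^ p⁆ - of K G (itc u h p) := by abel
  rw [e2] at h3
  rw [mem_dimSub]
  have e3 : of K G (⁅u, h ^ p⁆ * (itc u h p)⁻¹) - 1 =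
      (of K G ⁅u, h ^ p⁆ - of K G (itc u h p)) * of K G (itc u h p)⁻¹ := by
    rw [sub_mul, ← map_mul, ← map_mul, mul_inv_cancel, map_one]
  rw [e3]
  exact mul_mem_filt_right K _ _ h3

variable [Finite G]

/-- `[D_a, D_b] ≤ [D_{a+b-1}, G] D_{a+b+1}`. -/
theorem comm_le_RR (hG : IsPGroup p G) (b : ℕ) : ∀ a, 1 ≤ a → 1 ≤ b →
    ⁅dimSub K (G := G) a, dimSub K (G := G) b⁆ ≤ RR K G (a + b) := by
  induction b using Nat.strong_induction_on with
  | _ b IH =>
    intro a ha hb
    have hp2 := hp.out.two_le
    rcases hb.eq_or_lt with hb1 | hb2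
    · subst hb1
      rw [dimSub_one]
      exact le_sup_left
    have hcent : dimSub K b ≤ centMod (dimSub K (G := G) a : Set G) (RR K G (a + b)) := by
      refine (dimSub_le_closure hG hb2).trans ?_
      rw [Subgroup.closure_le]
      rintro z (⟨c, d, hc, hd, hcd, g, hg, h, hh, rfl⟩ | ⟨h, hh, rfl⟩)
      · intro u hu
        have h1 : ⁅⁅dimSub K (G := G) c, dimSub K (G := G) d⁆, dimSub K (G := G) a⁆ ≤ RR K G (a + b) := by
          refine three_sub ?_ ?_
          · have h2 : ⁅dimSub K (G := G) d, dimSub K (G := G) a⁆ ≤ dimSub K (a + d) := by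
              rw [add_comm]
              exact dimSub_commutator_le K d a
            refine (Subgroup.commutator_mono h2 le_rfl).trans ?_
            have h3 := IH c (by omega) (a + d) (by omega) hc
            have e : a + d + c = a + b := by omega
            rwa [e] at h3
          · have h2 := dimSub_commutator_le K (G := G) a c
            refine (Subgroup.commutator_mono h2 le_rfl).trans ?_
            have h3 := IH d (by omega) (a + c) (by omega) hd
            have e : a + c + d = a + b := by omega
            rwa [e] at h3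
        have h2 := h1 (Subgroup.commutator_mem_commutator
          (Subgroup.commutator_mem_commutator hg hh) hu)
        exact comm_symm_mem h2
      · intro u hu
        set c := (b + p - 1) / p with hc
        have hc1 : 1 ≤ c := by
          rw [hc, Nat.le_div_iff_mul_le hp.out.pos]
          omega
        have hcb : c < b := by
          rw [hc, Nat.div_lt_iff_lt_mul hp.out.pos]
          have h5 : 2 * p ≤ b * p := Nat.mul_le_mul_right p hb2
          have h6 : b * 2 ≤ b * p := Nat.mul_le_mul_left b hp2
          have h7 : b + p ≤ b * p := by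
            obtain ⟨b', rfl⟩ : ∃ b', b = b' + 2 := ⟨b - 2, by omega⟩
            obtain ⟨p', hp'⟩ : ∃ p', p = p' + 2 := ⟨p - 2, by omega⟩
            rw [hp']
            nlinarith
          omega
        have hpc : b ≤ p * c := by
          have h5 := Nat.lt_div_mul_add (a := b + p - 1) (b := p) hp.out.pos
          have e : p * c = (b + p - 1) / p * p := by rw [hc, mul_comm]
          omega
        have h1 := comm_pow_congr (p := p) hu hh
        have h2 : itc u h p ∈ RR K G (a + p * c) := by
          obtain ⟨p', hp'⟩ : ∃ p', p = p' + 1 := ⟨p - 1, by omega⟩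
          have h3 := IH c hcb (a + p' * c) (by omega) hc1
          have h4 : itc u h (p' + 1) ∈ ⁅dimSub K (G := G) (a + p' * c), dimSub K (G := G) c⁆ :=
            Subgroup.commutator_mem_commutator (itc_mem hu hh p') hh
          have h5 := h3 h4
          have e : a + p' * c + c = a + p * c := by rw [hp']; ring
          rw [e, ← hp'] at h5
          exact h5
        have h3 : ⁅u, h ^ p⁆ ∈ RR K G (a + p * c) := by
          have h4 := mul_mem (dimSub_le_RR (a + p * c) h1) h2
          rwa [inv_mul_cancel_right] at h4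
        rcases hpc.eq_or_lt with h4 | h4
        · rw [← h4] at h3
          exact h3
        · refine dimSub_le_RR (a + b) ?_
          refine dimSub_anti K ?_ (RR_le (a + p * c) (by omega) h3)
          omega
    rw [Subgroup.commutator_le]
    intro u hu v hv
    exact hcent hv u hu

/-- The subgroup generated by the `p`-th powers of `D_{⌈n/p⌉}`. -/
def PP (K : Type v) [Field K] (p : ℕ) (G : Type u) [Group G] (n : ℕ) : Subgroup G :=
  Subgroup.closure {z | ∃ h ∈ dimSub K (G := G) ((n + p - 1) / p), z = h ^ p}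

omit [CharP K p] hp [Finite G] in
lemma PP_anti {m n : ℕ} (h : m ≤ n) : PP K p G n ≤ PP K p G m := by
  refine Subgroup.closure_mono ?_
  rintro _ ⟨x, hx, rfl⟩
  exact ⟨x, dimSub_anti K (Nat.div_le_div_right (by omega)) hx, rfl⟩

/-- **The recursion for dimension subgroups.** -/
theorem dimSub_recursion (hG : IsPGroup p G) {n : ℕ} (hn : 2 ≤ n) :
    dimSub K (G := G) n = ⁅dimSub K (G := G) (n - 1), (⊤ : Subgroup G)⁆ ⊔ PP K p G n := by
  refine le_antisymm ?_ ?_
  · have h1 : ∀ m, 2 ≤ m → dimSub K (G := G) m ≤
        (⁅dimSub K (G := G) (m - 1), (⊤ : Subgroup G)⁆ ⊔ PP K p G m) ⊔ dimSub K (m + 1) := by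
      intro m hm
      refine (dimSub_le_closure hG hm).trans ?_
      rw [Subgroup.closure_le]
      rintro z (⟨a, b, ha, hb, hab, u, hu, v, hv, rfl⟩ | ⟨h, hh, rfl⟩)
      · have h2 := comm_le_RR hG b a ha hb (Subgroup.commutator_mem_commutator hu hv)
        rw [hab] at h2
        exact (sup_le_sup_right le_sup_left _ : RR K G m ≤ _) h2
      · exact Subgroup.mem_sup_left (Subgroup.mem_sup_right
          (Subgroup.subset_closure ⟨h, hh, rfl⟩))
    have h2 : ∀ j, dimSub K (G := G) n ≤
        (⁅dimSub K (G := G) (n - 1), (⊤ : Subgroup G)⁆ ⊔ PP K p G n) ⊔ dimSub K (n + 1 + j) := by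
      intro j
      induction j with
      | zero => exact h1 n hn
      | succ j ih =>
        refine ih.trans (sup_le le_sup_left ?_)
        refine (h1 (n + 1 + j) (by omega)).trans ?_
        refine sup_le_sup (sup_le_sup ?_ (PP_anti (by omega))) le_rfl
        exact Subgroup.commutator_mono (dimSub_anti K (by omega)) le_rfl
    obtain ⟨M, hM⟩ := exists_dimSub_eq_bot (K := K) hG
    have h3 := h2 M
    rw [hM (n + 1 + M) (by omega), sup_bot_eq] at h3
    exact h3
  · refine sup_le ?_ ?_
    · have h := dimSub_commutator_le K (G := G) (n - 1) 1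
      rw [dimSub_one, Nat.sub_add_cancel (by omega)] at h
      exact h
    · rw [PP, Subgroup.closure_le]
      rintro _ ⟨h, hh, rfl⟩
      exact genSet_le (K := K) n hn (Subgroup.subset_closure (Or.inr ⟨h, hh, rfl⟩))

/-- Dimension subgroups of quotients. -/
theorem dimSub_map_surj (hG : IsPGroup p G) {Q : Type u} [Group Q] (f : G →* Q)
    (hf : Function.Surjective f) (n : ℕ) : dimSub K (G := Q) n = (dimSub K (G := G) n).map f := by
  have hQf : Finite Q := Finite.of_surjective f hf
  have hQ : IsPGroup p Q := hG.of_surjective f hf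
  refine le_antisymm ?_ ?_
  · let κ : NpSer p Q :=
      { k := fun n => (dimSub K n).map f
        zero := by rw [dimSub_zero, Subgroup.map_top_of_surjective _ hf]
        one := by rw [dimSub_one, Subgroup.map_top_of_surjective _ hf]
        anti := fun n => Subgroup.map_mono (dimSub_anti K (Nat.le_succ n))
        comm := by
          rintro a b _ ⟨x, hx, rfl⟩ _ ⟨y, hy, rfl⟩
          refine ⟨⁅x, y⁆, commutator_mem_dimSub K hx hy, ?_⟩
          exact map_commutatorElement _ _ _
        pow := by
          rintro a _ ⟨x, hx, rfl⟩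
          exact ⟨x ^ p, pow_mem_dimSub K p hx, map_pow _ _ _⟩ }
    exact dimSub_le (K := K) hQ κ n
  · rintro _ ⟨x, hx, rfl⟩
    exact map_dimSub K f hx

end Pool.Agent.Helper11.Coclass
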