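import Pool.Agent.Helper11.Coclass.Sym

/-!
# Filtered modules of a group, weights and symbols
-/

namespace Pool.Agent.Helper11.Coclass

open Finset
open scoped commutatorElement

lemma end_sum_apply {ι A : Type*} [AddCommGroup A] (f : ι → AddMonoid.End A) (s : Finset ι)
    (u : A) : (∑ j ∈ s, f j) u = ∑ j ∈ s, f j u := by
  classical
  induction s using Finset.induction_on with
  | empty => rfl
  | insert a s ha ih => rw [sum_insert ha, sum_insert ha, ← ih]; rfl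

/-- A filtered abelian group `A` with an action of `S`, leading coefficients `lc b` on the layers
`F b / F (b+1)`, `b < m`. -/
structure FMod (p δ lo m : ℕ) (S : Type*) [Group S] (A : Type*) [AddCommGroup A] where
  ρ : S →* AddMonoid.End A
  F : ℕ → AddSubgroup A
  anti : ∀ b, F (b + 1) ≤ F b
  lc : ℕ → A → ZMod p
  lc_add : ∀ b, ∀ u ∈ F b, ∀ v ∈ F b, lc b (u + v) = lc b u + lc b v
  lc_ker : ∀ b, b < m → ∀ u ∈ F b, (lc b u = 0 ↔ u ∈ F (b + 1))
  unip : ∀ (g : S) (b : ℕ), lo ≤ b → ∀ u ∈ F b, ρ g u - u ∈ F (b + 1)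
  pmul : ∀ b, lo < b → ∀ u ∈ F b, p • u ∈ F (b + δ) ∧ (b + δ < m → lc (b + δ) (p • u) = lc b u)

namespace FMod

variable {p δ lo m : ℕ} {S : Type*} [Group S] {A : Type*} [AddCommGroup A]
  (M : FMod p δ lo m S A)

lemma anti' {b c : ℕ} (h : b ≤ c) : M.F c ≤ M.F b := by
  induction c, h using Nat.le_induction with
  | base => exact le_rfl
  | succ c _ ih => exact (M.anti c).trans ih

lemma lc_zero {b : ℕ} : M.lc b 0 = 0 := by
  have h := M.lc_add b 0 (zero_mem _) 0 (zero_mem _)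
  rw [add_zero] at h
  exact left_eq_add.1 h

lemma lc_neg {b : ℕ} {u : A} (hu : u ∈ M.F b) : M.lc b (-u) = - M.lc b u := by
  have h := M.lc_add b u hu (-u) (neg_mem hu)
  rw [add_neg_cancel, lc_zero] at h
  exact eq_neg_of_add_eq_zero_right h.symm

lemma lc_sub {b : ℕ} {u v : A} (hu : u ∈ M.F b) (hv : v ∈ M.F b) :
    M.lc b (u - v) = M.lc b u - M.lc b v := by
  rw [sub_eq_add_neg, M.lc_add b u hu (-v) (neg_mem hv), M.lc_neg hv, ← sub_eq_add_neg]

lemma lc_congr {b : ℕ} (hb : b < m) {u v : A} (hu : u ∈ M.F b) (hv : v ∈ M.F b)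
    (h : u - v ∈ M.F (b + 1)) : M.lc b u = M.lc b v := by
  have h1 := (M.lc_ker b hb (u - v) (sub_mem hu hv)).2 h
  rw [M.lc_sub hu hv] at h1
  exact sub_eq_zero.1 h1

lemma ρ_mem {b : ℕ} (hb : lo ≤ b) (g : S) {u : A} (hu : u ∈ M.F b) : M.ρ g u ∈ M.F b := by
  have h := M.anti b (M.unip g b hb u hu)
  have h2 := add_mem h hu
  rwa [sub_add_cancel] at h2

lemma lc_ρ {b : ℕ} (hb : lo ≤ b) (hm : b < m) (g : S) {u : A} (hu : u ∈ M.F b) :
    M.lc b (M.ρ g u) = M.lc b u :=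
  M.lc_congr hm (M.ρ_mem hb g hu) hu (M.unip g b hb u hu)

/-- `y` has weight at least `w`, with symbol `s`. -/
def Sy (w : ℕ) (y : S) (s : ℕ → ZMod p) : Prop :=
  ∀ b, lo ≤ b → ∀ u ∈ M.F b, M.ρ y u - u ∈ M.F (b + w) ∧
    (b + w < m → M.lc (b + w) (M.ρ y u - u) = s b * M.lc b u)

lemma sy_one (w : ℕ) : M.Sy w 1 0 := by
  intro b _ u _
  have h : M.ρ 1 u - u = 0 := by rw [map_one]; exact sub_self u
  rw [h]
  exact ⟨zero_mem _, fun _ => by rw [lc_zero]; simp⟩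

variable {M}

lemma Sy.congr {w : ℕ} {y : S} {s t : ℕ → ZMod p} (h : M.Sy w y s)
    (hst : ∀ b, b + w < m → s b = t b) : M.Sy w y t := by
  intro b hb u hu
  obtain ⟨h1, h2⟩ := h b hb u hu
  exact ⟨h1, fun h3 => by rw [h2 h3, hst b h3]⟩

lemma Sy.mul {w : ℕ} {y y' : S} {s s' : ℕ → ZMod p} (h : M.Sy w y s) (h' : M.Sy w y' s') :
    M.Sy w (y * y') (s + s') := by
  intro b hb u hu
  obtain ⟨h1, h2⟩ := h b hb u hu
  obtain ⟨h1', h2'⟩ := h' b hb u hu
  have h3 := M.unip y (b + w) (by omega) _ h1'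
  have h4 : M.ρ (y * y') u - u = (M.ρ y' u - u) + (M.ρ y (M.ρ y' u - u) - (M.ρ y' u - u)) +
      (M.ρ y u - u) := by
    rw [map_mul, map_sub]
    show M.ρ y (M.ρ y' u) - u = _
    abel
  rw [h4]
  have h5 := M.anti _ h3
  refine ⟨add_mem (add_mem h1' h5) h1, fun hm => ?_⟩
  rw [M.lc_add _ _ (add_mem h1' h5) _ h1, M.lc_add _ _ h1' _ h5, h2 hm, h2' hm,
    (M.lc_ker _ hm _ h5).2 h3, add_zero, Pi.add_apply]
  ring

lemma Sy.bracket {v w : ℕ} {y z : S} {s t : ℕ → ZMod p} (hy : M.Sy v y s) (hz : M.Sy w z t) :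
    M.Sy (v + w) ⁅z, y⁆ (fun b => s b * t (b + v) - t b * s (b + w)) := by
  intro b hb u' hu'
  set u := M.ρ ((y * z)⁻¹) u' with hudef
  have hu : u ∈ M.F b := M.ρ_mem hb _ hu'
  have hu'u : M.ρ (y * z) u = u' := by
    rw [hudef]
    show (M.ρ (y * z) * M.ρ ((y * z)⁻¹)) u' = u'
    rw [← map_mul, mul_inv_cancel, map_one]
    rfl
  obtain ⟨h1, h2⟩ := hy b hb u hu
  obtain ⟨h3, h4⟩ := hz b hb u hu
  obtain ⟨h5, h6⟩ := hz (b + v) (by omega) _ h1
  obtain ⟨h7, h8⟩ := hy (b + w) (by omega) _ h3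
  have e1 : b + v + w = b + (v + w) := by omega
  have e2 : b + w + v = b + (v + w) := by omega
  rw [e1] at h5 h6
  rw [e2] at h7 h8
  have h9 : M.ρ ⁅z, y⁆ u' - u' = (M.ρ z (M.ρ y u - u) - (M.ρ y u - u)) -
      (M.ρ y (M.ρ z u - u) - (M.ρ z u - u)) := by
    have h10 : M.ρ ⁅z, y⁆ u' = M.ρ z (M.ρ y u) := by
      rw [← hu'u]
      show (M.ρ ⁅z, y⁆ * M.ρ (y * z)) u = (M.ρ z * M.ρ y) u
      rw [← map_mul, ← map_mul]
      congr 2
      rw [commutatorElement_def]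
      group
    have h11 : u' = M.ρ y (M.ρ z u) := by
      rw [← hu'u, map_mul]
      rfl
    rw [h10, map_sub, map_sub]
    conv_lhs => rw [h11]
    abel
  rw [h9]
  refine ⟨sub_mem h5 h7, fun hm => ?_⟩
  rw [M.lc_sub h5 h7, h6 hm, h8 hm, h2 (by omega), h4 (by omega)]
  have h12 : M.lc b u' = M.lc b u := by
    rw [← hu'u]
    exact M.lc_ρ hb (by omega) _ hu
  rw [h12]
  ring

/-- Powers of `ρ y - 1`. -/
lemma Sy.iter {w : ℕ} {y : S} {s : ℕ → ZMod p} (h : M.Sy w y s) (j : ℕ) :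
    ∀ b, lo ≤ b → ∀ u ∈ M.F b, ((M.ρ y - 1) ^ j) u ∈ M.F (b + j * w) ∧
      (b + j * w < m → M.lc (b + j * w) (((M.ρ y - 1) ^ j) u) =
        (∏ i ∈ range j, s (b + i * w)) * M.lc b u) := by
  induction j with
  | zero =>
    intro b _ u hu
    simpa using hu
  | succ j ih =>
    intro b hb u hu
    obtain ⟨h1, h2⟩ := ih b hb u hu
    have h3 := h (b + j * w) (by omega) _ h1
    have h4 : ((M.ρ y - 1) ^ (j + 1)) u =
        M.ρ y (((M.ρ y - 1) ^ j) u) - ((M.ρ y - 1) ^ j) u := by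
      rw [pow_succ']
      rfl
    have h5 : b + j * w + w = b + (j + 1) * w := by ring
    rw [h5] at h3
    rw [h4]
    refine ⟨h3.1, fun hm => ?_⟩
    rw [h3.2 hm, h2 (by nlinarith), prod_range_succ]
    ring

end FMod

/-- The binomial expansion of `(1+x)^p - 1`, `p` an odd prime. -/
lemma one_add_pow_prime {R : Type*} [Ring R] {p : ℕ} (hp : p.Prime) (x : R) :
    ∃ q : R, Commute q x ∧ (∃ c : ℕ → ℕ, q = ∑ j ∈ range p, c j • x ^ j) ∧
      (1 + x) ^ p - 1 = x ^ p + p • x + p • (x * (x * q)) := by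
  refine ⟨∑ j ∈ range p, (if j + 2 < p then Nat.choose p (j + 2) / p else 0) • x ^ j, ?_,
    ⟨_, rfl⟩, ?_⟩
  · refine Commute.sum_left _ _ _ fun j _ => ?_
    exact (Commute.pow_self x j).smul_left _
  · have hc : Commute (1 : R) x := Commute.one_left x
    rw [add_comm 1 x, (hc.symm).add_pow]
    obtain ⟨n, rfl⟩ : ∃ n, p = n + 2 := ⟨p - 2, by have := hp.two_le; omega⟩
    have h1 : ∑ j ∈ range (n + 2 + 1), x ^ j * 1 ^ (n + 2 - j) * ((n + 2).choose j : R) =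
        (∑ j ∈ range n, (n + 2).choose (j + 2) • x ^ (j + 2)) + x ^ (n + 2) +
          ((n + 2) • x + 1) := by
      rw [Finset.sum_range_succ, Finset.sum_range_succ', Finset.sum_range_succ']
      simp only [one_pow, mul_one, Nat.choose_self, Nat.cast_one, pow_zero, Nat.choose_zero_right,
        Nat.choose_one_right, zero_add, pow_one, nsmul_eq_mul, Nat.cast_comm]
      abel
    rw [h1]
    have h2 : (n + 2) • (x * (x * ∑ j ∈ range (n + 2),
        (if j + 2 < n + 2 then Nat.choose (n + 2) (j + 2) / (n + 2) else 0) • x ^ j)) =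
        ∑ j ∈ range n, (n + 2).choose (j + 2) • x ^ (j + 2) := by
      rw [Finset.sum_range_succ, Finset.sum_range_succ, if_neg (by omega), if_neg (by omega),
        zero_smul, zero_smul, add_zero, add_zero, Finset.mul_sum, Finset.mul_sum, Finset.smul_sum]
      refine Finset.sum_congr rfl fun j hj => ?_
      rw [if_pos (by have := Finset.mem_range.1 hj; omega)]
      have h3 : n + 2 ∣ (n + 2).choose (j + 2) :=
        hp.dvd_choose_self (by omega) (by have := Finset.mem_range.1 hj; omega)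
      rw [mul_smul_comm, mul_smul_comm, smul_smul, Nat.mul_div_cancel' h3]
      congr 1
      rw [pow_add, pow_two, ← mul_assoc]
      exact (((Commute.refl x).mul_left (Commute.refl x)).pow_right j).eq
    rw [h2]
    abel

namespace FMod

variable {p δ lo m : ℕ} {S : Type*} [Group S] {A : Type*} [AddCommGroup A]
  {M : FMod p δ lo m S A}

/-- The `p`-th power: the error term. -/
lemma Sy.pow_expand (hp : p.Prime) {w : ℕ} (hw : 0 < w) {y : S} {s : ℕ → ZMod p}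
    (h : M.Sy w y s) {b : ℕ} (hb : lo ≤ b) {u : A} (hu : u ∈ M.F b) :
    ∃ r ∈ M.F (b + 2 * w + δ), M.ρ (y ^ p) u - u =
      ((M.ρ y - 1) ^ p) u + p • (M.ρ y u - u) + r := by
  obtain ⟨q, hq, ⟨c, hc⟩, h1⟩ := one_add_pow_prime hp (M.ρ y - 1)
  refine ⟨p • ((M.ρ y - 1) * ((M.ρ y - 1) * q)) u, ?_, ?_⟩
  · have h2 : q u ∈ M.F b := by
      rw [hc]
      have h3 : (∑ j ∈ range p, c j • (M.ρ y - 1) ^ j : AddMonoid.End A) u =
          ∑ j ∈ range p, c j • (((M.ρ y - 1) ^ j) u) := by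
        rw [end_sum_apply]
        rfl
      rw [h3]
      refine sum_mem fun j _ => nsmul_mem ?_ _
      exact M.anti' (by omega) (h.iter j b hb u hu).1
    have h3 := (h.iter 2 b hb _ h2).1
    have h4 : ((M.ρ y - 1) * ((M.ρ y - 1) * q)) u =
        ((M.ρ y - 1) ^ 2 : AddMonoid.End A) (q u) := by
      rw [pow_two]
      rfl
    rw [h4]
    exact (M.pmul (b + 2 * w) (by omega) _ h3).1
  · have h2 := DFunLike.congr_fun h1 u
    have h3 : (1 + (M.ρ y - 1)) ^ p = M.ρ (y ^ p) := by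
      rw [map_pow, add_sub_cancel]
    rw [h3] at h2
    exact h2

/-- Rule 1: `(p-1) w < δ`. -/
lemma Sy.pow_lt (hp : p.Prime) {w : ℕ} (hw : 0 < w) (hδ : (p - 1) * w < δ) {y : S}
    {s : ℕ → ZMod p} (h : M.Sy w y s) :
    M.Sy (p * w) (y ^ p) (fun b => ∏ i ∈ range p, s (b + i * w)) := by
  intro b hb u hu
  obtain ⟨r, hr, hr2⟩ := h.pow_expand hp hw hb hu
  obtain ⟨h1, h2⟩ := h.iter p b hb u hu
  obtain ⟨h3, -⟩ := h b hb u hu
  obtain ⟨h4, -⟩ := M.pmul (b + w) (by omega) _ h3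
  have hpw : p * w + 1 ≤ w + δ := by
    have : p * w = (p - 1) * w + w := by
      conv_lhs => rw [← Nat.sub_add_cancel hp.one_le]
      ring
    omega
  have h5 := M.anti' (b := b + p * w + 1) (by omega) h4
  have h6 := M.anti' (b := b + p * w + 1) (by omega) hr
  rw [hr2]
  refine ⟨add_mem (add_mem h1 (M.anti _ h5)) (M.anti _ h6), fun hm => ?_⟩
  rw [M.lc_add _ _ (add_mem h1 (M.anti _ h5)) _ (M.anti _ h6), M.lc_add _ _ h1 _ (M.anti _ h5),
    (M.lc_ker _ hm _ (M.anti _ h5)).2 h5, (M.lc_ker _ hm _ (M.anti _ h6)).2 h6, h2 hm]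
  ring

/-- Rule 2: `(p-1) w > δ`. -/
lemma Sy.pow_gt (hp : p.Prime) {w : ℕ} (hw : 0 < w) (hδ : δ < (p - 1) * w) {y : S}
    {s : ℕ → ZMod p} (h : M.Sy w y s) :
    M.Sy (w + δ) (y ^ p) s := by
  intro b hb u hu
  obtain ⟨r, hr, hr2⟩ := h.pow_expand hp hw hb hu
  obtain ⟨h1, -⟩ := h.iter p b hb u hu
  obtain ⟨h3, h3'⟩ := h b hb u hu
  obtain ⟨h4, h4'⟩ := M.pmul (b + w) (by omega) _ h3
  have hpw : w + δ + 1 ≤ p * w := by
    have : p * w = (p - 1) * w + w := by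
      conv_lhs => rw [← Nat.sub_add_cancel hp.one_le]
      ring
    omega
  have h5 := M.anti' (b := b + (w + δ) + 1) (by omega) h1
  have h6 := M.anti' (b := b + (w + δ) + 1) (by omega) hr
  rw [add_assoc] at h4 h4'
  rw [hr2]
  refine ⟨add_mem (add_mem (M.anti _ h5) h4) (M.anti _ h6), fun hm => ?_⟩
  rw [M.lc_add _ _ (add_mem (M.anti _ h5) h4) _ (M.anti _ h6), M.lc_add _ _ (M.anti _ h5) _ h4,
    (M.lc_ker _ hm _ (M.anti _ h5)).2 h5, (M.lc_ker _ hm _ (M.anti _ h6)).2 h6, h4' hm,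
    h3' (by omega)]
  ring

/-- Rule 3: `(p-1) w = δ`. -/
lemma Sy.pow_eq (hp : p.Prime) {w : ℕ} (hw : 0 < w) (hδ : δ = (p - 1) * w) {y : S}
    {s : ℕ → ZMod p} (h : M.Sy w y s) :
    M.Sy (w + δ) (y ^ p) (fun b => (∏ i ∈ range p, s (b + i * w)) + s b) := by
  intro b hb u hu
  obtain ⟨r, hr, hr2⟩ := h.pow_expand hp hw hb hu
  obtain ⟨h1, h1'⟩ := h.iter p b hb u hu
  obtain ⟨h3, h3'⟩ := h b hb u hu
  obtain ⟨h4, h4'⟩ := M.pmul (b + w) (by omega) _ h3
  have hpw : w + δ = p * w := by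
    have : p * w = (p - 1) * w + w := by
      conv_lhs => rw [← Nat.sub_add_cancel hp.one_le]
      ring
    omega
  rw [← hpw] at h1 h1'
  have h6 := M.anti' (b := b + (w + δ) + 1) (by omega) hr
  rw [add_assoc] at h4 h4'
  rw [hr2]
  refine ⟨add_mem (add_mem h1 h4) (M.anti _ h6), fun hm => ?_⟩
  rw [M.lc_add _ _ (add_mem h1 h4) _ (M.anti _ h6), M.lc_add _ _ h1 _ h4,
    (M.lc_ker _ hm _ (M.anti _ h6)).2 h6, h4' hm, h3' (by omega), h1' hm]
  ring

end FMod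

end Pool.Agent.Helper11.Coclass
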