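import Pool.Agent.Helper11.Coclass.Count
import Pool.Agent.Helper34.Coclass.IndexLe
import Pool.Agent.Helper56.Coclass.CoclassI1
import Pool.Agent.Helper67.Coclass.Final
import Pool.Agent.Helper94.CoclassI4

/-!
# Finiteness of the p-adic space groups with point group of given coclass

The pieces are put together here.
-/

namespace Pool.Agent.Helper11.Coclass

open Pool.Agent.Helper67.Coclass

/-- A finite `p`-group of coclass `s`, `p` odd, with a uniserial lattice `M` has a subgroup `L` of
index at most `p ^ (3 * s + 2)` with trivial core, and the index bounds the rank of `M`. -/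
theorem exists_subgroup (p : ℕ) [hp : Fact p.Prime] (hp2 : p ≠ 2) (s : ℕ) (P : Type) [Group P]
    [Finite P] (hs : HasCoclass p P s) (M : Type) [AddCommGroup M] [Module ℤ_[p] M]
    [DistribMulAction P M] [SMulCommClass P ℤ_[p] M] (h : IsUniserialLattice p P M) :
    ∃ L : Subgroup P, L.index ≤ p ^ (3 * s + 2) ∧ L.normalCore = ⊥ ∧
      Module.finrank ℤ_[p] M ≤ L.index := by
  have := h.finite
  have := h.nontrivial
  have : Fintype P := Fintype.ofFinite P
  have hP : IsPGroup p P := IsPGroup.of_card hs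
  let ρ : P →* Module.End ℤ_[p] M := DistribMulAction.toModuleEnd ℤ_[p] M
  have hU : IsU ρ := by
    intro L hL hf
    have h1 := h.step L hL (finite_of_finIdx hf)
    have h2 := comm_toAddSubgroup ρ L
    rw [h2]
    exact h1
  obtain ⟨H, b, lam, h0, v0, π, N, N', hb, hadd, hh0, hlam0, hv0, hact, hsum, hπ, hπ0, hF⟩ :=
    hasMono hp2 (Nat.card P) P le_rfl hP M h.torsionFree ρ hU
  have D : MonoData ρ H b lam h0 v0 π N N' :=
    ⟨hb, hadd, hh0, hlam0, hv0, hact, hsum, hπ, hπ0, hF⟩
  have hu : UniserialPerm p P (P ⧸ H) := uniserialPerm hp2 hP h.torsionFree hU D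
  have hsurj : Function.Surjective (MonoidHom.transfer (lamHom D)) := by
    convert transfer_surjective hp2 hP h.torsionFree hU D
  have h1 := Pool.Agent.Helper34.Coclass.index_le p hp2 s P hs H hu
  have h2 : b ≤ s + 1 := surj_le hP hs _ hsurj
  let L : Subgroup P := (lamHom D).ker.map H.subtype
  have hLH : L ≤ H := by
    rintro _ ⟨x, -, rfl⟩
    exact x.2
  have hL1 : L.relIndex H ≤ p ^ (s + 1) := by
    have h3 : L.relIndex H = (lamHom D).ker.index := by
      unfold Subgroup.relIndex
      congr 1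
      exact Subgroup.comap_map_eq_self_of_injective H.subtype_injective _
    rw [h3, Subgroup.index_ker]
    have : NeZero (p ^ b) := ⟨pow_ne_zero _ hp.out.ne_zero⟩
    calc Nat.card (lamHom D).range ≤ Nat.card (Multiplicative (ZMod (p ^ b))) :=
          Nat.card_le_card_of_injective _ Subtype.val_injective
      _ = p ^ b := by
          change Nat.card (ZMod (p ^ b)) = p ^ b
          rw [Nat.card_zmod]
      _ ≤ p ^ (s + 1) := Nat.pow_le_pow_right hp.out.pos h2
  have hL2 : L.index ≤ p ^ (3 * s + 2) := by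
    rw [← Subgroup.relIndex_mul_index hLH]
    calc L.relIndex H * H.index ≤ p ^ (s + 1) * p ^ (2 * s + 1) := Nat.mul_le_mul hL1 h1
      _ = p ^ (3 * s + 2) := by rw [← pow_add]; congr 1; ring
  -- elements of `L` fix `v0`
  have hLfix : ∀ g ∈ L, ρ g v0 = v0 := by
    rintro _ ⟨y, hy, rfl⟩
    have hy1 : lamHom D y = 1 := hy
    rw [lamHom_apply] at hy1
    have hy2 : lam y = 0 := hy1
    have h3 := hact _ y.2
    rw [hy2, ZMod.val_zero, pow_zero, map_one, Module.End.one_apply] at h3
    exact h3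
  refine ⟨L, hL2, ?_, ?_⟩
  · rw [eq_bot_iff]
    intro g hg
    rw [Subgroup.mem_bot]
    apply h.faithful
    have h4 : ∀ x : P, ρ g (ρ x v0) = ρ x v0 := by
      intro x
      have h5 : x⁻¹ * g * x ∈ L := by
        have := hg x⁻¹
        rwa [inv_inv] at this
      have h6 := hLfix _ h5
      have h7 : ρ (g * x) v0 = ρ (x * (x⁻¹ * g * x)) v0 := by
        congr 2
        group
      rw [← Module.End.mul_apply, ← map_mul, h7, map_mul, Module.End.mul_apply, h6]
    have h8 : ∀ w ∈ Submodule.span ℤ_[p] {w | ∃ g, w = ρ g v0}, ρ g w = w := by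
      intro w hw
      induction hw using Submodule.span_induction with
      | mem w hw =>
        obtain ⟨x, rfl⟩ := hw
        exact h4 x
      | zero => rw [map_zero]
      | add a b _ _ ha hb => rw [map_add, ha, hb]
      | smul c a _ ha => rw [map_smul, ha]
    intro x
    have h3 := h8 _ (hF x)
    rw [map_smul, ← sub_eq_zero, ← smul_sub] at h3
    have h4 := pow_p_smul_eq_zero h.torsionFree h3
    rw [sub_eq_zero] at h4
    exact h4
  · -- the rank
    let f : P ⧸ L → M := Quotient.lift (fun g : P => ρ g v0) (by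
      intro a c hac
      have h3 : a⁻¹ * c ∈ L := QuotientGroup.leftRel_apply.1 hac
      have h4 : c = a * (a⁻¹ * c) := by group
      change ρ a v0 = ρ c v0
      rw [h4, map_mul, Module.End.mul_apply, hLfix _ h3])
    have hf : ∀ g : P, f (g : P ⧸ L) = ρ g v0 := fun g => rfl
    let S : Submodule ℤ_[p] M := Submodule.span ℤ_[p] (Set.range f)
    have hS : ∀ v, (p : ℤ_[p]) ^ N' • v ∈ S := by
      intro v
      refine Submodule.span_mono ?_ (hF v)
      rintro _ ⟨g, rfl⟩
      exact ⟨(g : P ⧸ L), hf g⟩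
    have : Fintype (P ⧸ L) := Fintype.ofFinite _
    have h6 : Module.finrank ℤ_[p] S ≤ Fintype.card (P ⧸ L) := finrank_range_le_card f
    have h7 : Module.finrank ℤ_[p] M ≤ Module.finrank ℤ_[p] S := by
      let e : M →ₗ[ℤ_[p]] S :=
        LinearMap.codRestrict S (((p : ℤ_[p]) ^ N') • LinearMap.id) (fun v => hS v)
      apply LinearMap.finrank_le_finrank_of_injective (f := e)
      rw [← LinearMap.ker_eq_bot, LinearMap.ker_eq_bot']
      intro v hv
      exact pow_p_smul_eq_zero h.torsionFree (congrArg Subtype.val hv)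
    rw [Subgroup.index_eq_card, Nat.card_eq_fintype_card]
    exact h7.trans h6

open Nat in
/-- **Bounds.** Let `p` be odd and let `R` be a `p`-adic space group of finite coclass whose point
group has coclass `s`. The dimension of `R` is at most `p ^ (3 * s + 2)` and the order of the point
group divides the factorial of `p ^ (3 * s + 2)`. -/
theorem bounds (p : ℕ) [hp : Fact p.Prime] (hp2 : p ≠ 2) (s : ℕ) (R : Type) [Group R]
    [TopologicalSpace R] [IsTopologicalGroup R] (T : Subgroup R) [T.Normal] (d : ℕ)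
    (h : IsSpaceGroup p R T d) (hc : FiniteCoclass p R) (hs : HasCoclass p (R ⧸ T) s) :
    d ≤ p ^ (3 * s + 2) ∧ Nat.card (R ⧸ T) ∣ (p ^ (3 * s + 2))! := by
  have hfin := h.finite_quotient
  obtain ⟨M, _, _, _, _, hM, hd⟩ := Pool.Agent.Helper56.Coclass.I1 p R T d h hc
  obtain ⟨L, hL, hcore, hrank⟩ := exists_subgroup p hp2 s (R ⧸ T) hs M hM
  refine ⟨hd ▸ hrank.trans hL, ?_⟩
  have hker : Function.Injective (MulAction.toPermHom (R ⧸ T) ((R ⧸ T) ⧸ L)) := by
    rw [← MonoidHom.ker_eq_bot_iff, ← Subgroup.normalCore_eq_ker, hcore]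
  have h7 : Nat.card (R ⧸ T) ∣ Nat.card (Equiv.Perm ((R ⧸ T) ⧸ L)) :=
    Subgroup.card_dvd_of_injective _ hker
  rw [Nat.card_perm] at h7
  exact h7.trans (Nat.factorial_dvd_factorial hL)

/-- A `p`-adic space group of finite coclass with a point group of coclass `s`, bundled. -/
structure Bundle (p : ℕ) [Fact p.Prime] (s : ℕ) where
  R : Type
  [group : Group R]
  [top : TopologicalSpace R]
  [topGroup : IsTopologicalGroup R]
  T : Subgroup R
  [normal : T.Normal]
  d : ℕ
  space : IsSpaceGroup p R T d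
  finCoclass : FiniteCoclass p R
  coclass : HasCoclass p (R ⧸ T) s

attribute [instance] Bundle.group Bundle.top Bundle.topGroup Bundle.normal

theorem exists_list (p : ℕ) [hp : Fact p.Prime] (hp2 : p ≠ 2) (s : ℕ) :
    ∃ F : Finset (Bundle p s), ∀ X : Bundle p s, ∃ Y ∈ F, Nonempty (X.R ≃ₜ* Y.R) := by
  classical
  by_contra hcon
  push Not at hcon
  -- a sequence of pairwise non-isomorphic groups
  obtain ⟨f, -, hf⟩ := exists_seq_of_forall_finset_exists (fun _ : Bundle p s => True)
    (fun X Y => IsEmpty (Y.R ≃ₜ* X.R)) (by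
      intro F _
      obtain ⟨Y, hY⟩ := hcon F
      exact ⟨Y, trivial, fun X hX => hY X hX⟩)
  have hb : ∀ n, (f n).d ≤ p ^ (3 * s + 2) ∧
      Nat.card ((f n).R ⧸ (f n).T) ∣ Nat.factorial (p ^ (3 * s + 2)) := fun n =>
    bounds p hp2 s (f n).R (f n).T (f n).d (f n).space (f n).finCoclass (f n).coclass
  obtain ⟨i, j, hij, ⟨e⟩⟩ := Pool.Agent.Helper94.CoclassI4.I4 p
    (Nat.factorial (p ^ (3 * s + 2))) (fun n => (f n).R) (fun n => (f n).T) (fun n => (f n).d)
    (fun n => (f n).space) (fun n => Nat.le_of_dvd (Nat.factorial_pos _) (hb n).2)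
    (fun n => (hb n).1.trans (Nat.self_le_factorial _))
  exact (hf i j hij).elim e.symm

/-- **The finiteness theorem.** -/
theorem finiteness (p : ℕ) [hp : Fact p.Prime] (hp2 : p ≠ 2) (s : ℕ) :
    ∃ (n : ℕ) (F : Fin n → Type) (_ : ∀ i, Group (F i)) (_ : ∀ i, TopologicalSpace (F i)),
      ∀ (R : Type) [Group R] [TopologicalSpace R] [IsTopologicalGroup R] (T : Subgroup R)
        [T.Normal] (d : ℕ), IsSpaceGroup p R T d → FiniteCoclass p R → HasCoclass p (R ⧸ T) s →
        ∃ i, Nonempty (R ≃ₜ* F i) := by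
  obtain ⟨F, hF⟩ := exists_list p hp2 s
  refine ⟨F.card, fun i => (F.equivFin.symm i).1.R, fun i => (F.equivFin.symm i).1.group,
    fun i => (F.equivFin.symm i).1.top, ?_⟩
  intro R _ _ _ T _ d h hc hs
  obtain ⟨Y, hY, ⟨e⟩⟩ := hF ⟨R, T, d, h, hc, hs⟩
  obtain ⟨i, hi⟩ := F.equivFin.symm.surjective ⟨Y, hY⟩
  have hi' : (F.equivFin.symm i).1 = Y := by rw [hi]
  subst hi'
  exact ⟨i, ⟨e⟩⟩

end Pool.Agent.Helper11.Coclass
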