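import Pool.Agent.Helper11.Coclass.NFam

/-!
# Chains of normal subgroups with periodic power structure: weights and symbols
-/

namespace Pool.Agent.Helper11.Coclass

open Finset
open scoped commutatorElement

universe u

/-- A descending chain of normal subgroups with factors of order `p`, on which the `p`-th power
map shifts by `δ`. -/
structure GChain (p δ : ℕ) (S : Type u) [Group S] where
  N : ℕ → Subgroup S
  normal : ∀ b, (N b).Normal
  anti : ∀ b, N (b + 1) ≤ N b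
  lc : ℕ → S → ZMod p
  lc_mul : ∀ b, ∀ u ∈ N b, ∀ v ∈ N b, lc b (u * v) = lc b u + lc b v
  lc_ker : ∀ b, ∀ u ∈ N b, (lc b u = 0 ↔ u ∈ N (b + 1))
  lc_surj : ∀ b, ∃ u ∈ N b, lc b u = 1
  φ : ℕ → S → ZMod p
  unip : ∀ b, ∀ u ∈ N b, ∀ g : S, ⁅g, u⁆ ∈ N (b + 1) ∧ lc (b + 1) ⁅g, u⁆ = φ b g * lc b u
  φ_ne : ∀ b, ∃ g, φ b g ≠ 0
  φ_per : ∀ b, φ (b + δ) = φ b
  ppow : ∀ b, ∀ u ∈ N b, u ^ p ∈ N (b + δ) ∧ lc (b + δ) (u ^ p) = lc b u
  abel : ∀ b c, ∀ u ∈ N b, ∀ v ∈ N c, ⁅u, v⁆ ∈ N (b + c)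
  fin : ∀ b, Finite (S ⧸ N b)
  δ_pos : 0 < δ

/-- `δ`-periodic functions. -/
def Per (p δ : ℕ) (s : ℕ → ZMod p) : Prop := ∀ b, s (b + δ) = s b

lemma Per.add_mul {p δ : ℕ} {s : ℕ → ZMod p} (h : Per p δ s) (b k : ℕ) : s (b + k * δ) = s b := by
  induction k with
  | zero => simp
  | succ k ih =>
    have : b + (k + 1) * δ = b + k * δ + δ := by ring
    rw [this, h, ih]

lemma Per.eq_of_eventually {p δ : ℕ} (hδ : 0 < δ) {s t : ℕ → ZMod p} (hs : Per p δ s)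
    (ht : Per p δ t) {B : ℕ} (h : ∀ b, B ≤ b → s b = t b) : s = t := by
  funext b
  rw [← hs.add_mul b B, ← ht.add_mul b B]
  exact h _ (by nlinarith)

lemma Per.add {p δ : ℕ} {s t : ℕ → ZMod p} (hs : Per p δ s) (ht : Per p δ t) :
    Per p δ (s + t) := fun b => by rw [Pi.add_apply, Pi.add_apply, hs, ht]

lemma Per.zero {p δ : ℕ} : Per p δ 0 := fun _ => rfl

lemma Per.smul {p δ : ℕ} {s : ℕ → ZMod p} (hs : Per p δ s) (c : ZMod p) :
    Per p δ (c • s) := fun b => by rw [Pi.smul_apply, Pi.smul_apply, hs]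

namespace FMod

variable {p δ lo m : ℕ} {S : Type*} [Group S] {A : Type*} [AddCommGroup A]
  {M : FMod p δ lo m S A}

lemma Sy.periodic {w : ℕ} {y : S} {s : ℕ → ZMod p} (h : M.Sy w y s) {b : ℕ} (hb : lo < b)
    (hm : b + w + δ < m) {a : A} (ha : a ∈ M.F b) (hlc : M.lc b a = 1) : s (b + δ) = s b := by
  obtain ⟨h1, h2⟩ := h b hb.le a ha
  obtain ⟨h3, h4⟩ := M.pmul b hb a ha
  obtain ⟨h5, h6⟩ := h (b + δ) (by omega) _ h3
  obtain ⟨h7, h8⟩ := M.pmul (b + w) (by omega) _ h1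
  have e : b + δ + w = b + w + δ := by omega
  rw [e] at h5 h6
  have h9 := h6 hm
  rw [h4 (by omega), hlc, mul_one, map_nsmul, ← nsmul_sub, h8 hm, h2 (by omega), hlc, mul_one] at h9
  exact h9.symm

end FMod

namespace GChain

variable {p δ : ℕ} {S : Type u} [Group S] (C : GChain p δ S)

lemma anti' {b c : ℕ} (h : b ≤ c) : C.N c ≤ C.N b := by
  induction c, h using Nat.le_induction with
  | base => exact le_rfl
  | succ c _ ih => exact (C.anti c).trans ih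

lemma lc_one {b : ℕ} : C.lc b 1 = 0 := by
  rw [C.lc_ker b 1 (one_mem _)]
  exact one_mem _

lemma lc_congr {b : ℕ} {u v : S} (hu : u ∈ C.N b) (hv : v ∈ C.N b)
    (h : u⁻¹ * v ∈ C.N (b + 1)) : C.lc b u = C.lc b v := by
  have h1 := C.lc_mul b u hu (u⁻¹ * v) (C.anti b h)
  rw [mul_inv_cancel_left, (C.lc_ker b _ (C.anti b h)).2 h, add_zero] at h1
  exact h1.symm

lemma lc_inv {b : ℕ} {u : S} (hu : u ∈ C.N b) : C.lc b u⁻¹ = - C.lc b u := by
  have h := C.lc_mul b u hu u⁻¹ (inv_mem hu)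
  rw [mul_inv_cancel, lc_one] at h
  exact eq_neg_of_add_eq_zero_right h.symm

lemma lc_pow {b : ℕ} {u : S} (hu : u ∈ C.N b) (k : ℕ) : C.lc b (u ^ k) = k * C.lc b u := by
  induction k with
  | zero => simp [lc_one]
  | succ k ih =>
    rw [pow_succ, C.lc_mul b _ (pow_mem hu k) _ hu, ih]
    push_cast
    ring

lemma lc_conj {b : ℕ} {u : S} (hu : u ∈ C.N b) (g : S) : C.lc b (g * u * g⁻¹) = C.lc b u := by
  have h1 : g * u * g⁻¹ = ⁅g, u⁆ * u := by rw [commutatorElement_def]; group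
  have h2 := (C.unip b u hu g).1
  rw [h1, C.lc_mul b _ (C.anti b h2) _ hu, (C.lc_ker b _ (C.anti b h2)).2 h2, zero_add]

lemma φ_mul (b : ℕ) (g h : S) : C.φ b (g * h) = C.φ b g + C.φ b h := by
  obtain ⟨u, hu, hlc⟩ := C.lc_surj b
  have h1 := (C.unip b u hu (g * h)).2
  have h2 : ⁅g * h, u⁆ = (g * ⁅h, u⁆ * g⁻¹) * ⁅g, u⁆ := by
    simp only [commutatorElement_def]; group
  have h3 := C.unip b u hu h
  have h4 := C.unip b u hu g
  have := C.normal (b + 1)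
  rw [h2, C.lc_mul _ _ (this.conj_mem _ h3.1 g) _ h4.1, C.lc_conj h3.1, h3.2, h4.2, hlc, mul_one,
    mul_one, mul_one] at h1
  rw [← h1, add_comm]

/-- The section at `B`. -/
def sec (B : ℕ) : NFam p δ B (2 * B) S where
  G b := C.N (min b (2 * B))
  normal b := C.normal _
  anti b := C.anti' (by omega)
  const b hb := by
    have : min b (2 * B) = min (2 * B) (2 * B) := by omega
    rw [this]
  lc := C.lc
  lc_mul b hb := by
    have : min b (2 * B) = b := by omega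
    rw [this]
    exact C.lc_mul b
  lc_ker b hb := by
    have h1 : min b (2 * B) = b := by omega
    have h2 : min (b + 1) (2 * B) = b + 1 := by omega
    rw [h1, h2]
    exact C.lc_ker b
  unip b hb u hu g := C.anti' (by omega) (C.unip _ u hu g).1
  ppow b hb u hu := by
    refine ⟨C.anti' (by omega) (C.ppow _ u hu).1, fun h => ?_⟩
    have h1 : min b (2 * B) = b := by omega
    rw [h1] at hu
    exact (C.ppow _ u hu).2
  abel u hu v hv := by
    have h1 : min B (2 * B) = B := by omega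
    rw [h1] at hu hv
    exact C.anti' (by omega) (C.abel B B u hu v hv)
  le := by omega

/-- `y` has eventually weight at least `w`. -/
def HasWt (w : ℕ) (y : S) : Prop := ∃ B, ∀ b, B ≤ b → ∀ u ∈ C.N b, ⁅y, u⁆ ∈ C.N (b + w)

/-- `s` is the symbol of `y` in weight `w`. -/
def IsSym (w : ℕ) (y : S) (s : ℕ → ZMod p) : Prop :=
  ∃ B, ∀ b, B ≤ b → ∀ u ∈ C.N b, ⁅y, u⁆ ∈ C.N (b + w) ∧ C.lc (b + w) ⁅y, u⁆ = s b * C.lc b u

lemma isSym_iff {w : ℕ} {y : S} {s : ℕ → ZMod p} :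
    C.IsSym w y s ↔ ∃ B₀, ∀ B, B₀ ≤ B → (C.sec B).toFMod.Sy w y s := by
  constructor
  · rintro ⟨B₀, h⟩
    refine ⟨B₀, fun B hB => ?_⟩
    rw [NFam.toFMod_Sy]
    intro b hb u hu
    change u ∈ C.N (min b (2 * B)) at hu
    change ⁅y, u⁆ ∈ C.N (min (b + w) (2 * B)) ∧ (b + w < 2 * B → C.lc (b + w) ⁅y, u⁆ = s b * C.lc b u)
    obtain ⟨h1, h2⟩ := h (min b (2 * B)) (by omega) u hu
    refine ⟨C.anti' (by omega) h1, fun hm => ?_⟩
    have h3 : min b (2 * B) = b := by omega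
    rw [h3] at h2
    exact h2
  · rintro ⟨B₀, h⟩
    refine ⟨max B₀ (w + 1), fun b hb u hu => ?_⟩
    have h1 := (NFam.toFMod_Sy _ w y s).1 (h b (by omega)) b le_rfl u
      (by
        show u ∈ C.N (min b (2 * b))
        have : min b (2 * b) = b := by omega
        rw [this]
        exact hu)
    change ⁅y, u⁆ ∈ C.N (min (b + w) (2 * b)) ∧ (b + w < 2 * b → C.lc (b + w) ⁅y, u⁆ = s b * C.lc b u) at h1
    have h2 : min (b + w) (2 * b) = b + w := by omega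
    rw [h2] at h1
    exact ⟨h1.1, h1.2 (by omega)⟩

variable {C}

lemma IsSym.hasWt {w : ℕ} {y : S} {s : ℕ → ZMod p} (h : C.IsSym w y s) : C.HasWt w y := by
  obtain ⟨B, h⟩ := h
  exact ⟨B, fun b hb u hu => (h b hb u hu).1⟩

lemma HasWt.mono {w w' : ℕ} {y : S} (h : C.HasWt w' y) (hw : w ≤ w') : C.HasWt w y := by
  obtain ⟨B, h⟩ := h
  exact ⟨B, fun b hb u hu => C.anti' (by omega) (h b hb u hu)⟩

lemma HasWt.isSym_zero {w : ℕ} {y : S} (h : C.HasWt (w + 1) y) : C.IsSym w y 0 := by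
  obtain ⟨B, h⟩ := h
  refine ⟨B, fun b hb u hu => ?_⟩
  have h1 := h b hb u hu
  rw [← add_assoc] at h1
  refine ⟨C.anti _ h1, ?_⟩
  rw [(C.lc_ker _ _ (C.anti _ h1)).2 h1]
  simp

lemma IsSym.hasWt_of_zero {w : ℕ} {y : S} (h : C.IsSym w y 0) : C.HasWt (w + 1) y := by
  obtain ⟨B, h⟩ := h
  refine ⟨B, fun b hb u hu => ?_⟩
  obtain ⟨h1, h2⟩ := h b hb u hu
  rw [Pi.zero_apply, zero_mul] at h2
  rw [← add_assoc]
  exact (C.lc_ker _ _ h1).1 h2

lemma IsSym.congr {w : ℕ} {y : S} {s t : ℕ → ZMod p} (h : C.IsSym w y s) {B : ℕ}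
    (hst : ∀ b, B ≤ b → s b = t b) : C.IsSym w y t := by
  obtain ⟨B', h⟩ := h
  refine ⟨max B B', fun b hb u hu => ?_⟩
  obtain ⟨h1, h2⟩ := h b (by omega) u hu
  exact ⟨h1, by rw [h2, hst b (by omega)]⟩

lemma IsSym.eventually_eq {w : ℕ} {y : S} {s t : ℕ → ZMod p} (h : C.IsSym w y s)
    (h' : C.IsSym w y t) : ∃ B, ∀ b, B ≤ b → s b = t b := by
  obtain ⟨B, h⟩ := h
  obtain ⟨B', h'⟩ := h'
  refine ⟨max B B', fun b hb => ?_⟩
  obtain ⟨u, hu, hlc⟩ := C.lc_surj b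
  have h1 := (h b (by omega) u hu).2
  have h2 := (h' b (by omega) u hu).2
  rw [hlc, mul_one] at h1 h2
  rw [← h1, h2]

lemma IsSym.unique {w : ℕ} {y : S} {s t : ℕ → ZMod p} (h : C.IsSym w y s)
    (h' : C.IsSym w y t) (hs : Per p δ s) (ht : Per p δ t) : s = t := by
  obtain ⟨B, hB⟩ := h.eventually_eq h'
  exact hs.eq_of_eventually C.δ_pos ht hB

lemma isSym_one (w : ℕ) : C.IsSym w 1 0 := by
  refine ⟨0, fun b _ u _ => ?_⟩
  rw [commutatorElement_one_left, lc_one]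
  exact ⟨one_mem _, by simp⟩

lemma IsSym.mul {w : ℕ} {y y' : S} {s s' : ℕ → ZMod p} (h : C.IsSym w y s)
    (h' : C.IsSym w y' s') : C.IsSym w (y * y') (s + s') := by
  rw [isSym_iff] at *
  obtain ⟨B, h⟩ := h
  obtain ⟨B', h'⟩ := h'
  exact ⟨max B B', fun b hb => (h b (by omega)).mul (h' b (by omega))⟩

lemma IsSym.bracket {v w : ℕ} {y z : S} {s t : ℕ → ZMod p} (hy : C.IsSym v y s)
    (hz : C.IsSym w z t) :
    C.IsSym (v + w) ⁅z, y⁆ (fun b => s b * t (b + v) - t b * s (b + w)) := by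
  rw [isSym_iff] at *
  obtain ⟨B, hy⟩ := hy
  obtain ⟨B', hz⟩ := hz
  exact ⟨max B B', fun b hb => (hy b (by omega)).bracket (hz b (by omega))⟩

lemma IsSym.pow_lt (hp : p.Prime) {w : ℕ} (hw : 0 < w) (hδ : (p - 1) * w < δ) {y : S}
    {s : ℕ → ZMod p} (h : C.IsSym w y s) :
    C.IsSym (p * w) (y ^ p) (fun b => ∏ i ∈ range p, s (b + i * w)) := by
  rw [isSym_iff] at *
  obtain ⟨B, h⟩ := h
  exact ⟨B, fun b hb => (h b hb).pow_lt hp hw hδ⟩

lemma IsSym.pow_gt (hp : p.Prime) {w : ℕ} (hw : 0 < w) (hδ : δ < (p - 1) * w) {y : S}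
    {s : ℕ → ZMod p} (h : C.IsSym w y s) : C.IsSym (w + δ) (y ^ p) s := by
  rw [isSym_iff] at *
  obtain ⟨B, h⟩ := h
  exact ⟨B, fun b hb => (h b hb).pow_gt hp hw hδ⟩

lemma IsSym.pow_eq (hp : p.Prime) {w : ℕ} (hw : 0 < w) (hδ : δ = (p - 1) * w) {y : S}
    {s : ℕ → ZMod p} (h : C.IsSym w y s) :
    C.IsSym (w + δ) (y ^ p) (fun b => (∏ i ∈ range p, s (b + i * w)) + s b) := by
  rw [isSym_iff] at *
  obtain ⟨B, h⟩ := h
  exact ⟨B, fun b hb => (h b hb).pow_eq hp hw hδ⟩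

lemma IsSym.eventually_per {w : ℕ} {y : S} {s : ℕ → ZMod p} (h : C.IsSym w y s) :
    ∃ B, ∀ b, B ≤ b → s (b + δ) = s b := by
  rw [isSym_iff] at h
  obtain ⟨B, h⟩ := h
  refine ⟨B + w + δ + 3, fun b hb => ?_⟩
  have h1 := h (b - 1) (by omega)
  obtain ⟨u, hu, hlc⟩ := C.lc_surj b
  have hu1 : u ∈ (C.sec (b - 1)).G (b - 1) := by
    show u ∈ C.N (min (b - 1) (2 * (b - 1)))
    exact C.anti' (by omega) hu
  have hu2 : u ∈ (C.sec (b - 1)).G b := by
    show u ∈ C.N (min b (2 * (b - 1)))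
    exact C.anti' (by omega) hu
  refine h1.periodic (by omega) (by omega) (a := (C.sec (b - 1)).cls ⟨u, hu1⟩)
    ((C.sec (b - 1)).cls_mem_F.2 hu2) ?_
  rw [← hlc]
  exact (C.sec (b - 1)).lcA_cls (by omega) (by omega) hu2

/-- A bound `w` on the weight gives a symbol in weight `w`. -/
lemma HasWt.exists_sym [hpf : Fact p.Prime] {w : ℕ} {y : S} (h : C.HasWt w y) :
    ∃ s, Per p δ s ∧ C.IsSym w y s := by
  obtain ⟨B, h⟩ := h
  choose u hu hlc using C.lc_surj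
  have h1 : C.IsSym w y (fun b => C.lc (b + w) ⁅y, u b⁆) := by
    refine ⟨B, fun b hb v hv => ⟨h b hb v hv, ?_⟩⟩
    have hN := C.normal (b + w)
    have hmul : ∀ v₁ ∈ C.N b, ∀ v₂ ∈ C.N b, C.lc (b + w) ⁅y, v₁ * v₂⁆ =
        C.lc (b + w) ⁅y, v₁⁆ + C.lc (b + w) ⁅y, v₂⁆ := by
      intro v₁ h₁ v₂ h₂
      have e : ⁅y, v₁ * v₂⁆ = ⁅y, v₁⁆ * (v₁ * ⁅y, v₂⁆ * v₁⁻¹) := by
        simp only [commutatorElement_def]; group
      rw [e, C.lc_mul _ _ (h b hb _ h₁) _ (hN.conj_mem _ (h b hb _ h₂) _),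
        C.lc_conj (h b hb _ h₂)]
    have hpow : ∀ k : ℕ, C.lc (b + w) ⁅y, u b ^ k⁆ = k * C.lc (b + w) ⁅y, u b⁆ := by
      intro k
      induction k with
      | zero => rw [pow_zero, commutatorElement_one_right, lc_one]; simp
      | succ k ih =>
        rw [pow_succ, hmul _ (pow_mem (hu b) k) _ (hu b), ih]
        push_cast
        ring
    set k := (C.lc b v).val with hk
    have hkc : ((k : ℕ) : ZMod p) = C.lc b v := ZMod.natCast_zmod_val _
    have hv1 : v * (u b ^ k)⁻¹ ∈ C.N b := mul_mem hv (inv_mem (pow_mem (hu b) k))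
    have hv2 : v * (u b ^ k)⁻¹ ∈ C.N (b + 1) := by
      rw [← C.lc_ker b _ hv1, C.lc_mul b _ hv _ (inv_mem (pow_mem (hu b) k)),
        C.lc_inv (pow_mem (hu b) k), C.lc_pow (hu b), hlc, mul_one, hkc, add_neg_cancel]
    have hv3 : v = (v * (u b ^ k)⁻¹) * u b ^ k := by group
    have hv4 : C.lc (b + w) ⁅y, v * (u b ^ k)⁻¹⁆ = 0 := by
      rw [C.lc_ker _ _ (h b hb _ hv1)]
      have := h (b + 1) (by omega) _ hv2
      rwa [add_right_comm] at this
    rw [hv3, hmul _ hv1 _ (pow_mem (hu b) k), hv4, hpow, zero_add, ← hv3, hkc, mul_comm]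
  obtain ⟨B', hB'⟩ := h1.eventually_per
  have hB2 : ∀ b, B' ≤ b → ∀ k, C.lc (b + k * δ + w) ⁅y, u (b + k * δ)⁆ =
      C.lc (b + w) ⁅y, u b⁆ := by
    intro b hb k
    induction k with
    | zero => simp
    | succ k ih =>
      have e : b + (k + 1) * δ = b + k * δ + δ := by ring
      rw [e]
      exact (hB' (b + k * δ) (by nlinarith)).trans ih
  have hδ := C.δ_pos
  refine ⟨fun b => C.lc (b + B' * δ + w) ⁅y, u (b + B' * δ)⁆, ?_, ?_⟩
  · intro b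
    show C.lc (b + δ + B' * δ + w) ⁅y, u (b + δ + B' * δ)⁆ = _
    have e : b + δ + B' * δ = b + B' * δ + δ := by ring
    rw [e]
    exact hB' (b + B' * δ) (by nlinarith)
  · refine h1.congr (B := B') fun b hb => ?_
    exact (hB2 b hb B').symm

lemma HasWt.inv {w : ℕ} {y : S} (h : C.HasWt w y) : C.HasWt w y⁻¹ := by
  obtain ⟨B, h⟩ := h
  refine ⟨B, fun b hb u hu => ?_⟩
  have hN := C.normal (b + w)
  have e : ⁅y⁻¹, u⁆ = y⁻¹ * ⁅y, u⁆⁻¹ * (y⁻¹)⁻¹ := by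
    simp only [commutatorElement_def]; group
  rw [e]
  exact hN.conj_mem _ (inv_mem (h b hb u hu)) _

lemma HasWt.mul {w : ℕ} {y y' : S} (h : C.HasWt w y) (h' : C.HasWt w y') :
    C.HasWt w (y * y') := by
  obtain ⟨B, h⟩ := h
  obtain ⟨B', h'⟩ := h'
  refine ⟨max B B', fun b hb u hu => ?_⟩
  have hN := C.normal (b + w)
  have e : ⁅y * y', u⁆ = (y * ⁅y', u⁆ * y⁻¹) * ⁅y, u⁆ := by
    simp only [commutatorElement_def]; group
  rw [e]
  exact mul_mem (hN.conj_mem _ (h' b (by omega) u hu) _) (h b (by omega) u hu)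

variable (C)

lemma isSym_φ (g : S) : C.IsSym 1 g (fun b => C.φ b g) :=
  ⟨0, fun b _ u hu => C.unip b u hu g⟩

lemma per_φ (g : S) : Per p δ (fun b => C.φ b g) := fun b => by
  show C.φ (b + δ) g = C.φ b g
  rw [C.φ_per]

end GChain

end Pool.Agent.Helper11.Coclass
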