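import Mathlib

/-!
# A perfect Lie algebra over `F_p` with a derivation `D` such that `D^(p-1) = 1` is zero

(Kreknin's argument for gradings by `ZMod p` with vanishing zero component.)
-/

namespace Pool.Agent.Helper11.Coclass

open Finset

variable {p : ℕ} [hp : Fact p.Prime] {E : Type*} [Ring E] [Algebra (ZMod p) E]

/-- The commutator with `T` as a linear map. -/
def adL (T : E) : Module.End (ZMod p) E := LinearMap.mulLeft (ZMod p) T - LinearMap.mulRight (ZMod p) T

lemma adL_apply (T x : E) : adL (p := p) T x = T * x - x * T := rfl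

lemma adL_bracket (T x y : E) : adL (p := p) T (x * y - y * x) =
    (adL (p := p) T x * y - y * adL (p := p) T x) + (x * adL (p := p) T y - adL (p := p) T y * x) := by
  simp only [adL_apply]
  noncomm_ring

/-- The eigenspaces of `ad T` in `𝔤`. -/
def eigG (𝔤 : Submodule (ZMod p) E) (T : E) (c : ZMod p) : Submodule (ZMod p) E where
  carrier := {x | x ∈ 𝔤 ∧ adL (p := p) T x = c • x}
  add_mem' := by
    rintro x y ⟨hx, hx'⟩ ⟨hy, hy'⟩
    exact ⟨𝔤.add_mem hx hy, by rw [map_add, hx', hy', smul_add]⟩
  zero_mem' := ⟨𝔤.zero_mem, by simp⟩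
  smul_mem' := by
    rintro c' x ⟨hx, hx'⟩
    exact ⟨𝔤.smul_mem _ hx, by rw [map_smul, hx', smul_comm]⟩

/-- The projection to the eigenvalue `c`. -/
def prG (T : E) (c : ZMod p) : Module.End (ZMod p) E :=
  -∑ j ∈ range (p - 1), (c⁻¹) ^ j • (adL (p := p) T) ^ j

lemma prG_apply (T : E) (c : ZMod p) (x : E) :
    prG T c x = -∑ j ∈ range (p - 1), (c⁻¹) ^ j • ((adL (p := p) T) ^ j) x := by
  simp [prG]

lemma adL_pow_eig (T : E) {c : ZMod p} {x : E} (h : adL (p := p) T x = c • x) (j : ℕ) :
    ((adL (p := p) T) ^ j) x = c ^ j • x := by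
  induction j with
  | zero => simp
  | succ j ih =>
    rw [pow_succ', Module.End.mul_apply, ih, map_smul, h, smul_smul, pow_succ]

lemma prG_eig (T : E) {c d : ZMod p} (hc : c ≠ 0) {x : E} (h : adL (p := p) T x = d • x) :
    prG T c x = if d = c then x else if d = 0 then -x else 0 := by
  have hp1 : 1 ≤ p - 1 := by have := hp.out.two_le; omega
  have h1 : prG T c x = (-∑ j ∈ range (p - 1), (c⁻¹ * d) ^ j) • x := by
    rw [prG_apply, neg_smul, Finset.sum_smul]
    congr 1
    refine Finset.sum_congr rfl fun j _ => ?_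
    rw [adL_pow_eig T h, smul_smul, mul_pow]
  rw [h1]
  split_ifs with hdc hd0
  · subst hdc
    rw [inv_mul_cancel₀ hc]
    simp only [one_pow, Finset.sum_const, Finset.card_range, nsmul_eq_mul, mul_one]
    have : ((p - 1 : ℕ) : ZMod p) = -1 := by
      rw [Nat.cast_sub hp.out.one_le]; simp
    rw [this, neg_neg, one_smul]
  · subst hd0
    rw [mul_zero]
    have : ∑ j ∈ range (p - 1), (0 : ZMod p) ^ j = 1 := by
      rw [show p - 1 = (p - 1 - 1) + 1 by omega, Finset.sum_range_succ']
      simp
    rw [this, neg_one_smul]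
  · have hne : c⁻¹ * d ≠ 1 := by
      intro h2
      apply hdc
      field_simp at h2
      exact h2
    have h3 : (∑ j ∈ range (p - 1), (c⁻¹ * d) ^ j) = 0 := by
      have h4 := geom_sum_mul (c⁻¹ * d) (p - 1)
      rw [ZMod.pow_card_sub_one_eq_one (mul_ne_zero (inv_ne_zero hc) hd0), sub_self] at h4
      exact (mul_eq_zero.1 h4).resolve_right (sub_ne_zero.2 hne)
    rw [h3, neg_zero, zero_smul]

section

variable {𝔤 : Submodule (ZMod p) E} {T : E} (hT : ∀ x ∈ 𝔤, T * x - x * T ∈ 𝔤)
  (hTp : ∀ x ∈ 𝔤, ((adL (p := p) T) ^ (p - 1)) x = x)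

include hT in
lemma adL_pow_mem {x : E} (hx : x ∈ 𝔤) (j : ℕ) : ((adL (p := p) T) ^ j) x ∈ 𝔤 := by
  induction j with
  | zero => simpa using hx
  | succ j ih => rw [pow_succ', Module.End.mul_apply]; exact hT _ ih

include hTp in
lemma eigG_zero : eigG 𝔤 T 0 = ⊥ := by
  rw [eq_bot_iff]
  rintro x ⟨hx, hx'⟩
  have h := hTp x hx
  have hp1 : p - 1 ≠ 0 := by have := hp.out.two_le; omega
  rw [adL_pow_eig T hx', zero_pow hp1, zero_smul] at h
  exact h.symm

include hT hTp in
lemma prG_mem {c : ZMod p} (hc : c ≠ 0) {x : E} (hx : x ∈ 𝔤) : prG T c x ∈ eigG 𝔤 T c := by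
  have hp1 : p - 1 = (p - 1 - 1) + 1 := by have := hp.out.two_le; omega
  refine ⟨?_, ?_⟩
  · rw [prG_apply]
    exact 𝔤.neg_mem (𝔤.sum_mem fun j _ => 𝔤.smul_mem _ (adL_pow_mem hT hx j))
  · rw [prG_apply, map_neg, smul_neg, map_sum]
    congr 1
    have h1 : ∀ j, adL (p := p) T ((c⁻¹) ^ j • ((adL (p := p) T) ^ j) x) =
        c • ((c⁻¹) ^ (j + 1) • ((adL (p := p) T) ^ (j + 1)) x) := by
      intro j
      rw [map_smul, smul_smul, pow_succ (c⁻¹), mul_comm c, mul_assoc, inv_mul_cancel₀ hc, mul_one,
        pow_succ' (adL (p := p) T), Module.End.mul_apply]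
    rw [Finset.sum_congr rfl fun j _ => h1 j, ← Finset.smul_sum]
    congr 1
    have h2 : ∑ j ∈ range (p - 1 - 1 + 1), (c⁻¹) ^ (j + 1) • ((adL (p := p) T) ^ (j + 1)) x =
        ∑ j ∈ range (p - 1 - 1 + 1), (c⁻¹) ^ j • ((adL (p := p) T) ^ j) x := by
      rw [Finset.sum_range_succ, Finset.sum_range_succ', ← hp1, hTp x hx, inv_pow,
        ZMod.pow_card_sub_one_eq_one hc, inv_one, pow_zero, pow_zero, one_smul, one_smul,
        Module.End.one_apply]
    rw [← hp1] at h2
    exact h2

include hTp in
lemma sum_prG {x : E} (hx : x ∈ 𝔤) : ∑ c ∈ univ.erase (0 : ZMod p), prG T c x = x := by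
  have hp1 : 1 ≤ p - 1 := by have := hp.out.two_le; omega
  simp only [prG_apply]
  rw [Finset.sum_neg_distrib, Finset.sum_comm]
  have h1 : ∀ j ∈ range (p - 1), ∑ c ∈ univ.erase (0 : ZMod p),
      (c⁻¹) ^ j • ((adL (p := p) T) ^ j) x = if j = 0 then -x else 0 := by
    intro j hj
    rw [← Finset.sum_smul]
    have h2 : ∑ c ∈ univ.erase (0 : ZMod p), (c⁻¹) ^ j = ∑ c : (ZMod p)ˣ, ((c : ZMod p)) ^ j := by
      symm
      refine Finset.sum_bij (fun (c : (ZMod p)ˣ) _ => ((c⁻¹ : (ZMod p)ˣ) : ZMod p)) ?_ ?_ ?_ ?_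
      · intro c _
        exact Finset.mem_erase.2 ⟨Units.ne_zero _, Finset.mem_univ _⟩
      · intro a _ b _ h
        exact inv_injective (Units.ext h)
      · intro b hb
        have hb0 : b ≠ 0 := (Finset.mem_erase.1 hb).1
        refine ⟨(Units.mk0 b hb0)⁻¹, Finset.mem_univ _, ?_⟩
        rw [inv_inv, Units.val_mk0]
      · intro c _
        rw [Units.val_inv_eq_inv_val, inv_inv]
    rw [h2, FiniteField.sum_pow_units]
    have hcard : Fintype.card (ZMod p) - 1 = p - 1 := by rw [ZMod.card]
    rw [hcard]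
    by_cases hj0 : j = 0
    · subst hj0; simp
    · have : ¬ (p - 1 ∣ j) := by
        intro hd
        exact absurd (Nat.le_of_dvd (Nat.pos_of_ne_zero hj0) hd) (by
          have := Finset.mem_range.1 hj; omega)
      rw [if_neg this, if_neg hj0, zero_smul]
  rw [Finset.sum_congr rfl h1, Finset.sum_ite_eq' ]
  rw [if_pos (Finset.mem_range.2 hp1), neg_neg]

/-- **Kreknin's argument.** -/
theorem kreknin (hbr : ∀ x ∈ 𝔤, ∀ y ∈ 𝔤, x * y - y * x ∈ 𝔤)
    (hT : ∀ x ∈ 𝔤, T * x - x * T ∈ 𝔤)
    (hTp : ∀ x ∈ 𝔤, ((adL (p := p) T) ^ (p - 1)) x = x)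
    (hperf : ∀ x ∈ 𝔤, x ∈ Submodule.span (ZMod p) {z | ∃ a ∈ 𝔤, ∃ b ∈ 𝔤, z = a * b - b * a}) :
    𝔤 = ⊥ := by
  -- the claim by induction on `k`
  have claim : ∀ k, 1 ≤ k → k ≤ p → ∀ A : Submodule (ZMod p) E,
      (∀ x ∈ A, ∀ y ∈ A, x * y - y * x ∈ A) →
      (∀ j : ℕ, k ≤ j → j < p → eigG 𝔤 T (j : ZMod p) ≤ A) → 𝔤 ≤ A := by
    intro k
    induction k with
    | zero => intro h; omega
    | succ k ih =>
      intro _ hkp A hA hAj
      rcases Nat.eq_zero_or_pos k with hk0 | hk0
      · subst hk0
        intro x hx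
        rw [← sum_prG hTp hx]
        refine A.sum_mem fun c hc => ?_
        have hc0 : c ≠ 0 := (Finset.mem_erase.1 hc).1
        have h1 := hAj c.val (by
          have : c.val ≠ 0 := by rwa [Ne, ZMod.val_eq_zero]
          omega) (ZMod.val_lt c)
        rw [ZMod.natCast_zmod_val] at h1
        exact h1 (prG_mem hT hTp hc0 hx)
      · have hkp' : k < p := by omega
        have hkne : (k : ZMod p) ≠ 0 := by
          intro h
          rw [ZMod.natCast_eq_zero_iff] at h
          exact absurd (Nat.le_of_dvd hk0 h) (by omega)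
        -- `Z`
        let Z : Submodule (ZMod p) E := Submodule.span (ZMod p)
          {z | ∃ u ∈ 𝔤, ∃ t : ℕ, k ≤ t ∧ t < p ∧ ∃ v ∈ eigG 𝔤 T (t : ZMod p), z = u * v - v * u}
        let C : Submodule (ZMod p) E :=
          { carrier := {y | y ∈ 𝔤 ∧ ∀ u ∈ 𝔤, u * y - y * u ∈ Z}
            add_mem' := by
              rintro x y ⟨hx, hx'⟩ ⟨hy, hy'⟩
              refine ⟨𝔤.add_mem hx hy, fun u hu => ?_⟩
              have h := Z.add_mem (hx' u hu) (hy' u hu)
              have h2 : u * x - x * u + (u * y - y * u) = u * (x + y) - (x + y) * u := by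
                noncomm_ring
              rwa [h2] at h
            zero_mem' := ⟨𝔤.zero_mem, fun u _ => by simp⟩
            smul_mem' := by
              rintro c x ⟨hx, hx'⟩
              refine ⟨𝔤.smul_mem _ hx, fun u hu => ?_⟩
              have h := Z.smul_mem c (hx' u hu)
              rwa [smul_sub, ← mul_smul_comm, ← smul_mul_assoc] at h }
        have hC : 𝔤 ≤ C := by
          refine ih hk0 (by omega) C ?_ ?_
          · rintro x ⟨hx, hx'⟩ y ⟨hy, hy'⟩
            refine ⟨hbr x hx y hy, fun u hu => ?_⟩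
            have h1 := hy' _ (hbr u hu x hx)
            have h2 := hx' _ (hbr u hu y hy)
            have h3 := Z.sub_mem h1 h2
            have h4 : (u * x - x * u) * y - y * (u * x - x * u) -
                ((u * y - y * u) * x - x * (u * y - y * u)) =
                u * (x * y - y * x) - (x * y - y * x) * u := by noncomm_ring
            rwa [h4] at h3
          · intro j hkj hjp x hx
            refine ⟨hx.1, fun u hu => ?_⟩
            exact Submodule.subset_span ⟨u, hu, j, hkj, hjp, x, hx, rfl⟩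
        have hZ : 𝔤 ≤ Z := by
          intro x hx
          have h1 := hperf x hx
          refine (Submodule.span_le.2 ?_) h1
          rintro _ ⟨a, ha, b, hb, rfl⟩
          exact (hC hb).2 a ha
        -- `G_k ≤ A`
        have hprZ : Z ≤ A.comap (prG T (k : ZMod p)) := by
          refine Submodule.span_le.2 ?_
          rintro _ ⟨u, hu, t, hkt, htp, v, hv, rfl⟩
          show prG T (k : ZMod p) (u * v - v * u) ∈ A
          have h1 : u * v - v * u = ∑ c ∈ univ.erase (0 : ZMod p),
              (prG T c u * v - v * prG T c u) := by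
            conv_lhs => rw [← sum_prG hTp hu]
            rw [Finset.sum_mul, Finset.mul_sum, ← Finset.sum_sub_distrib]
          rw [h1, map_sum]
          refine A.sum_mem fun c hc => ?_
          have hc0 : c ≠ 0 := (Finset.mem_erase.1 hc).1
          have hu' := prG_mem hT hTp hc0 hu
          have h2 : adL (p := p) T (prG T c u * v - v * prG T c u) =
              (c + t) • (prG T c u * v - v * prG T c u) := by
            rw [adL_bracket, hu'.2, hv.2]
            simp only [smul_mul_assoc, mul_smul_comm, add_smul, smul_sub]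
            abel
          rw [prG_eig T hkne h2]
          have hmem : prG T c u * v - v * prG T c u ∈ 𝔤 := hbr _ hu'.1 _ hv.1
          split_ifs with h3 h4
          · -- `c + t = k`
            rcases Nat.eq_or_lt_of_le hkt with h5 | h5
            · exfalso
              apply hc0
              rw [← h5] at h3
              simpa using h3
            · have h6 : ((k + p - t : ℕ) : ZMod p) = c := by
                rw [Nat.cast_sub (by omega), Nat.cast_add, ZMod.natCast_self, add_zero, ← h3]
                ring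
              have h7 := hAj (k + p - t) (by omega) (by omega)
              rw [h6] at h7
              exact hA _ (h7 hu') _ (hAj t (by omega) htp hv)
          · -- `c + t = 0`: the bracket is zero
            rw [h4] at h2
            have h8 : prG T c u * v - v * prG T c u ∈ eigG 𝔤 T 0 := ⟨hmem, h2⟩
            rw [eigG_zero hTp] at h8
            rw [(Submodule.mem_bot _).1 h8, neg_zero]
            exact A.zero_mem
          · exact A.zero_mem
        refine ih hk0 (by omega) A hA fun j hkj hjp => ?_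
        rcases Nat.eq_or_lt_of_le hkj with h5 | h5
        · intro x hx
          rw [← h5] at hx
          have h6 := hprZ (hZ hx.1)
          have h7 : prG T (k : ZMod p) x = x := by
            rw [prG_eig T hkne hx.2, if_pos rfl]
          rw [Submodule.mem_comap, h7] at h6
          exact h6
        · exact hAj j h5 hjp
  exact eq_bot_iff.2 (claim p hp.out.one_le le_rfl ⊥ (by
    rintro x hx y hy
    rw [(Submodule.mem_bot _).1 hx]
    simp) fun j hj hjp => by omega)

end

end Pool.Agent.Helper11.Coclass
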