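import Pool.Agent.Helper11.Coclass.FMod

/-!
# Abelian sections of a group as filtered modules
-/

namespace Pool.Agent.Helper11.Coclass

open Finset
open scoped commutatorElement

universe u

/-- A descending family of normal subgroups with an abelian section `G lo / G m`. -/
structure NFam (p δ lo m : ℕ) (S : Type u) [Group S] where
  G : ℕ → Subgroup S
  normal : ∀ b, (G b).Normal
  anti : ∀ b, G (b + 1) ≤ G b
  const : ∀ b, m ≤ b → G b = G m
  lc : ℕ → S → ZMod p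
  lc_mul : ∀ b, b < m → ∀ u ∈ G b, ∀ v ∈ G b, lc b (u * v) = lc b u + lc b v
  lc_ker : ∀ b, b < m → ∀ u ∈ G b, (lc b u = 0 ↔ u ∈ G (b + 1))
  unip : ∀ b, lo ≤ b → ∀ u ∈ G b, ∀ g : S, ⁅g, u⁆ ∈ G (b + 1)
  ppow : ∀ b, lo < b → ∀ u ∈ G b, u ^ p ∈ G (b + δ) ∧
    (b + δ < m → lc (b + δ) (u ^ p) = lc b u)
  abel : ∀ u ∈ G lo, ∀ v ∈ G lo, ⁅u, v⁆ ∈ G m
  le : lo ≤ m

namespace NFam

variable {p δ lo m : ℕ} {S : Type u} [Group S] (N : NFam p δ lo m S)

/-- weight and symbol at the level of groups. -/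
def Sy (w : ℕ) (y : S) (s : ℕ → ZMod p) : Prop :=
  ∀ b, lo ≤ b → ∀ u ∈ N.G b, ⁅y, u⁆ ∈ N.G (b + w) ∧
    (b + w < m → N.lc (b + w) ⁅y, u⁆ = s b * N.lc b u)

lemma anti' {b c : ℕ} (h : b ≤ c) : N.G c ≤ N.G b := by
  induction c, h using Nat.le_induction with
  | base => exact le_rfl
  | succ c _ ih => exact (N.anti c).trans ih

lemma bot_le (c : ℕ) : N.G m ≤ N.G c := by
  rcases le_total c m with h | h
  · exact N.anti' h
  · rw [N.const c h]

/-- The kernel of the section. -/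
def ker : Subgroup (N.G lo) := (N.G m).subgroupOf (N.G lo)

instance : N.ker.Normal := by
  have := N.normal m
  exact inferInstanceAs ((N.G m).subgroupOf (N.G lo)).Normal

/-- The section. -/
abbrev Q : Type u := (N.G lo) ⧸ N.ker

lemma Q_comm (a b : N.Q) : a * b = b * a := by
  induction a using QuotientGroup.induction_on with
  | H x =>
    induction b using QuotientGroup.induction_on with
    | H y =>
      rw [← QuotientGroup.mk_mul, ← QuotientGroup.mk_mul]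
      rw [QuotientGroup.eq]
      show ((x * y)⁻¹ * (y * x) : N.G lo) ∈ (N.G m).subgroupOf (N.G lo)
      rw [Subgroup.mem_subgroupOf]
      have h := N.abel (y⁻¹ : N.G lo) (y⁻¹ : N.G lo).2 (x⁻¹ : N.G lo) (x⁻¹ : N.G lo).2
      rw [commutatorElement_def] at h
      simpa [mul_assoc] using h

instance : CommGroup N.Q := { (inferInstance : Group N.Q) with mul_comm := N.Q_comm }

/-- The class of an element. -/
def cls (u : N.G lo) : Additive N.Q := Additive.ofMul (QuotientGroup.mk u : N.Q)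

lemma cls_mul (u v : N.G lo) : N.cls (u * v) = N.cls u + N.cls v := rfl

lemma cls_inv (u : N.G lo) : N.cls u⁻¹ = - N.cls u := rfl

lemma cls_surj (a : Additive N.Q) : ∃ u, N.cls u = a := by
  obtain ⟨u, hu⟩ := QuotientGroup.mk_surjective (Additive.toMul a)
  exact ⟨u, hu⟩

lemma cls_eq {u v : N.G lo} (h : N.cls u = N.cls v) : (u : S)⁻¹ * v ∈ N.G m := by
  have h1 : (QuotientGroup.mk u : N.Q) = QuotientGroup.mk v := Additive.ofMul.injective h
  rw [QuotientGroup.eq] at h1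
  exact h1

lemma cls_eq_of {u v : N.G lo} (h : (u : S)⁻¹ * v ∈ N.G m) : N.cls u = N.cls v := by
  have h1 : (QuotientGroup.mk u : N.Q) = QuotientGroup.mk v := by
    rw [QuotientGroup.eq]
    exact h
  exact congrArg Additive.ofMul h1

lemma cls_pow (u : N.G lo) (n : ℕ) : N.cls (u ^ n) = n • N.cls u := rfl

/-- conjugation on `G lo` -/
def cj (g : S) : N.G lo →* N.G lo :=
  haveI := N.normal lo
  (MulAut.conjNormal g : MulAut (N.G lo)).toMonoidHom

lemma cj_val (g : S) (u : N.G lo) : ((N.cj g u : N.G lo) : S) = g * u * g⁻¹ := by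
  have := N.normal lo
  exact MulAut.conjNormal_apply g u

lemma ker_le_comap (g : S) : N.ker ≤ N.ker.comap (N.cj g) := by
  intro u hu
  have := N.normal m
  show ((N.cj g u : N.G lo) : S) ∈ N.G m
  rw [cj_val]
  exact this.conj_mem _ hu g

/-- The action on the section. -/
def ρ : S →* AddMonoid.End (Additive N.Q) where
  toFun g := MonoidHom.toAdditive (QuotientGroup.map N.ker N.ker (N.cj g) (N.ker_le_comap g))
  map_one' := by
    refine AddMonoidHom.ext fun a => ?_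
    obtain ⟨u, rfl⟩ := N.cls_surj a
    show N.cls (N.cj 1 u) = N.cls u
    congr 1
    exact Subtype.ext (by rw [cj_val]; simp)
  map_mul' g g' := by
    refine AddMonoidHom.ext fun a => ?_
    obtain ⟨u, rfl⟩ := N.cls_surj a
    show N.cls (N.cj (g * g') u) = N.cls (N.cj g (N.cj g' u))
    congr 1
    exact Subtype.ext (by rw [cj_val, cj_val, cj_val]; group)

lemma ρ_cls (g : S) (u : N.G lo) : N.ρ g (N.cls u) = N.cls (N.cj g u) := rfl

lemma comm_mem {b : ℕ} (hb : lo ≤ b) (g : S) {u : S} (hu : u ∈ N.G b) : ⁅g, u⁆ ∈ N.G lo :=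
  N.anti' (by omega) (N.unip b hb u hu g)

lemma ρ_sub (g : S) (u : N.G lo) :
    N.ρ g (N.cls u) - N.cls u = N.cls ⟨⁅g, (u : S)⁆, N.comm_mem le_rfl g u.2⟩ := by
  rw [ρ_cls, sub_eq_add_neg, ← cls_inv, ← cls_mul]
  have h : N.cj g u * u⁻¹ = ⟨⁅g, (u : S)⁆, N.comm_mem le_rfl g u.2⟩ :=
    Subtype.ext (by
      rw [Subgroup.coe_mul, cj_val, Subgroup.coe_inv]
      rfl)
  rw [h]

/-- The filtration. -/
def F (b : ℕ) : AddSubgroup (Additive N.Q) :=
  Subgroup.toAddSubgroup (((N.G b).subgroupOf (N.G lo)).map (QuotientGroup.mk' N.ker))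

lemma mem_F {b : ℕ} {a : Additive N.Q} :
    a ∈ N.F b ↔ ∃ u : N.G lo, (u : S) ∈ N.G b ∧ N.cls u = a := by
  constructor
  · rintro ⟨u, hu, h⟩
    exact ⟨u, hu, h⟩
  · rintro ⟨u, hu, h⟩
    exact ⟨u, hu, h⟩

lemma cls_mem_F {b : ℕ} {u : N.G lo} : N.cls u ∈ N.F b ↔ (u : S) ∈ N.G b := by
  rw [mem_F]
  constructor
  · rintro ⟨v, hv, h⟩
    have h1 := N.bot_le b (N.cls_eq h)
    have h2 := mul_mem hv h1
    rwa [mul_inv_cancel_left] at h2
  · intro h
    exact ⟨u, h, rfl⟩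

lemma lc_one {b : ℕ} (hb : b < m) : N.lc b 1 = 0 := by
  rw [N.lc_ker b hb 1 (one_mem _)]
  exact one_mem _

lemma lc_congr {b : ℕ} (hb : b < m) {u v : S} (hu : u ∈ N.G b) (hv : v ∈ N.G b)
    (h : u⁻¹ * v ∈ N.G (b + 1)) : N.lc b u = N.lc b v := by
  have h1 := N.lc_mul b hb u hu (u⁻¹ * v) (N.anti b h)
  rw [mul_inv_cancel_left, (N.lc_ker b hb _ (N.anti b h)).2 h, add_zero] at h1
  exact h1.symm

open Classical in
/-- The leading coefficients on the section. -/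
noncomputable def lcA (b : ℕ) (a : Additive N.Q) : ZMod p :=
  if h : lo ≤ b ∧ b < m ∧ ∃ u : N.G lo, (u : S) ∈ N.G b ∧ N.cls u = a then
    N.lc b (h.2.2.choose : N.G lo) else 0

lemma lcA_cls {b : ℕ} (hb : lo ≤ b) (hm : b < m) {u : N.G lo} (hu : (u : S) ∈ N.G b) :
    N.lcA b (N.cls u) = N.lc b u := by
  have h : lo ≤ b ∧ b < m ∧ ∃ v : N.G lo, (v : S) ∈ N.G b ∧ N.cls v = N.cls u :=
    ⟨hb, hm, u, hu, rfl⟩
  rw [lcA, dif_pos h]
  have h1 := h.2.2.choose_spec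
  refine N.lc_congr hm h1.1 hu ?_
  exact N.bot_le _ (N.cls_eq h1.2)

lemma lcA_of_lt {b : ℕ} (hb : b < lo) (a : Additive N.Q) : N.lcA b a = 0 := by
  rw [lcA, dif_neg]
  rintro ⟨h, -⟩
  omega

lemma lcA_of_ge {b : ℕ} (hb : m ≤ b) (a : Additive N.Q) : N.lcA b a = 0 := by
  rw [lcA, dif_neg]
  rintro ⟨-, h, -⟩
  omega

/-- The filtered module of the section. -/
noncomputable def toFMod : FMod p δ lo m S (Additive N.Q) where
  ρ := N.ρ
  F := N.F
  anti b := by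
    intro a ha
    obtain ⟨u, hu, rfl⟩ := N.mem_F.1 ha
    exact N.cls_mem_F.2 (N.anti b hu)
  lc := N.lcA
  lc_add b a ha a' ha' := by
    obtain ⟨u, hu, rfl⟩ := N.mem_F.1 ha
    obtain ⟨v, hv, rfl⟩ := N.mem_F.1 ha'
    rcases lt_or_ge b lo with h | h
    · rw [N.lcA_of_lt h, N.lcA_of_lt h, N.lcA_of_lt h, add_zero]
    rcases lt_or_ge b m with h2 | h2
    · rw [← cls_mul, N.lcA_cls h h2 hu, N.lcA_cls h h2 hv, N.lcA_cls h h2 (mul_mem hu hv)]
      exact N.lc_mul b h2 _ hu _ hv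
    · rw [N.lcA_of_ge h2, N.lcA_of_ge h2, N.lcA_of_ge h2, add_zero]
  lc_ker b hb a ha := by
    obtain ⟨u, hu, rfl⟩ := N.mem_F.1 ha
    rcases lt_or_ge b lo with h | h
    · rw [N.lcA_of_lt h]
      refine iff_of_true rfl (N.cls_mem_F.2 ?_)
      exact N.anti' (by omega) u.2
    · rw [N.lcA_cls h hb hu, N.cls_mem_F]
      exact N.lc_ker b hb _ hu
  unip g b hb a ha := by
    obtain ⟨u, hu, rfl⟩ := N.mem_F.1 ha
    rw [ρ_sub, cls_mem_F]
    exact N.unip b hb _ hu g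
  pmul b hb a ha := by
    obtain ⟨u, hu, rfl⟩ := N.mem_F.1 ha
    obtain ⟨h1, h2⟩ := N.ppow b hb _ hu
    rw [← cls_pow, cls_mem_F]
    refine ⟨h1, fun h3 => ?_⟩
    rw [N.lcA_cls (by omega) h3 h1, N.lcA_cls (by omega) (by omega) hu]
    exact h2 h3

lemma toFMod_Sy (w : ℕ) (y : S) (s : ℕ → ZMod p) : N.toFMod.Sy w y s ↔ N.Sy w y s := by
  constructor
  · intro h b hb u hu
    have hu' : u ∈ N.G lo := N.anti' hb hu
    have h1 := h b hb (N.cls ⟨u, hu'⟩) (N.cls_mem_F.2 hu)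
    change N.ρ y (N.cls ⟨u, hu'⟩) - N.cls ⟨u, hu'⟩ ∈ N.F (b + w) ∧
      (b + w < m → N.lcA (b + w) (N.ρ y (N.cls ⟨u, hu'⟩) - N.cls ⟨u, hu'⟩) =
        s b * N.lcA b (N.cls ⟨u, hu'⟩)) at h1
    rw [ρ_sub, cls_mem_F] at h1
    refine ⟨h1.1, fun hm => ?_⟩
    have h2 := h1.2 hm
    rw [N.lcA_cls (by omega) hm h1.1, N.lcA_cls hb (by omega) hu] at h2
    exact h2
  · intro h b hb a ha
    obtain ⟨u, hu, rfl⟩ := N.mem_F.1 ha
    change N.ρ y (N.cls u) - N.cls u ∈ N.F (b + w) ∧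
      (b + w < m → N.lcA (b + w) (N.ρ y (N.cls u) - N.cls u) =
        s b * N.lcA b (N.cls u))
    obtain ⟨h1, h2⟩ := h b hb u hu
    rw [ρ_sub, cls_mem_F]
    refine ⟨h1, fun hm => ?_⟩
    rw [N.lcA_cls (by omega) hm h1, N.lcA_cls hb (by omega) hu]
    exact h2 hm

end NFam

end Pool.Agent.Helper11.Coclass
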