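import Pool.Agent.Helper11.Coclass.Rows2

/-!
# The non-tie case: no rows
-/

namespace Pool.Agent.Helper11.Coclass

open Finset
open scoped commutatorElement

universe u

namespace GChain

variable {p δ : ℕ} [hpf : Fact p.Prime] {S : Type u} [Group S] (C : GChain p δ S)

lemma φ_add_mul (b k : ℕ) : C.φ (b + k * δ) = C.φ b := by
  induction k with
  | zero => simp
  | succ k ih =>
    have : b + (k + 1) * δ = b + k * δ + δ := by ring
    rw [this, C.φ_per, ih]

lemma exists_gen : ∃ g : ℕ → S, ∀ b, ∃ i < δ, C.φ b (g i) ≠ 0 := by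
  choose g hg using C.φ_ne
  refine ⟨g, fun b => ⟨b % δ, Nat.mod_lt _ C.δ_pos, ?_⟩⟩
  have h : b = b % δ + (b / δ) * δ := by rw [Nat.mod_add_div']
  have h2 : C.φ b = C.φ (b % δ) := by
    conv_lhs => rw [h]
    exact C.φ_add_mul _ _
  rw [h2]
  exact hg _

/-- The generic element. -/
noncomputable def gen (n : ℕ) (g : ℕ → S) : ℕ → RatFunc (ZMod p) :=
  genSym n (fun i b => C.φ b (g i))

lemma gen_apply (n : ℕ) (g : ℕ → S) (b : ℕ) : C.gen n g b =
    ∑ i ∈ range n, algebraMap (Polynomial (ZMod p)) (RatFunc (ZMod p)) (Polynomial.X ^ i) *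
      algebraMap (ZMod p) (RatFunc (ZMod p)) (C.φ b (g i)) := by
  rw [gen, genSym_eq, Finset.sum_apply]
  rfl

lemma gen_mem (n : ℕ) (g : ℕ → S) :
    C.gen n g ∈ (C.symSys hpf.out).Lk (RatFunc (ZMod p)) 1 :=
  genSym_mem _ 1 n fun i _ => C.φ_mem_LL (g i)

lemma gen_per (n : ℕ) (g : ℕ → S) (b : ℕ) : C.gen n g (b + δ) = C.gen n g b := by
  rw [gen_apply, gen_apply, C.φ_per]

lemma gen_per_mul (n : ℕ) (g : ℕ → S) (b k : ℕ) : C.gen n g (b + k * δ) = C.gen n g b := by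
  rw [gen_apply, gen_apply, C.φ_add_mul]

/-- The generic power. -/
lemma genPow_mem (n : ℕ) (g : ℕ → S) (a : ℕ) (ha : ∀ i < a, (p - 1) * p ^ i < δ) :
    (fun b => ∏ i ∈ range (p ^ a), C.gen n g (b + i)) ∈
      (C.symSys hpf.out).Lk (RatFunc (ZMod p)) (p ^ a) := by
  have h := (C.symSys hpf.out).symPow_mem (C.gen_mem n g) a
    (fun i hi => ⟨pow_pos hpf.out.pos _, ha i hi⟩)
  have e : symPow (fun b : ℕ => b + 1) 1 (p ^ a) (C.gen n g) =
      fun b => ∏ i ∈ range (p ^ a), C.gen n g (b + i) := by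
    funext b
    rw [symPow]
    simp only [sig_iter, mul_one]
  rw [e] at h
  exact h

lemma Lk_mono {w w' : ℕ} (h : C.LL w ≤ C.LL w') :
    (C.symSys hpf.out).Lk (RatFunc (ZMod p)) w ≤ (C.symSys hpf.out).Lk (RatFunc (ZMod p)) w' := by
  refine Submodule.span_mono ?_
  rintro _ ⟨x, hx, rfl⟩
  exact ⟨x, h hx, rfl⟩

namespace Rows

variable {C}

lemma gen_rel (R : C.Rows) (n : ℕ) (g : ℕ → S) {b : ℕ} (hb : R.B ≤ b) (c : ℕ) :
    algebraMap (ZMod p) (RatFunc (ZMod p)) (R.r b c) * C.gen n g (c + (b + R.N0)) -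
      C.gen n g c * algebraMap (ZMod p) (RatFunc (ZMod p)) (R.r b (c + 1)) =
      C.gen n g b * algebraMap (ZMod p) (RatFunc (ZMod p)) (R.r (b + 1) c) := by
  rw [gen_apply, gen_apply, gen_apply, Finset.mul_sum, Finset.sum_mul, Finset.sum_mul,
    ← Finset.sum_sub_distrib]
  refine Finset.sum_congr rfl fun i _ => ?_
  rw [mul_assoc, mul_assoc, ← map_mul, ← map_mul, ← R.rel hb (g i) c, map_sub, map_mul, map_mul]
  ring

lemma Lk_rank_one (R : C.Rows) {W : ℕ} (hW : ∀ w, W ≤ w → ∀ s ∈ C.LL w, ∃ c : ZMod p, s = c • R.r (w - R.N0))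
    {w : ℕ} (hw : W ≤ w) {x : ℕ → RatFunc (ZMod p)}
    (hx : x ∈ (C.symSys hpf.out).Lk (RatFunc (ZMod p)) w) :
    ∃ c : RatFunc (ZMod p), x = fun b =>
      c * algebraMap (ZMod p) (RatFunc (ZMod p)) (R.r (w - R.N0) b) := by
  have h1 : (C.symSys hpf.out).Lk (RatFunc (ZMod p)) w ≤ Submodule.span _
      {fun b => algebraMap (ZMod p) (RatFunc (ZMod p)) (R.r (w - R.N0) b)} := by
    refine Submodule.span_le.2 ?_
    rintro _ ⟨s, hs, rfl⟩
    obtain ⟨c, hc⟩ := hW w hw s hs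
    refine Submodule.mem_span_singleton.2 ⟨algebraMap (ZMod p) (RatFunc (ZMod p)) c, ?_⟩
    funext b
    rw [Pi.smul_apply, smul_eq_mul, ← map_mul, hc]
    rfl
  obtain ⟨c, hc⟩ := Submodule.mem_span_singleton.1 (h1 hx)
  exact ⟨c, hc.symm⟩

/-- **The non-tie case.** -/
theorem nonTie (R : C.Rows) {a : ℕ} (h1 : ∀ i < a, (p - 1) * p ^ i < δ) (h2 : δ < (p - 1) * p ^ a) :
    False := by
  have hp := hpf.out
  obtain ⟨g, hg⟩ := C.exists_gen
  have hD : ∀ b, C.gen δ g b ≠ 0 := fun b => genSym_ne_zero (hg b)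
  obtain ⟨W, hW⟩ := R.rank_one
  have hδ := C.δ_pos
  set l := W + R.B + R.N0 with hl
  set w := p ^ a + l * δ with hw
  have hlw : l ≤ w := by
    have : l * 1 ≤ l * δ := Nat.mul_le_mul_left _ hδ
    omega
  have hx := C.Lk_mono (LL_gt hp (pow_pos hp.pos a) h2 l) (C.genPow_mem δ g a h1)
  obtain ⟨c, hc⟩ := R.Lk_rank_one hW (w := w) (by omega) hx
  have hc' : ∀ b, ∏ i ∈ range (p ^ a), C.gen δ g (b + i) =
      c * algebraMap (ZMod p) (RatFunc (ZMod p)) (R.r (w - R.N0) b) := fun b => congrFun hc b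
  have hb : R.B ≤ w - R.N0 := by omega
  have e1 : w - R.N0 + R.N0 = w := by omega
  refine R.ne (w - R.N0 + 1) (by omega) ?_
  funext b
  have h3 := R.gen_rel δ g hb b
  rw [e1] at h3
  have h4 : C.gen δ g (b + w) = C.gen δ g (b + p ^ a) := by
    have : b + w = b + p ^ a + l * δ := by omega
    rw [this, C.gen_per_mul]
  have h5 := congrArg (fun t => c * t) h3
  beta_reduce at h5
  rw [mul_sub, ← mul_assoc, ← hc' b, h4] at h5
  have h6 : c * (C.gen δ g b * algebraMap (ZMod p) (RatFunc (ZMod p)) (R.r (w - R.N0) (b + 1))) =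
      C.gen δ g b * ∏ i ∈ range (p ^ a), C.gen δ g (b + 1 + i) := by
    rw [hc' (b + 1)]
    ring
  rw [h6] at h5
  have h7 : (∏ i ∈ range (p ^ a), C.gen δ g (b + i)) * C.gen δ g (b + p ^ a) =
      C.gen δ g b * ∏ i ∈ range (p ^ a), C.gen δ g (b + 1 + i) := by
    rw [← Finset.prod_range_succ (fun i => C.gen δ g (b + i)), Finset.prod_range_succ', mul_comm]
    congr 1
    refine Finset.prod_congr rfl fun i _ => ?_
    congr 1
    omega
  rw [h7, sub_self] at h5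
  have hcne : c ≠ 0 := by
    rintro rfl
    have h8 := hc' 0
    rw [zero_mul, Finset.prod_eq_zero_iff] at h8
    obtain ⟨i, -, hi⟩ := h8
    exact hD _ hi
  have h8 := mul_eq_zero.1 h5.symm
  rcases h8 with h8 | h8
  · exact absurd h8 hcne
  rcases mul_eq_zero.1 h8 with h9 | h9
  · exact absurd h9 (hD _)
  · exact (map_eq_zero _).1 h9

end Rows

end GChain

end Pool.Agent.Helper11.Coclass
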