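import Pool.Agent.Helper11.Coclass.GChain

/-!
# The dichotomy: abelian chains, or rows of structure constants
-/

namespace Pool.Agent.Helper11.Coclass

open Finset
open scoped commutatorElement

universe u

/-- `∑_{i<p} (1+x)^i` for an odd prime `p`. -/
lemma geom_one_add_prime {R : Type*} [Ring R] {p : ℕ} (hp : p.Prime) (x : R) :
    ∃ c : ℕ → ℕ, ∑ i ∈ range p, (1 + x) ^ i =
      x ^ (p - 1) + p • (1 : R) + p • (x * ∑ j ∈ range p, c j • x ^ j) := by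
  obtain ⟨q, -, ⟨c, hc⟩, h⟩ := one_add_pow_prime hp (Polynomial.X : Polynomial ℤ)
  have h1 : (Polynomial.X : Polynomial ℤ) * ∑ i ∈ range p, (1 + Polynomial.X) ^ i =
      Polynomial.X * (Polynomial.X ^ (p - 1) + p • 1 + p • (Polynomial.X * q)) := by
    have h2 := mul_geom_sum (1 + (Polynomial.X : Polynomial ℤ)) p
    rw [add_sub_cancel_left] at h2
    rw [h2, h, mul_add, mul_add, ← pow_succ', Nat.sub_add_cancel hp.one_le, mul_smul_comm, mul_one,
      mul_smul_comm]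
  have h3 := mul_left_cancel₀ Polynomial.X_ne_zero h1
  have h4 := congrArg (Polynomial.aeval x) h3
  refine ⟨c, ?_⟩
  simpa [hc, map_sum, map_add, map_mul, map_pow] using h4

namespace FMod

variable {p δ lo m : ℕ} {S : Type*} [Group S] {A : Type*} [AddCommGroup A]
  {M : FMod p δ lo m S A}

lemma geom_sum_mem (hp : p.Prime) {v : S} {b' : ℕ} (hb' : 0 < b') (hδ : δ < (p - 1) * b')
    (hv : ∀ e, lo ≤ e → ∀ u ∈ M.F e, M.ρ v u - u ∈ M.F (e + b')) {c : ℕ} (hc : lo < c)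
    (hm : c + δ < m) {a : A} (ha : a ∈ M.F c) :
    (∑ i ∈ range p, ((M.ρ v) ^ i : AddMonoid.End A) a) ∈ M.F (c + δ) ∧
      M.lc (c + δ) (∑ i ∈ range p, ((M.ρ v) ^ i : AddMonoid.End A) a) = M.lc c a := by
  obtain ⟨k, hk⟩ := geom_one_add_prime hp (M.ρ v - 1)
  have h1 : ∑ i ∈ range p, ((M.ρ v) ^ i : AddMonoid.End A) a =
      ((M.ρ v - 1) ^ (p - 1) : AddMonoid.End A) a + p • a +
        p • ((M.ρ v - 1) ((∑ j ∈ range p, k j • (M.ρ v - 1) ^ j : AddMonoid.End A) a)) := by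
    have h2 := DFunLike.congr_fun hk a
    rw [add_sub_cancel, end_sum_apply] at h2
    exact h2
  have hpow : ∀ j, ∀ e, lo ≤ e → ∀ u ∈ M.F e,
      ((M.ρ v - 1) ^ j : AddMonoid.End A) u ∈ M.F (e + j * b') := by
    intro j
    induction j with
    | zero => intro e _ u hu; simpa using hu
    | succ j ih =>
      intro e he u hu
      have h3 := hv (e + j * b') (by omega) _ (ih e he u hu)
      have h4 : e + j * b' + b' = e + (j + 1) * b' := by ring
      rw [h4] at h3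
      rw [pow_succ']
      exact h3
  have h2 : ((M.ρ v - 1) ^ (p - 1) : AddMonoid.End A) a ∈ M.F (c + δ + 1) :=
    M.anti' (by omega) (hpow (p - 1) c hc.le a ha)
  obtain ⟨h3, h3'⟩ := M.pmul c hc a ha
  have h4 : (∑ j ∈ range p, k j • (M.ρ v - 1) ^ j : AddMonoid.End A) a ∈ M.F c := by
    rw [end_sum_apply]
    refine sum_mem fun j _ => ?_
    exact nsmul_mem (M.anti' (by omega) (hpow j c hc.le a ha)) _
  have h5 := hv c hc.le _ h4
  have h6 : p • ((M.ρ v - 1) ((∑ j ∈ range p, k j • (M.ρ v - 1) ^ j : AddMonoid.End A) a)) ∈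
      M.F (c + δ + 1) := M.anti' (by omega) (M.pmul (c + b') (by omega) _ h5).1
  rw [h1]
  refine ⟨add_mem (add_mem (M.anti _ h2) h3) (M.anti _ h6), ?_⟩
  rw [M.lc_add _ _ (add_mem (M.anti _ h2) h3) _ (M.anti _ h6), M.lc_add _ _ (M.anti _ h2) _ h3,
    (M.lc_ker _ hm _ (M.anti _ h2)).2 h2, (M.lc_ker _ hm _ (M.anti _ h6)).2 h6, h3' hm]
  ring

end FMod

lemma NFam.cls_prod {p δ lo m : ℕ} {S : Type u} [Group S] (N : NFam p δ lo m S) (v : S)
    (t : N.G lo) (k : ℕ) : ∃ h : ((t : S) * v) ^ k * (v ^ k)⁻¹ ∈ N.G lo,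
      N.cls ⟨_, h⟩ = ∑ i ∈ range k, ((N.ρ v) ^ i : AddMonoid.End _) (N.cls t) := by
  induction k with
  | zero =>
    refine ⟨by simpa using one_mem _, ?_⟩
    rw [range_zero, sum_empty]
    have : (⟨((t : S) * v) ^ 0 * (v ^ 0)⁻¹, by simpa using one_mem _⟩ : N.G lo) = 1 :=
      Subtype.ext (by simp)
    rw [this]
    rfl
  | succ k ih =>
    obtain ⟨h, ih⟩ := ih
    have hN := N.normal lo
    have h1 : ((t : S) * v) ^ (k + 1) * (v ^ (k + 1))⁻¹ =
        (((t : S) * v) ^ k * (v ^ k)⁻¹) * (v ^ k * t * (v ^ k)⁻¹) := by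
      rw [pow_succ (_ * v), pow_succ v]
      group
    have h2 : v ^ k * t * (v ^ k)⁻¹ ∈ N.G lo := hN.conj_mem _ t.2 _
    refine ⟨by rw [h1]; exact mul_mem h h2, ?_⟩
    have h3 : (⟨((t : S) * v) ^ (k + 1) * (v ^ (k + 1))⁻¹, by rw [h1]; exact mul_mem h h2⟩ :
        N.G lo) = ⟨_, h⟩ * N.cj (v ^ k) t :=
      Subtype.ext (by rw [Subgroup.coe_mul, N.cj_val]; exact h1)
    rw [h3, N.cls_mul, ih, sum_range_succ, ← N.ρ_cls, map_pow]

namespace GChain

variable {p δ : ℕ} {S : Type u} [Group S] (C : GChain p δ S)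

/-- Commutators with `p`-th powers. -/
lemma comm_pow_step (hp : p.Prime) (hp2 : p ≠ 2) {y v : S} {b' c : ℕ} (hb' : δ ≤ b')
    (hv : v ∈ C.N b') (hc : δ + 3 ≤ c) (ht : ⁅y, v⁆ ∈ C.N c) :
    ⁅y, v ^ p⁆ ∈ C.N (c + δ) ∧ C.lc (c + δ) ⁅y, v ^ p⁆ = C.lc c ⁅y, v⁆ := by
  have hδ := C.δ_pos
  have hp3 : 3 ≤ p := by
    have := hp.two_le
    omega
  have hmul : δ < (p - 1) * b' := by
    have : 2 * b' ≤ (p - 1) * b' := Nat.mul_le_mul_right _ (by omega)
    omega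
  have ht1 : ⁅y, v⁆ ∈ (C.sec (c - 1)).G (c - 1) := by
    show ⁅y, v⁆ ∈ C.N (min (c - 1) (2 * (c - 1)))
    exact C.anti' (by omega) ht
  have ht2 : ⁅y, v⁆ ∈ (C.sec (c - 1)).G c := by
    show ⁅y, v⁆ ∈ C.N (min c (2 * (c - 1)))
    exact C.anti' (by omega) ht
  obtain ⟨h, hcls⟩ := (C.sec (c - 1)).cls_prod v ⟨⁅y, v⁆, ht1⟩ p
  have hact : ∀ e, c - 1 ≤ e → ∀ u ∈ (C.sec (c - 1)).toFMod.F e,
      (C.sec (c - 1)).toFMod.ρ v u - u ∈ (C.sec (c - 1)).toFMod.F (e + b') := by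
    intro e he a ha
    obtain ⟨u, hu, rfl⟩ := (C.sec (c - 1)).mem_F.1 ha
    change (C.sec (c - 1)).ρ v ((C.sec (c - 1)).cls u) - (C.sec (c - 1)).cls u ∈
      (C.sec (c - 1)).F (e + b')
    rw [NFam.ρ_sub, NFam.cls_mem_F]
    change (u : S) ∈ C.N (min e (2 * (c - 1))) at hu
    show ⁅v, (u : S)⁆ ∈ C.N (min (e + b') (2 * (c - 1)))
    exact C.anti' (by omega) (C.abel b' _ v hv _ hu)
  have h1 := FMod.geom_sum_mem hp (by omega) hmul hact (c := c) (by omega) (by omega)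
    (a := (C.sec (c - 1)).cls ⟨⁅y, v⁆, ht1⟩) ((C.sec (c - 1)).cls_mem_F.2 ht2)
  have e1 : ∑ i ∈ range p, (((C.sec (c - 1)).toFMod.ρ v) ^ i : AddMonoid.End _)
      ((C.sec (c - 1)).cls ⟨⁅y, v⁆, ht1⟩) = (C.sec (c - 1)).cls ⟨_, h⟩ := hcls.symm
  rw [e1] at h1
  have e2 : (⁅y, v⁆ * v) ^ p * (v ^ p)⁻¹ = ⁅y, v ^ p⁆ := by
    have : ⁅y, v⁆ * v = y * v * y⁻¹ := by rw [commutatorElement_def]; group
    rw [this, conj_pow, commutatorElement_def]
  have h2 : (⁅y, v⁆ * v) ^ p * (v ^ p)⁻¹ ∈ (C.sec (c - 1)).G (c + δ) :=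
    (C.sec (c - 1)).cls_mem_F.1 h1.1
  have h3 : (C.sec (c - 1)).lcA (c + δ) ((C.sec (c - 1)).cls ⟨_, h⟩) =
      (C.sec (c - 1)).lcA c ((C.sec (c - 1)).cls ⟨⁅y, v⁆, ht1⟩) := h1.2
  rw [NFam.lcA_cls _ (by omega) (by omega) h2, NFam.lcA_cls _ (by omega) (by omega) ht2] at h3
  have h4 : min (c + δ) (2 * (c - 1)) = c + δ := by omega
  have h5 : (⁅y, v⁆ * v) ^ p * (v ^ p)⁻¹ ∈ C.N (min (c + δ) (2 * (c - 1))) := h2
  rw [e2, h4] at h5
  refine ⟨h5, ?_⟩
  rw [← e2]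
  exact h3

variable {C}

/-- A bound on the weight holds from `δ + 3` on. -/
lemma HasWt.mem (hp : p.Prime) (hp2 : p ≠ 2) {w : ℕ} {y : S} (h : C.HasWt w y) {b' : ℕ}
    (hb' : δ + 3 ≤ b') {v : S} (hv : v ∈ C.N b') : ⁅y, v⁆ ∈ C.N (b' + w) := by
  classical
  by_contra hcon
  have hex : ∃ c, ⁅y, v⁆ ∉ C.N c := ⟨_, hcon⟩
  set c₀ := Nat.find hex with hc₀
  have hc1 : ⁅y, v⁆ ∉ C.N c₀ := Nat.find_spec hex
  have hc2 : b' + 1 < c₀ := by
    by_contra hle
    exact hc1 (C.anti' (not_lt.1 hle) (C.unip b' v hv y).1)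
  have hc3 : c₀ ≤ b' + w := Nat.find_min' hex hcon
  obtain ⟨c, hc⟩ : ∃ c, c₀ = c + 1 := ⟨c₀ - 1, by omega⟩
  have hc4 : ⁅y, v⁆ ∈ C.N c := by
    by_contra h5
    have := Nat.find_min' hex h5
    omega
  rw [hc] at hc1
  have key : ∀ k, v ^ p ^ k ∈ C.N (b' + k * δ) ∧ ⁅y, v ^ p ^ k⁆ ∈ C.N (c + k * δ) ∧
      C.lc (c + k * δ) ⁅y, v ^ p ^ k⁆ = C.lc c ⁅y, v⁆ := by
    intro k
    induction k with
    | zero => simpa using ⟨hv, hc4⟩
    | succ k ih =>
      obtain ⟨h1, h2, h3⟩ := ih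
      have h4 := C.comm_pow_step hp hp2 (b' := b' + k * δ) (by omega) h1 (by omega) h2
      have h5 := (C.ppow _ _ h1).1
      have e1 : b' + (k + 1) * δ = b' + k * δ + δ := by ring
      have e2 : c + (k + 1) * δ = c + k * δ + δ := by ring
      rw [e1, e2, pow_succ, pow_mul]
      exact ⟨h5, h4.1, h4.2.trans h3⟩
  obtain ⟨B, hB⟩ := h
  obtain ⟨h1, h2, h3⟩ := key B
  have hδ := C.δ_pos
  have h4 := hB (b' + B * δ) (by nlinarith) _ h1
  have h5 : ⁅y, v ^ p ^ B⁆ ∈ C.N (c + B * δ + 1) := C.anti' (by omega) h4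
  rw [(C.lc_ker _ _ h2).2 h5] at h3
  exact hc1 ((C.lc_ker c _ hc4).1 h3.symm)

lemma IsSym.pow_gt_iter (hp : p.Prime) (hp2 : p ≠ 2) {w : ℕ} (hw : δ ≤ w) {y : S}
    {s : ℕ → ZMod p} (h : C.IsSym w y s) (k : ℕ) : C.IsSym (w + k * δ) (y ^ p ^ k) s := by
  have hδ := C.δ_pos
  have hp3 : 3 ≤ p := by
    have := hp.two_le
    omega
  induction k with
  | zero => simpa using h
  | succ k ih =>
    have e1 : w + (k + 1) * δ = w + k * δ + δ := by ring
    rw [e1, pow_succ, pow_mul]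
    refine ih.pow_gt hp (by omega) ?_
    have : 2 * (w + k * δ) ≤ (p - 1) * (w + k * δ) := Nat.mul_le_mul_right _ (by omega)
    omega

lemma mem_pow (C : GChain p δ S) {b : ℕ} {u : S} (hu : u ∈ C.N b) (k : ℕ) :
    u ^ p ^ k ∈ C.N (b + k * δ) ∧ C.lc (b + k * δ) (u ^ p ^ k) = C.lc b u := by
  induction k with
  | zero => simpa using hu
  | succ k ih =>
    have e1 : b + (k + 1) * δ = b + k * δ + δ := by ring
    rw [e1, pow_succ, pow_mul]
    obtain ⟨h1, h2⟩ := C.ppow _ _ ih.1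
    exact ⟨h1, h2.trans ih.2⟩

/-- All weights are infinite. -/
lemma hasWt_all [Fact p.Prime] (hp2 : p ≠ 2)
    (hQ : ∀ N, ∃ B, ∀ b, B ≤ b → ∀ y ∈ C.N b, C.HasWt (b + N) y) {b₀ : ℕ} (hb : δ ≤ b₀)
    {y : S} (hy : y ∈ C.N b₀) (w : ℕ) : C.HasWt w y := by
  have hp : p.Prime := Fact.out
  have hδ := C.δ_pos
  induction w with
  | zero => exact ⟨0, fun b _ u hu => C.anti' (by omega) (C.unip b u hu y).1⟩
  | succ w ih =>
    rcases lt_or_ge w b₀ with h | h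
    · refine ⟨0, fun b _ u hu => C.anti' (by omega) (C.abel b₀ b y hy u hu)⟩
    · obtain ⟨s, hs, hsym⟩ := ih.exists_sym
      obtain ⟨B, hB⟩ := hQ (w + 1 - b₀)
      have h1 := hsym.pow_gt_iter hp hp2 (by omega) B
      have h2 := (C.mem_pow hy B).1
      have h3 := hB (b₀ + B * δ) (by nlinarith) _ h2
      have h4 : b₀ + B * δ + (w + 1 - b₀) = w + B * δ + 1 := by omega
      rw [h4] at h3
      have h5 := h1.unique h3.isSym_zero hs Per.zero
      rw [h5] at hsym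
      exact hsym.hasWt_of_zero

variable (C)

/-- The rows of structure constants. -/
structure Rows where
  N0 : ℕ
  B : ℕ
  B_ge : δ ≤ B
  r : ℕ → ℕ → ZMod p
  per : ∀ b, Per p δ (r b)
  sym : ∀ b, B ≤ b → ∀ y ∈ C.N b, C.IsSym (b + N0) y (C.lc b y • r b)
  ne : ∀ b, B ≤ b → r b ≠ 0

lemma relation {N0 b : ℕ} {r : ℕ → ℕ → ZMod p} (hper : ∀ b, Per p δ (r b))
    (hb : ∀ y ∈ C.N b, C.IsSym (b + N0) y (C.lc b y • r b))
    (hb1 : ∀ y ∈ C.N (b + 1), C.IsSym (b + 1 + N0) y (C.lc (b + 1) y • r (b + 1)))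
    (g : S) (c : ℕ) :
    r b c * C.φ (c + (b + N0)) g - C.φ c g * r b (c + 1) = C.φ b g * r (b + 1) c := by
  obtain ⟨u, hu, hlc⟩ := C.lc_surj b
  have h1 := hb u hu
  rw [hlc, one_smul] at h1
  have h2 := h1.bracket (C.isSym_φ g)
  obtain ⟨h3, h4⟩ := C.unip b u hu g
  have h5 := hb1 _ h3
  rw [h4, hlc, mul_one] at h5
  have e : b + N0 + 1 = b + 1 + N0 := by omega
  rw [e] at h2
  have h6 := h2.unique h5 ?_ ((hper (b + 1)).smul _)
  · have h7 := congrFun h6 c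
    simpa using h7
  · intro c
    show r b (c + δ) * C.φ (c + δ + (b + N0)) g - C.φ (c + δ) g * r b (c + δ + 1) = _
    have e1 : c + δ + (b + N0) = c + (b + N0) + δ := by omega
    have e2 : c + δ + 1 = c + 1 + δ := by omega
    rw [e1, e2, C.φ_per, C.φ_per, hper b, hper b]

/-- The dichotomy. -/
theorem dichotomy [Fact p.Prime] (hp2 : p ≠ 2) :
    (∃ B, ∀ u ∈ C.N B, ∀ v ∈ C.N B, ∀ c, ⁅u, v⁆ ∈ C.N c) ∨ Nonempty C.Rows := by
  classical
  have hp : p.Prime := Fact.out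
  by_cases hQ : ∀ N, ∃ B, ∀ b, B ≤ b → ∀ y ∈ C.N b, C.HasWt (b + N) y
  · left
    refine ⟨δ + 3, fun u hu v hv c => ?_⟩
    have h1 := hasWt_all hp2 hQ (by omega) hu c
    exact C.anti' (by omega) (h1.mem hp hp2 le_rfl hv)
  right
  push Not at hQ
  -- the maximal shift
  have hex : ∃ N, ∀ B, ∃ b, B ≤ b ∧ ∃ y ∈ C.N b, ¬ C.HasWt (b + N) y := hQ
  have hN1 : ∃ N0, (∃ B, ∀ b, B ≤ b → ∀ y ∈ C.N b, C.HasWt (b + N0) y) ∧
      ∀ B, ∃ b, B ≤ b ∧ ∃ y ∈ C.N b, ¬ C.HasWt (b + (N0 + 1)) y := by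
    have hfind := Nat.find_spec hex
    have h0 : Nat.find hex ≠ 0 := by
      intro h0
      rw [h0] at hfind
      obtain ⟨b, -, y, hy, hne⟩ := hfind 0
      refine hne ⟨0, fun c _ u hu => ?_⟩
      have := C.abel b c y hy u hu
      rwa [add_comm b c] at this
    obtain ⟨N0, hN0⟩ := Nat.exists_eq_succ_of_ne_zero h0
    refine ⟨N0, ?_, ?_⟩
    · have h2 := Nat.find_min hex (m := N0) (by omega)
      push Not at h2
      exact h2
    · rw [hN0] at hfind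
      exact hfind
  obtain ⟨N0, ⟨B', hB'⟩, hN0⟩ := hN1
  set B := max B' δ with hBdef
  have hB : ∀ b, B ≤ b → ∀ y ∈ C.N b, C.HasWt (b + N0) y := fun b hb => hB' b (by omega)
  have hch : ∀ b, ∃ r : ℕ → ZMod p, Per p δ r ∧
      (B ≤ b → ∀ y ∈ C.N b, C.IsSym (b + N0) y (C.lc b y • r)) := by
    intro b
    by_cases hb : B ≤ b
    · obtain ⟨u, hu, hlc⟩ := C.lc_surj b
      obtain ⟨r, hr, hsym⟩ := (hB b hb u hu).exists_sym
      refine ⟨r, hr, fun _ y hy => ?_⟩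
      have hpow : ∀ k : ℕ, C.IsSym (b + N0) (u ^ k) ((k : ZMod p) • r) := by
        intro k
        induction k with
        | zero => simpa using isSym_one (C := C) (b + N0)
        | succ k ih =>
          have := ih.mul hsym
          rw [← pow_succ] at this
          have e : ((k + 1 : ℕ) : ZMod p) • r = (k : ZMod p) • r + r := by
            push_cast
            rw [add_smul, one_smul]
          rw [e]
          exact this
      set k := (C.lc b y).val with hk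
      have hkc : ((k : ℕ) : ZMod p) = C.lc b y := ZMod.natCast_zmod_val _
      have hv1 : y * (u ^ k)⁻¹ ∈ C.N b := mul_mem hy (inv_mem (pow_mem hu k))
      have hv2 : y * (u ^ k)⁻¹ ∈ C.N (b + 1) := by
        rw [← C.lc_ker b _ hv1, C.lc_mul b _ hy _ (inv_mem (pow_mem hu k)),
          C.lc_inv (pow_mem hu k), C.lc_pow hu, hlc, mul_one, hkc, add_neg_cancel]
      have hv3 := (hB (b + 1) (by omega) _ hv2)
      have e1 : b + 1 + N0 = b + N0 + 1 := by omega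
      rw [e1] at hv3
      have hv4 := hv3.isSym_zero.mul (hpow k)
      rw [inv_mul_cancel_right, zero_add, hkc] at hv4
      exact hv4
    · exact ⟨0, Per.zero, fun h => absurd h hb⟩
  choose r hr hsym using hch
  refine ⟨⟨N0, B, by omega, r, hr, hsym, ?_⟩⟩
  intro b hb hr0
  -- then all later rows vanish
  have hall : ∀ b', b ≤ b' → r b' = 0 := by
    intro b' hb'
    induction b', hb' using Nat.le_induction with
    | base => exact hr0
    | succ b' hbb' ih =>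
      obtain ⟨g, hg⟩ := C.φ_ne b'
      funext c
      have h1 := C.relation (N0 := N0) hr (hsym b' (by omega)) (hsym (b' + 1) (by omega)) g c
      rw [ih] at h1
      simp only [Pi.zero_apply, zero_mul, mul_zero, sub_zero] at h1
      rcases mul_eq_zero.1 h1.symm with h2 | h2
      · exact absurd h2 hg
      · exact h2
  obtain ⟨b', hb', y, hy, hne⟩ := hN0 b
  have h1 := hsym b' (by omega) y hy
  rw [hall b' hb', smul_zero] at h1
  exact hne h1.hasWt_of_zero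

end GChain

end Pool.Agent.Helper11.Coclass
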