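import Pool.Agent.Helper11.Coclass.Rows

/-!
# Consequences of the existence of rows
-/

namespace Pool.Agent.Helper11.Coclass

open Finset
open scoped commutatorElement

universe u

lemma sig_iter (n b : ℕ) : (fun b : ℕ => b + 1)^[n] b = b + n := by
  induction n generalizing b with
  | zero => rfl
  | succ n ih => rw [Function.iterate_succ_apply, ih]; omega

namespace GChain

variable {p δ : ℕ} [hpf : Fact p.Prime] {S : Type u} [Group S] (C : GChain p δ S)

/-- The symbols of weight `w`. -/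
def LL (w : ℕ) : Submodule (ZMod p) (ℕ → ZMod p) where
  carrier := {s | Per p δ s ∧ ∃ y, C.IsSym w y s}
  add_mem' := by
    rintro s t ⟨hs, y, hy⟩ ⟨ht, z, hz⟩
    exact ⟨hs.add ht, y * z, hy.mul hz⟩
  zero_mem' := ⟨Per.zero, 1, isSym_one w⟩
  smul_mem' := by
    rintro c s ⟨hs, y, hy⟩
    refine ⟨hs.smul c, ?_⟩
    have hpow : ∀ k : ℕ, C.IsSym w (y ^ k) (k • s) := by
      intro k
      induction k with
      | zero => simpa using isSym_one (C := C) w
      | succ k ih =>
        have := ih.mul hy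
        rw [← pow_succ, ← succ_nsmul] at this
        exact this
    refine ⟨y ^ c.val, ?_⟩
    have h1 := hpow c.val
    have e : c • s = c.val • s := by
      rw [← Nat.cast_smul_eq_nsmul (ZMod p), ZMod.natCast_zmod_val]
    rw [e]
    exact h1

variable {C}

lemma mem_LL {w : ℕ} {s : ℕ → ZMod p} : s ∈ C.LL w ↔ Per p δ s ∧ ∃ y, C.IsSym w y s := Iff.rfl

lemma LL_gt (hp : p.Prime) {w : ℕ} (hw : 0 < w) (hδ : δ < (p - 1) * w) (l : ℕ) :
    C.LL w ≤ C.LL (w + l * δ) := by
  induction l with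
  | zero => simp
  | succ l ih =>
    rintro s hs
    obtain ⟨h1, y, hy⟩ := ih hs
    have h2 : δ < (p - 1) * (w + l * δ) := by
      have : (p - 1) * w ≤ (p - 1) * (w + l * δ) := Nat.mul_le_mul_left _ (by omega)
      omega
    have e : w + (l + 1) * δ = w + l * δ + δ := by ring
    rw [e]
    exact ⟨h1, y ^ p, hy.pow_gt hp (by omega) h2⟩

variable (C)

/-- The system of symbols. -/
def symSys (hp : p.Prime) : SymSys p ℕ (fun b => b + 1) (fun w => 0 < w ∧ (p - 1) * w < δ) where
  L := C.LL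
  bracket := by
    rintro v w x ⟨hx, y, hy⟩ x' ⟨hx', z, hz⟩
    refine ⟨?_, ⁅z, y⁆, ?_⟩
    · intro b
      simp only [sig_iter]
      have e1 : b + δ + v = b + v + δ := by omega
      have e2 : b + δ + w = b + w + δ := by omega
      rw [e1, e2, hx, hx, hx', hx']
    · simp only [sig_iter]
      exact hy.bracket hz
  pow := by
    rintro w ⟨hw, hwδ⟩ x ⟨hx, y, hy⟩
    refine ⟨?_, y ^ p, ?_⟩
    · intro b
      simp only [sig_iter]
      refine Finset.prod_congr rfl fun i _ => ?_
      have e1 : b + δ + i * w = b + i * w + δ := by omega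
      rw [e1, hx]
    · simp only [sig_iter]
      exact hy.pow_lt hp hw hwδ

lemma φ_mem_LL (g : S) : (fun b => C.φ b g) ∈ C.LL 1 := ⟨C.per_φ g, g, C.isSym_φ g⟩

namespace Rows

variable {C} (R : C.Rows)

lemma r_mem {b : ℕ} (hb : R.B ≤ b) : R.r b ∈ C.LL (b + R.N0) := by
  obtain ⟨u, hu, hlc⟩ := C.lc_surj b
  refine ⟨R.per b, u, ?_⟩
  have := R.sym b hb u hu
  rwa [hlc, one_smul] at this

lemma r_add (hp : p.Prime) (hp2 : p ≠ 2) {b : ℕ} (hb : R.B ≤ b) : R.r (b + δ) = R.r b := by
  obtain ⟨u, hu, hlc⟩ := C.lc_surj b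
  have h1 := R.sym b hb u hu
  rw [hlc, one_smul] at h1
  have h2 := h1.pow_gt_iter hp hp2 (by have := R.B_ge; omega) 1
  obtain ⟨h3, h4⟩ := C.ppow b u hu
  have h5 := R.sym (b + δ) (by omega) _ h3
  rw [h4, hlc, one_smul] at h5
  rw [pow_one, one_mul] at h2
  have e : b + δ + R.N0 = b + R.N0 + δ := by omega
  rw [e] at h5
  exact h5.unique h2 (R.per _) (R.per _)

lemma rel {b : ℕ} (hb : R.B ≤ b) (g : S) (c : ℕ) :
    R.r b c * C.φ (c + (b + R.N0)) g - C.φ c g * R.r b (c + 1) = C.φ b g * R.r (b + 1) c :=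
  C.relation R.per (R.sym b hb) (R.sym (b + 1) (by omega)) g c

/-- structure constants -/
lemma struct {b : ℕ} (hb : R.B ≤ b) : ∃ B', R.B ≤ B' ∧ ∀ c, B' ≤ c → ∀ e,
    R.r c e * R.r b (e + (c + R.N0)) - R.r b e * R.r c (e + (b + R.N0)) =
      R.r b c * R.r (b + c + R.N0) e := by
  obtain ⟨u, hu, hlc⟩ := C.lc_surj b
  have h1 := R.sym b hb u hu
  rw [hlc, one_smul] at h1
  obtain ⟨B', h2⟩ := id h1
  refine ⟨max B' R.B, by omega, fun c hc e => ?_⟩
  obtain ⟨v, hv, hlcv⟩ := C.lc_surj c
  have h3 := R.sym c (by omega) v hv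
  rw [hlcv, one_smul] at h3
  have h4 := h3.bracket h1
  obtain ⟨h5, h6⟩ := h2 c (by omega) v hv
  have e1 : c + (b + R.N0) = b + c + R.N0 := by omega
  rw [e1] at h5 h6
  rw [hlcv, mul_one] at h6
  have h7 := R.sym (b + c + R.N0) (by omega) _ h5
  rw [h6] at h7
  have e2 : c + R.N0 + (b + R.N0) = b + c + R.N0 + R.N0 := by omega
  rw [e2] at h4
  have h8 := h4.unique h7 ?_ ((R.per _).smul _)
  · exact congrFun h8 e
  · intro e
    show R.r c (e + δ) * R.r b (e + δ + (c + R.N0)) -
      R.r b (e + δ) * R.r c (e + δ + (b + R.N0)) = _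
    have e3 : e + δ + (c + R.N0) = e + (c + R.N0) + δ := by omega
    have e4 : e + δ + (b + R.N0) = e + (b + R.N0) + δ := by omega
    rw [e3, e4, R.per, R.per, R.per, R.per]

/-- Elements of `N B` of large weight are deep. -/
lemma mem_of_hasWt {z : S} (hz : z ∈ C.N R.B) {w : ℕ} (h : C.HasWt w z) :
    ∀ b, R.B ≤ b → b + R.N0 ≤ w → z ∈ C.N b := by
  intro b hb
  induction b, hb using Nat.le_induction with
  | base => exact fun _ => hz
  | succ b hb ih =>
    intro hw
    have h1 := ih (by omega)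
    by_contra hcon
    rw [← C.lc_ker b z h1] at hcon
    have h2 := R.sym b hb z h1
    have h3 := h.mono (w := b + R.N0 + 1) (by omega)
    have h4 := h2.unique h3.isSym_zero ((R.per b).smul _) Per.zero
    rcases smul_eq_zero.1 h4 with h5 | h5
    · exact hcon h5
    · exact R.ne b hb h5

/-- For large weights the symbols are multiples of the rows. -/
theorem rank_one : ∃ W, ∀ w, W ≤ w → ∀ s ∈ C.LL w, ∃ c : ZMod p, s = c • R.r (w - R.N0) := by
  classical
  by_contra hcon
  push Not at hcon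
  choose f hf s hs hne using hcon
  choose hper y hy using hs
  -- the infinite set of bad weights
  have hinf : (Set.range fun n => f (n + (R.B + R.N0))).Infinite := by
    intro hfin
    obtain ⟨M, hM⟩ := hfin.bddAbove
    have h1 := hM ⟨M + 1, rfl⟩
    have h2 := hf (M + 1 + (R.B + R.N0))
    simp only at h1
    omega
  have := C.fin R.B
  have hinf' : Infinite (Set.range fun n => f (n + (R.B + R.N0))) := hinf.to_subtype
  let F : (Set.range fun n => f (n + (R.B + R.N0))) → S ⧸ C.N R.B := fun w =>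
    QuotientGroup.mk (y (w.2.choose + (R.B + R.N0)))
  obtain ⟨w₁, w₂, hne12, heq⟩ := Finite.exists_ne_map_eq_of_infinite F
  have hw₁ := w₁.2.choose_spec
  have hw₂ := w₂.2.choose_spec
  simp only at hw₁ hw₂
  -- the core argument for two weights
  have core : ∀ n m : ℕ, f (n + (R.B + R.N0)) < f (m + (R.B + R.N0)) →
      (QuotientGroup.mk (y (n + (R.B + R.N0))) : S ⧸ C.N R.B) =
        QuotientGroup.mk (y (m + (R.B + R.N0))) → False := by
    intro n m hlt heq
    rw [QuotientGroup.eq] at heq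
    set w := f (n + (R.B + R.N0)) with hw
    have hwge : n + (R.B + R.N0) ≤ w := hf _
    set z := (y (n + (R.B + R.N0)))⁻¹ * y (m + (R.B + R.N0)) with hz
    have h1 : C.IsSym w (y (n + (R.B + R.N0))) (s (n + (R.B + R.N0))) := hy _
    have h2 : C.HasWt (w + 1) (y (m + (R.B + R.N0))) := (hy (m + (R.B + R.N0))).hasWt.mono hlt
    have h3 : C.HasWt w z := h1.hasWt.inv.mul (h2.mono (by omega))
    have h4 := R.mem_of_hasWt heq h3 (w - R.N0) (by omega) (by omega)
    have h5 := R.sym (w - R.N0) (by omega) z h4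
    have e : w - R.N0 + R.N0 = w := by omega
    rw [e] at h5
    have h6 := h1.mul h5
    rw [hz, mul_inv_cancel_left] at h6
    have h7 := h6.unique h2.isSym_zero ((hper _).add ((R.per _).smul _)) Per.zero
    refine hne (n + (R.B + R.N0)) (- C.lc (w - R.N0) z) ?_
    rw [neg_smul]
    exact eq_neg_of_add_eq_zero_left h7
  have hval : (w₁ : ℕ) ≠ (w₂ : ℕ) := fun h => hne12 (Subtype.ext h)
  rcases lt_or_gt_of_ne hval with h | h
  · refine core w₁.2.choose w₂.2.choose ?_ heq
    rw [hw₁, hw₂]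
    exact h
  · refine core w₂.2.choose w₁.2.choose ?_ heq.symm
    rw [hw₁, hw₂]
    exact h

end Rows

end GChain

end Pool.Agent.Helper11.Coclass
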