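import Pool.Agent.Helper11.Coclass.Jacobson

/-!
# Systems of symbols closed under brackets and `p`-th powers, and generic elements
-/

namespace Pool.Agent.Helper11.Coclass

open Polynomial Finset

section Op

variable {I : Type*} (σ : I → I) {k : Type*} [Field k]

/-- The weighted shift operator of weight `w` with symbol `x`. -/
def op (w : ℕ) (x : I → k) : Module.End k (I → k) where
  toFun f := fun b => x b * f (σ^[w] b)
  map_add' f g := by ext b; simp [mul_add]
  map_smul' c f := by ext b; simp; ring

lemma op_apply (w : ℕ) (x f : I → k) (b : I) : op σ w x f b = x b * f (σ^[w] b) := rfl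

lemma op_mul (v w : ℕ) (x y : I → k) :
    op σ v x * op σ w y = op σ (v + w) (fun b => x b * y (σ^[v] b)) := by
  ext f b
  show op σ v x (op σ w y f) b = _
  rw [op_apply, op_apply, op_apply, add_comm v w, Function.iterate_add_apply, mul_assoc]

lemma op_add (w : ℕ) (x y : I → k) : op σ w (x + y) = op σ w x + op σ w y := by
  ext f b
  show (x b + y b) * f _ = x b * f _ + y b * f _
  ring

lemma op_smul (w : ℕ) (c : k) (x : I → k) : op σ w (c • x) = c • op σ w x := by
  ext f b
  show (c * x b) * f _ = c * (x b * f _)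
  ring

lemma op_one_apply (w : ℕ) (x : I → k) : op σ w x (fun _ => 1) = x := by
  funext b
  rw [op_apply, mul_one]

lemma op_injective {w : ℕ} {x y : I → k} (h : op σ w x = op σ w y) : x = y := by
  rw [← op_one_apply σ w x, h, op_one_apply]

/-- The operator as a linear map in the symbol. -/
def opLin (w : ℕ) : (I → k) →ₗ[k] Module.End k (I → k) where
  toFun := op σ w
  map_add' := op_add σ w
  map_smul' := op_smul σ w

@[simp] lemma opLin_apply (w : ℕ) (x : I → k) : opLin σ w x = op σ w x := rfl

/-- The symbol of the `n`-th power. -/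
def symPow (w n : ℕ) (x : I → k) : I → k := fun b => ∏ i ∈ range n, x (σ^[i * w] b)

lemma op_pow (w n : ℕ) (x : I → k) : op σ w x ^ n = op σ (n * w) (symPow σ w n x) := by
  induction n with
  | zero =>
    ext f b
    simp [op_apply, symPow]
  | succ n ih =>
    rw [pow_succ, ih, op_mul]
    have : n * w + w = (n + 1) * w := by ring
    rw [this]
    congr 1
    funext b
    rw [symPow, symPow, prod_range_succ]

end Op

/-- A graded system of symbols over `F_p`, closed under brackets and (for the weights satisfying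
`good`) under `p`-th powers. -/
structure SymSys (p : ℕ) (I : Type*) (σ : I → I) (good : ℕ → Prop) where
  /-- the symbols of weight `w` -/
  L : ℕ → Submodule (ZMod p) (I → ZMod p)
  bracket : ∀ v w, ∀ x ∈ L v, ∀ y ∈ L w,
    (fun b => x b * y (σ^[v] b) - y b * x (σ^[w] b)) ∈ L (v + w)
  pow : ∀ w, good w → ∀ x ∈ L w, (fun b => ∏ i ∈ range p, x (σ^[i * w] b)) ∈ L (p * w)

namespace SymSys

variable {p : ℕ} [hp : Fact p.Prime] {I : Type*} {σ : I → I} {good : ℕ → Prop}
  (Y : SymSys p I σ good) (k : Type*) [Field k] [Algebra (ZMod p) k]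

/-- Extension of scalars of the symbols. -/
def Lk (w : ℕ) : Submodule k (I → k) :=
  Submodule.span k {f | ∃ x ∈ Y.L w, f = fun b => algebraMap (ZMod p) k (x b)}

variable {k}

lemma cast_mem_Lk {w : ℕ} {x : I → ZMod p} (hx : x ∈ Y.L w) :
    (fun b => algebraMap (ZMod p) k (x b)) ∈ Y.Lk k w :=
  Submodule.subset_span ⟨x, hx, rfl⟩

lemma bracket_Lk {v w : ℕ} {x y : I → k} (hx : x ∈ Y.Lk k v) (hy : y ∈ Y.Lk k w) :
    (fun b => x b * y (σ^[v] b) - y b * x (σ^[w] b)) ∈ Y.Lk k (v + w) := by
  induction hx using Submodule.span_induction with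
  | mem x hx =>
    obtain ⟨x, hx, rfl⟩ := hx
    induction hy using Submodule.span_induction with
    | mem y hy =>
      obtain ⟨y, hy, rfl⟩ := hy
      have := Y.cast_mem_Lk (k := k) (Y.bracket v w x hx y hy)
      simpa using this
    | zero =>
      have h : (fun b : I => algebraMap (ZMod p) k (x b) * (0 : I → k) (σ^[v] b) -
          (0 : I → k) b * algebraMap (ZMod p) k (x (σ^[w] b))) = 0 := by
        funext b; simp
      rw [h]; exact Submodule.zero_mem _
    | add y z _ _ hy hz =>
      have h : (fun b : I => algebraMap (ZMod p) k (x b) * (y + z) (σ^[v] b) -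
          (y + z) b * algebraMap (ZMod p) k (x (σ^[w] b))) =
          (fun b : I => algebraMap (ZMod p) k (x b) * y (σ^[v] b) -
          y b * algebraMap (ZMod p) k (x (σ^[w] b))) +
          (fun b : I => algebraMap (ZMod p) k (x b) * z (σ^[v] b) -
          z b * algebraMap (ZMod p) k (x (σ^[w] b))) := by
        funext b; simp; ring
      rw [h]; exact Submodule.add_mem _ hy hz
    | smul c y _ hy =>
      have h : (fun b : I => algebraMap (ZMod p) k (x b) * (c • y) (σ^[v] b) -
          (c • y) b * algebraMap (ZMod p) k (x (σ^[w] b))) =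
          c • (fun b : I => algebraMap (ZMod p) k (x b) * y (σ^[v] b) -
          y b * algebraMap (ZMod p) k (x (σ^[w] b))) := by
        funext b; simp; ring
      rw [h]; exact Submodule.smul_mem _ _ hy
  | zero =>
    have h : (fun b : I => (0 : I → k) b * y (σ^[v] b) - y b * (0 : I → k) (σ^[w] b)) = 0 := by
      funext b; simp
    rw [h]; exact Submodule.zero_mem _
  | add x z _ _ hx hz =>
    have h : (fun b : I => (x + z) b * y (σ^[v] b) - y b * (x + z) (σ^[w] b)) =
        (fun b : I => x b * y (σ^[v] b) - y b * x (σ^[w] b)) +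
        (fun b : I => z b * y (σ^[v] b) - y b * z (σ^[w] b)) := by
      funext b; simp; ring
    rw [h]; exact Submodule.add_mem _ hx hz
  | smul c x _ hx =>
    have h : (fun b : I => (c • x) b * y (σ^[v] b) - y b * (c • x) (σ^[w] b)) =
        c • (fun b : I => x b * y (σ^[v] b) - y b * x (σ^[w] b)) := by
      funext b; simp; ring
    rw [h]; exact Submodule.smul_mem _ _ hx

/-- The operators with symbols in `Lk`. -/
def LE (w : ℕ) : Submodule k (Module.End k (I → k)) := (Y.Lk k w).map (opLin σ w)

lemma op_mem_LE {w : ℕ} {x : I → k} : op σ w x ∈ Y.LE (k := k) w ↔ x ∈ Y.Lk k w := by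
  constructor
  · rintro ⟨y, hy, h⟩
    have : y = x := op_injective σ h
    exact this ▸ hy
  · intro h
    exact ⟨x, h, rfl⟩

/-- **Closure under `p`-th powers survives extension of scalars.** -/
theorem pow_Lk {w : ℕ} (hw : good w) {x : I → k} (hx : x ∈ Y.Lk k w) :
    symPow σ w p x ∈ Y.Lk k (p * w) := by
  rcases isEmpty_or_nonempty I with hI | hI
  · have : symPow σ w p x = 0 := by funext b; exact (hI.false b).elim
    rw [this]; exact Submodule.zero_mem _
  have hcharp : CharP k p := (Algebra.charP_iff (ZMod p) k p).1 (ZMod.charP p)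
  have hnt : Nontrivial (Module.End k (I → k)) := inferInstance
  have hchar : CharP (Module.End k (I → k)) p := by
    refine (CharP.charP_iff_prime_eq_zero hp.out).2 ?_
    have h1 : ((p : ℕ) : Module.End k (I → k)) = (((p : ℕ) : k) • (1 : Module.End k (I → k))) := by
      rw [Nat.cast_smul_eq_nsmul, nsmul_one]
    rw [h1, CharP.cast_eq_zero, zero_smul]
  rw [← op_mem_LE, ← op_pow]
  induction hx using Submodule.span_induction with
  | mem x hx =>
    obtain ⟨x, hx, rfl⟩ := hx
    rw [op_pow, op_mem_LE]
    have := Y.cast_mem_Lk (k := k) (Y.pow w hw x hx)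
    have h5 : symPow σ w p (fun b => algebraMap (ZMod p) k (x b)) = (fun b => algebraMap (ZMod p) k
        (∏ i ∈ range p, x (σ^[i * w] b))) := by
      funext b
      rw [symPow, map_prod]
    rw [h5]
    exact this
  | zero =>
    have : op σ w (0 : I → k) = 0 := (opLin σ w).map_zero
    rw [this, zero_pow hp.out.ne_zero]
    exact Submodule.zero_mem _
  | add x y hx hy ihx ihy =>
    rw [op_add]
    have h := add_pow_sub_mem (p := p) (fun v => (Y.LE (k := k) v).toAddSubgroup) ?_ ?_
      (w := w) (A := op σ w x) (B := op σ w y) (Y.op_mem_LE.2 hx) (Y.op_mem_LE.2 hy)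
    · have h2 := Submodule.add_mem _ (Submodule.add_mem _ h ihy) ihx
      have h3 : (op σ w x + op σ w y) ^ p - op σ w x ^ p - op σ w y ^ p + op σ w y ^ p +
          op σ w x ^ p = (op σ w x + op σ w y) ^ p := by abel
      rwa [h3] at h2
    · rintro v v' _ ⟨a, ha, rfl⟩ _ ⟨b, hb, rfl⟩
      have := Y.op_mem_LE.2 (Y.bracket_Lk ha hb)
      show op σ v a * op σ v' b - op σ v' b * op σ v a ∈ Y.LE (v + v')
      rw [op_mul, op_mul, add_comm v' v]
      have h4 : op σ (v + v') (fun c => a c * b (σ^[v] c)) -
          op σ (v + v') (fun c => b c * a (σ^[v'] c)) =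
          op σ (v + v') (fun c => a c * b (σ^[v] c) - b c * a (σ^[v'] c)) := by
        rw [← opLin_apply, ← opLin_apply, ← opLin_apply, ← map_sub]
        rfl
      rw [h4]
      exact this
    · intro v m z hm hmp hz
      have hm0 : (m : k) ≠ 0 := by
        intro h
        rw [CharP.cast_eq_zero_iff k p] at h
        exact absurd (Nat.le_of_dvd hm h) (by omega)
      have h1 : (m : Module.End k (I → k)) * z = (m : k) • z := by
        rw [← nsmul_eq_mul, Nat.cast_smul_eq_nsmul]
      have h2 := (Y.LE (k := k) v).smul_mem ((m : k)⁻¹) hz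
      rw [h1, smul_smul, inv_mul_cancel₀ hm0, one_smul] at h2
      exact h2
  | smul c x hx ih =>
    rw [op_smul, _root_.smul_pow]
    exact Submodule.smul_mem _ _ ih

/-- Iterated `p`-th powers of an element of weight one. -/
theorem symPow_mem {d : I → k} (hd : d ∈ Y.Lk k 1) (j : ℕ) (hj : ∀ i < j, good (p ^ i)) :
    symPow σ 1 (p ^ j) d ∈ Y.Lk k (p ^ j) := by
  induction j with
  | zero =>
    have : symPow σ 1 (p ^ 0) d = d := by funext b; simp [symPow]
    rw [this, pow_zero]
    exact hd
  | succ j ih =>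
    have h1 := Y.pow_Lk (hj j (Nat.lt_succ_self j)) (ih fun i hi => hj i (by omega))
    have h2 : symPow σ (p ^ j) p (symPow σ 1 (p ^ j) d) = symPow σ 1 (p ^ (j + 1)) d := by
      refine op_injective σ (w := p * p ^ j) ?_
      rw [← op_pow]
      have h3 := op_pow σ 1 (p ^ j) d
      rw [mul_one] at h3
      rw [← h3, ← pow_mul, ← pow_succ, op_pow, mul_one, pow_succ']
    rw [h2] at h1
    rw [pow_succ']
    rwa [pow_succ'] at h1

/-- Applying an `F_p`-linear form of `k` to the coordinates. -/
theorem linearForm_mem (π : k →ₗ[ZMod p] ZMod p) {w : ℕ} {x : I → k} (hx : x ∈ Y.Lk k w) :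
    (fun b => π (x b)) ∈ Y.L w := by
  induction hx using Submodule.span_induction generalizing π with
  | mem x hx =>
    obtain ⟨x, hx, rfl⟩ := hx
    have h : (fun b => π (algebraMap (ZMod p) k (x b))) = (π 1) • x := by
      funext b
      rw [Algebra.algebraMap_eq_smul_one, map_smul, smul_eq_mul, Pi.smul_apply, smul_eq_mul,
        mul_comm]
    rw [h]
    exact Submodule.smul_mem _ _ hx
  | zero =>
    have h : (fun b : I => π ((0 : I → k) b)) = 0 := by funext b; simp
    rw [h]
    exact Submodule.zero_mem _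
  | add x y _ _ ihx ihy =>
    have h : (fun b : I => π ((x + y) b)) = (fun b => π (x b)) + (fun b => π (y b)) := by
      funext b; simp
    rw [h]
    exact Submodule.add_mem _ (ihx π) (ihy π)
  | smul c x _ ih =>
    exact ih (π ∘ₗ (LinearMap.mulLeft (ZMod p) c))

end SymSys

section Generic

variable (p : ℕ) [hp : Fact p.Prime]

/-- The coefficient forms on `F_p(X)`. -/
lemma exists_coeffForm : ∃ π : ℕ → (RatFunc (ZMod p) →ₗ[ZMod p] ZMod p),
    ∀ (i : ℕ) (f : (ZMod p)[X]), π i (algebraMap (ZMod p)[X] (RatFunc (ZMod p)) f) = f.coeff i := by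
  let ι : (ZMod p)[X] →ₗ[ZMod p] RatFunc (ZMod p) :=
    (IsScalarTower.toAlgHom (ZMod p) (ZMod p)[X] (RatFunc (ZMod p))).toLinearMap
  have hι : Function.Injective ι := RatFunc.algebraMap_injective (ZMod p)
  obtain ⟨r, hr⟩ := LinearMap.exists_leftInverse_of_injective ι (LinearMap.ker_eq_bot.2 hι)
  refine ⟨fun i => (Polynomial.lcoeff (ZMod p) i) ∘ₗ r, fun i f => ?_⟩
  have := LinearMap.congr_fun hr f
  rw [LinearMap.comp_apply]
  have h2 : r (algebraMap (ZMod p)[X] (RatFunc (ZMod p)) f) = f := this
  rw [h2, Polynomial.lcoeff_apply]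

variable {p} {I : Type*}

/-- The generic combination of finitely many symbols. -/
noncomputable def genSym (r : ℕ) (g : ℕ → I → ZMod p) : I → RatFunc (ZMod p) := fun b =>
  algebraMap (ZMod p)[X] (RatFunc (ZMod p)) (∑ i ∈ range r, C (g i b) * X ^ i)

lemma genSym_ne_zero {r : ℕ} {g : ℕ → I → ZMod p} {b : I} (h : ∃ i < r, g i b ≠ 0) :
    genSym r g b ≠ 0 := by
  obtain ⟨i, hi, hgi⟩ := h
  rw [genSym, Ne, map_eq_zero_iff _ (RatFunc.algebraMap_injective (ZMod p))]
  intro h0
  have := congrArg (fun f => Polynomial.coeff f i) h0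
  simp only [finsetSum_coeff, coeff_C_mul, coeff_X_pow, mul_ite, mul_one, mul_zero, coeff_zero] at this
  rw [Finset.sum_ite_eq] at this
  rw [if_pos (Finset.mem_range.2 hi)] at this
  exact hgi this

lemma genSym_eq (r : ℕ) (g : ℕ → I → ZMod p) :
    genSym r g = ∑ i ∈ range r, (algebraMap (ZMod p)[X] (RatFunc (ZMod p)) (X ^ i)) •
      (fun b => algebraMap (ZMod p) (RatFunc (ZMod p)) (g i b)) := by
  funext b
  rw [genSym, map_sum, Finset.sum_apply]
  refine Finset.sum_congr rfl fun i _ => ?_
  rw [map_mul, Pi.smul_apply, smul_eq_mul, mul_comm]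
  congr 1

lemma genSym_mem {σ : I → I} {good : ℕ → Prop} (Y : SymSys p I σ good) (w r : ℕ)
    {g : ℕ → I → ZMod p} (hg : ∀ i < r, g i ∈ Y.L w) :
    genSym r g ∈ Y.Lk (RatFunc (ZMod p)) w := by
  rw [genSym_eq]
  refine Submodule.sum_mem _ fun i hi => Submodule.smul_mem _ _ ?_
  exact Y.cast_mem_Lk (hg i (Finset.mem_range.1 hi))

end Generic

end Pool.Agent.Helper11.Coclass
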