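import Pool.Agent.Helper11.Coclass.Tie2

/-!
# Periodic chains are abelian from some point on
-/

namespace Pool.Agent.Helper11.Coclass

open Finset
open scoped commutatorElement

universe u

lemma opW_shift_mul {p δ : ℕ} (w k : ℕ) (x : ℕ → ZMod p) :
    opW (δ := δ) (w + k * δ) x = (-1 : ZMod p) ^ k • opW w x := by
  induction k with
  | zero => simp
  | succ k ih =>
    have e : w + (k + 1) * δ = w + k * δ + δ := by ring
    rw [e, opW_shift, ih, pow_succ, mul_neg_one, neg_smul]

namespace GChain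

variable {p δ : ℕ} [hpf : Fact p.Prime] {S : Type u} [Group S] {C : GChain p δ S}

namespace Rows

variable (R : C.Rows)

/-- The operators of the rows. -/
def GG (b : ℕ) : Module.End (ZMod p) (Anti p δ) := opW (b + R.N0) (R.r b)

lemma r_add_mul (hp2 : p ≠ 2) {b : ℕ} (hb : R.B ≤ b) (k : ℕ) : R.r (b + k * δ) = R.r b := by
  induction k with
  | zero => simp
  | succ k ih =>
    have e : b + (k + 1) * δ = b + k * δ + δ := by ring
    rw [e, R.r_add hpf.out hp2 (by omega), ih]

lemma GG_shift (hp2 : p ≠ 2) {b : ℕ} (hb : R.B ≤ b) (k : ℕ) :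
    R.GG (b + k * δ) = (-1 : ZMod p) ^ k • R.GG b := by
  have e : b + k * δ + R.N0 = b + R.N0 + k * δ := by omega
  rw [GG, GG, e, opW_shift_mul, R.r_add_mul hp2 hb]

/-- The Lie algebra. -/
def gg : Submodule (ZMod p) (Module.End (ZMod p) (Anti p δ)) :=
  Submodule.span (ZMod p) {x | ∃ b, R.B ≤ b ∧ x = R.GG b}

lemma GG_mem {b : ℕ} (hb : R.B ≤ b) : R.GG b ∈ R.gg := Submodule.subset_span ⟨b, hb, rfl⟩

/-- One may assume the index large. -/
lemma GG_large (hp2 : p ≠ 2) {b : ℕ} (hb : R.B ≤ b) (M : ℕ) :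
    ∃ b', M ≤ b' ∧ R.B ≤ b' ∧ ∃ c : ZMod p, R.GG b = c • R.GG b' := by
  refine ⟨b + M * δ, ?_, by omega, (-1) ^ M, ?_⟩
  · have := Nat.mul_le_mul_left M C.δ_pos
    omega
  · rw [R.GG_shift hp2 hb, smul_smul, ← mul_pow]
    simp

lemma opW_mem {W : ℕ} (hW : ∀ w, W ≤ w → ∀ s ∈ C.LL w, ∃ c : ZMod p, s = c • R.r (w - R.N0))
    {w : ℕ} (hw : W ≤ w) (hw' : R.B + R.N0 ≤ w) {s : ℕ → ZMod p} (hs : s ∈ C.LL w) :
    opW w s ∈ R.gg := by
  obtain ⟨c, hc⟩ := hW w hw s hs
  rw [hc, opW_smul]
  refine R.gg.smul_mem _ ?_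
  have h := R.GG_mem (b := w - R.N0) (by omega)
  have e : w - R.N0 + R.N0 = w := by omega
  rwa [GG, e] at h

lemma gg_bracket (hp2 : p ≠ 2) : ∀ x ∈ R.gg, ∀ y ∈ R.gg, x * y - y * x ∈ R.gg := by
  obtain ⟨W, hW⟩ := R.rank_one
  have key : ∀ b, R.B ≤ b → ∀ b', R.B ≤ b' → R.GG b * R.GG b' - R.GG b' * R.GG b ∈ R.gg := by
    intro b hb b' hb'
    obtain ⟨d, hd1, hd2, c, hc⟩ := R.GG_large hp2 hb W
    rw [hc, smul_mul_assoc, mul_smul_comm, ← smul_sub]
    refine R.gg.smul_mem _ ?_
    rw [GG, GG, opW_comm (R.per _) (R.per _)]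
    refine R.opW_mem hW (by omega) (by omega) ?_
    have h := (C.symSys hpf.out).bracket (d + R.N0) (b' + R.N0) _ (R.r_mem hd2) _ (R.r_mem hb')
    simp only [sig_iter] at h
    exact h
  intro x hx y hy
  induction hx using Submodule.span_induction with
  | mem x hx =>
    obtain ⟨b, hb, rfl⟩ := hx
    induction hy using Submodule.span_induction with
    | mem y hy =>
      obtain ⟨b', hb', rfl⟩ := hy
      exact key b hb b' hb'
    | zero => simp
    | add y z _ _ hy hz =>
      have e : R.GG b * (y + z) - (y + z) * R.GG b =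
        (R.GG b * y - y * R.GG b) + (R.GG b * z - z * R.GG b) := by noncomm_ring
      rw [e]
      exact add_mem hy hz
    | smul c y _ hy =>
      rw [smul_mul_assoc, mul_smul_comm, ← smul_sub]
      exact R.gg.smul_mem _ hy
  | zero => simp
  | add x z _ _ hx hz =>
    have e : (x + z) * y - y * (x + z) = (x * y - y * x) + (z * y - y * z) := by noncomm_ring
    rw [e]
    exact add_mem hx hz
  | smul c x _ hx =>
    rw [smul_mul_assoc, mul_smul_comm, ← smul_sub]
    exact R.gg.smul_mem _ hx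

/-- The commutator of the row operators with the operator of a group element. -/
lemma GG_rel {b : ℕ} (hb : R.B ≤ b) (g : S) :
    R.GG b * opW 1 (fun c => C.φ c g) - opW 1 (fun c => C.φ c g) * R.GG b =
      C.φ b g • R.GG (b + 1) := by
  rw [GG, GG, opW_comm (R.per _) (C.per_φ g), ← opW_smul]
  have e : b + R.N0 + 1 = b + 1 + R.N0 := by omega
  rw [e]
  congr 1
  funext c
  exact R.rel hb g c

/-- `𝔤` is perfect. -/
lemma gg_perfect (hp2 : p ≠ 2) : ∀ x ∈ R.gg, x ∈ Submodule.span (ZMod p)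
    {z | ∃ a ∈ R.gg, ∃ b ∈ R.gg, z = a * b - b * a} := by
  set Q : Submodule (ZMod p) (Module.End (ZMod p) (Anti p δ)) := Submodule.span (ZMod p)
    {z | ∃ a ∈ R.gg, ∃ b ∈ R.gg, z = a * b - b * a} with hQ
  have hδ := C.δ_pos
  -- `𝔤` is stable under the group elements
  have hstab : ∀ g : S, ∀ x ∈ R.gg, x * opW 1 (fun c => C.φ c g) -
      opW 1 (fun c => C.φ c g) * x ∈ R.gg := by
    intro g x hx
    induction hx using Submodule.span_induction with
    | mem x hx =>
      obtain ⟨b, hb, rfl⟩ := hx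
      rw [R.GG_rel hb]
      exact R.gg.smul_mem _ (R.GG_mem (by omega))
    | zero => simp
    | add x z _ _ hx hz =>
      have e : (x + z) * opW 1 (fun c => C.φ c g) - opW 1 (fun c => C.φ c g) * (x + z) =
        (x * opW 1 (fun c => C.φ c g) - opW 1 (fun c => C.φ c g) * x) +
        (z * opW 1 (fun c => C.φ c g) - opW 1 (fun c => C.φ c g) * z) := by noncomm_ring
      rw [e]
      exact add_mem hx hz
    | smul c x _ hx =>
      rw [smul_mul_assoc, mul_smul_comm, ← smul_sub]
      exact R.gg.smul_mem _ hx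
  have hQstab : ∀ g : S, ∀ x ∈ Q, x * opW 1 (fun c => C.φ c g) -
      opW 1 (fun c => C.φ c g) * x ∈ Q := by
    intro g x hx
    induction hx using Submodule.span_induction with
    | mem x hx =>
      obtain ⟨a, ha, b, hb, rfl⟩ := hx
      have e : (a * b - b * a) * opW 1 (fun c => C.φ c g) -
        opW 1 (fun c => C.φ c g) * (a * b - b * a) =
        ((a * opW 1 (fun c => C.φ c g) - opW 1 (fun c => C.φ c g) * a) * b -
          b * (a * opW 1 (fun c => C.φ c g) - opW 1 (fun c => C.φ c g) * a)) +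
        (a * (b * opW 1 (fun c => C.φ c g) - opW 1 (fun c => C.φ c g) * b) -
          (b * opW 1 (fun c => C.φ c g) - opW 1 (fun c => C.φ c g) * b) * a) := by
        noncomm_ring
      rw [e]
      exact add_mem (Submodule.subset_span ⟨_, hstab g a ha, b, hb, rfl⟩)
        (Submodule.subset_span ⟨a, ha, _, hstab g b hb, rfl⟩)
    | zero => simp
    | add x z _ _ hx hz =>
      have e : (x + z) * opW 1 (fun c => C.φ c g) - opW 1 (fun c => C.φ c g) * (x + z) =
        (x * opW 1 (fun c => C.φ c g) - opW 1 (fun c => C.φ c g) * x) +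
        (z * opW 1 (fun c => C.φ c g) - opW 1 (fun c => C.φ c g) * z) := by noncomm_ring
      rw [e]
      exact add_mem hx hz
    | smul c x _ hx =>
      rw [smul_mul_assoc, mul_smul_comm, ← smul_sub]
      exact Q.smul_mem _ hx
  -- one element
  obtain ⟨e₀, he₀, hmem₀⟩ : ∃ e₀, R.B ≤ e₀ ∧ R.GG e₀ ∈ Q := by
    obtain ⟨B', hB', hst⟩ := R.struct (b := R.B) le_rfl
    have hne := R.ne R.B le_rfl
    obtain ⟨c₀, hc₀⟩ := Function.ne_iff.1 hne
    set c := c₀ + B' * δ with hc
    have hcB : B' ≤ c := by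
      have := Nat.mul_le_mul_left B' hδ
      omega
    have hrc : R.r R.B c ≠ 0 := by
      rw [hc, (R.per _).add_mul]
      exact hc₀
    refine ⟨R.B + c + R.N0, by omega, ?_⟩
    have h1 : R.GG c * R.GG R.B - R.GG R.B * R.GG c = R.r R.B c • R.GG (R.B + c + R.N0) := by
      rw [GG, GG, GG, opW_comm (R.per _) (R.per _), ← opW_smul]
      have e : c + R.N0 + (R.B + R.N0) = R.B + c + R.N0 + R.N0 := by omega
      rw [e]
      congr 1
      funext e
      exact hst c hcB e
    have h2 : R.r R.B c • R.GG (R.B + c + R.N0) ∈ Q := by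
      rw [← h1]
      exact Submodule.subset_span ⟨_, R.GG_mem (by omega), _, R.GG_mem le_rfl, rfl⟩
    have h3 := Q.smul_mem (R.r R.B c)⁻¹ h2
    rwa [smul_smul, inv_mul_cancel₀ hrc, one_smul] at h3
  have hall : ∀ e, e₀ ≤ e → R.GG e ∈ Q := by
    intro e he
    induction e, he using Nat.le_induction with
    | base => exact hmem₀
    | succ e he ih =>
      obtain ⟨g, hg⟩ := C.φ_ne e
      have h1 := hQstab g _ ih
      rw [R.GG_rel (by omega)] at h1
      have h3 := Q.smul_mem (C.φ e g)⁻¹ h1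
      rwa [smul_smul, inv_mul_cancel₀ hg, one_smul] at h3
  intro x hx
  refine (Submodule.span_le.2 ?_) hx
  rintro _ ⟨b, hb, rfl⟩
  obtain ⟨b', hb', -, c, hc⟩ := R.GG_large hp2 hb e₀
  rw [hc]
  exact Q.smul_mem _ (hall b' hb')

/-- The tie case is impossible. -/
theorem tie {a : ℕ} (R : C.Rows) (hp2 : p ≠ 2) (hδ : δ = (p - 1) * p ^ a)
    (ht1 : ∀ b g, ¬ p ^ a ∣ b → C.φ (b + p ^ a) g = C.φ b g)
    (ht2 : ∀ b g, p ^ a ∣ b → ¬ δ ∣ b → C.φ b g = C.φ (p ^ a) g) : False := by
  have hop : ∀ g, C.φ 0 g + C.φ (p ^ a) g = 0 := R.tie_opposite hδ ht1 ht2 hp2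
  have hp := hpf.out
  have hq : 0 < p ^ a := pow_pos hp.pos a
  have hδ0 := C.δ_pos
  set T : Module.End (ZMod p) (Anti p δ) := opW (p ^ a) (X0 p δ (p ^ a)) with hT
  have hXper : Per p δ (X0 p δ (p ^ a)) := X0_per hδ
  have hGT : ∀ b, R.B ≤ b → T * R.GG b - R.GG b * T = - X0 p δ (p ^ a) b • R.GG (b + p ^ a) := by
    intro b hb
    have h1 : R.GG b * T - T * R.GG b = X0 p δ (p ^ a) b • R.GG (b + p ^ a) := by
      rw [GG, GG, hT, opW_comm (R.per _) hXper, ← opW_smul]
      have e : b + R.N0 + p ^ a = b + p ^ a + R.N0 := by omega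
      rw [e]
      congr 1
      funext c
      exact R.comm_X0 ht1 ht2 hop hb c
    rw [neg_smul, ← h1, neg_sub]
  have hiter : ∀ j, ∀ b, R.B ≤ b → ((adL (p := p) T) ^ j) (R.GG b) =
      (∏ i ∈ range j, - X0 p δ (p ^ a) (b + i * p ^ a)) • R.GG (b + j * p ^ a) := by
    intro j
    induction j with
    | zero => intro b _; simp
    | succ j ih =>
      intro b hb
      rw [pow_succ', Module.End.mul_apply, ih b hb, map_smul, adL_apply, hGT _ (by omega),
        smul_smul, prod_range_succ]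
      have e : b + j * p ^ a + p ^ a = b + (j + 1) * p ^ a := by ring
      rw [e]
  -- the sign
  have hsign : ∀ b, ∏ i ∈ range (p - 1), - X0 p δ (p ^ a) (b + i * p ^ a) = -1 := by
    intro b
    have hodd : Even (p - 1) := by
      rcases hp.eq_two_or_odd' with h | h
      · exact absurd h hp2
      · obtain ⟨m, hm⟩ := h
        exact ⟨m, by omega⟩
    have h1 : ∏ i ∈ range (p - 1), - X0 p δ (p ^ a) (b + i * p ^ a) =
        ∏ i ∈ range (p - 1), X0 p δ (p ^ a) (b + i * p ^ a) := by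
      rw [prod_neg, card_range, hodd.neg_one_pow, one_mul]
    rw [h1]
    classical
    set f : ℕ → ZMod p := fun j => if δ ∣ j * p ^ a then -1 else 1 with hf
    have h2 : ∀ i, X0 p δ (p ^ a) (b + i * p ^ a) = f (tt (p ^ a) b + i) := by
      intro i
      simp only [X0, hf, tt_add hq]
    simp only [h2]
    have hfper : ∀ j, f (j + (p - 1)) = f j := by
      intro j
      have h3 : δ ∣ (j + (p - 1)) * p ^ a ↔ δ ∣ j * p ^ a := by
        rw [add_mul, ← hδ]
        exact Nat.dvd_add_left (dvd_refl δ)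
      simp only [hf, h3]
    rw [prod_period hfper]
    have hp2' := hp.two_le
    obtain ⟨n, hn⟩ : ∃ n, p - 1 = n + 1 := ⟨p - 2, by omega⟩
    rw [hn, prod_range_succ']
    have h4 : ∀ i ∈ range n, f (i + 1) = 1 := by
      intro i hi
      have : ¬ δ ∣ (i + 1) * p ^ a := by
        rw [hδ]
        intro hd
        have h5 := Nat.dvd_of_mul_dvd_mul_right hq hd
        have h6 := Nat.le_of_dvd (by omega) h5
        have := Finset.mem_range.1 hi
        omega
      simp only [hf, this, if_false]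
    rw [prod_congr rfl h4, prod_const_one, one_mul]
    simp [hf]
  have hadT : ∀ b, R.B ≤ b → ((adL (p := p) T) ^ (p - 1)) (R.GG b) = R.GG b := by
    intro b hb
    rw [hiter _ b hb, hsign, ← hδ]
    have h1 := R.GG_shift hp2 hb 1
    rw [one_mul, pow_one] at h1
    rw [h1, smul_smul]
    simp
  have hgg : R.gg = ⊥ := by
    refine kreknin (T := T) (R.gg_bracket hp2) ?_ ?_ (R.gg_perfect hp2)
    · intro x hx
      induction hx using Submodule.span_induction with
      | mem x hx =>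
        obtain ⟨b, hb, rfl⟩ := hx
        rw [hGT b hb]
        exact R.gg.smul_mem _ (R.GG_mem (by omega))
      | zero => simp
      | add x z _ _ hx hz =>
        have e : T * (x + z) - (x + z) * T = (T * x - x * T) + (T * z - z * T) := by
          noncomm_ring
        rw [e]
        exact add_mem hx hz
      | smul c x _ hx =>
        rw [smul_mul_assoc, mul_smul_comm, ← smul_sub]
        exact R.gg.smul_mem _ hx
    · intro x hx
      induction hx using Submodule.span_induction with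
      | mem x hx =>
        obtain ⟨b, hb, rfl⟩ := hx
        exact hadT b hb
      | zero => simp
      | add x z _ _ hx hz => rw [map_add, hx, hz]
      | smul c x _ hx => rw [map_smul, hx]
  have h1 := R.GG_mem (b := R.B) le_rfl
  rw [hgg, Submodule.mem_bot] at h1
  exact R.ne R.B le_rfl (opW_inj hδ0 (R.per _) h1)

end Rows

/-- **Theorem F**: the chain is abelian from some point on. -/
theorem eventually_abelian (C : GChain p δ S) (hp2 : p ≠ 2)
    (htie : ∀ a, δ = (p - 1) * p ^ a →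
      (∀ b g, ¬ p ^ a ∣ b → C.φ (b + p ^ a) g = C.φ b g) ∧
      (∀ b g, p ^ a ∣ b → ¬ δ ∣ b → C.φ b g = C.φ (p ^ a) g)) :
    ∃ B, ∀ u ∈ C.N B, ∀ v ∈ C.N B, ∀ c, ⁅u, v⁆ ∈ C.N c := by
  classical
  rcases C.dichotomy hp2 with h | ⟨⟨R⟩⟩
  · exact h
  exfalso
  have hp := hpf.out
  have hp1 : 1 < p := hp.one_lt
  have hex : ∃ a, δ ≤ (p - 1) * p ^ a := by
    refine ⟨δ, ?_⟩
    have h1 : δ < p ^ δ := Nat.lt_pow_self hp1
    have h2 : 1 * p ^ δ ≤ (p - 1) * p ^ δ := Nat.mul_le_mul_right _ (by omega)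
    omega
  have h1 := Nat.find_spec hex
  rcases h1.eq_or_lt with h2 | h2
  · obtain ⟨ht1, ht2⟩ := htie _ h2
    exact R.tie hp2 h2 ht1 ht2
  · refine R.nonTie (a := Nat.find hex) (fun i hi => ?_) h2
    have := Nat.find_min hex hi
    omega

end GChain

end Pool.Agent.Helper11.Coclass
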