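import Pool.Agent.Helper11.Coclass.NonTie

/-!
# The tie case, first part
-/

namespace Pool.Agent.Helper11.Coclass

open Finset
open scoped commutatorElement

universe u

/-- The number of the first multiple of `q` which is `≥ b`. -/
def tt (q b : ℕ) : ℕ := (b + (q - 1)) / q

lemma tt_mul {q : ℕ} (hq : 0 < q) (t : ℕ) : tt q (t * q) = t := by
  rw [tt, Nat.div_eq_iff hq]
  constructor
  · omega
  · have : (t + 1) * q = t * q + q := by ring
    omega

lemma tt_add {q : ℕ} (hq : 0 < q) (b i : ℕ) : tt q (b + i * q) = tt q b + i := by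
  rw [tt, tt]
  have : b + i * q + (q - 1) = b + (q - 1) + i * q := by omega
  rw [this, Nat.add_mul_div_right _ _ hq]

lemma tt_succ_of_not {q : ℕ} (hq : 0 < q) {b : ℕ} (h : ¬ q ∣ b) : tt q (b + 1) = tt q b := by
  have h1 : b % q ≠ 0 := fun h2 => h (Nat.dvd_of_mod_eq_zero h2)
  have h2 := Nat.mod_lt b hq
  have h3 := Nat.div_add_mod b q
  have h4 : tt q b = b / q + 1 := by
    rw [tt, Nat.div_eq_iff hq]
    have e1 : (b / q + 1) * q = q * (b / q) + q := by ring
    constructor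
    · omega
    · have e2 : (b / q + 1 + 1) * q = q * (b / q) + q + q := by ring
      omega
  rw [h4, tt]
  have : b + 1 + (q - 1) = b + q := by omega
  rw [this, Nat.add_div_right _ hq]

lemma tt_succ_mul {q : ℕ} (hq : 0 < q) (t : ℕ) : tt q (t * q + 1) = t + 1 := by
  rw [tt]
  have : t * q + 1 + (q - 1) = (t + 1) * q := by
    have : (t + 1) * q = t * q + q := by ring
    omega
  rw [this, Nat.mul_div_cancel _ hq]

/-- the product over a full period -/
lemma prod_period {M : Type*} [CommMonoid M] {n : ℕ} {f : ℕ → M} (h : ∀ j, f (j + n) = f j) (t : ℕ) :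
    ∏ i ∈ range n, f (t + i) = ∏ i ∈ range n, f i := by
  induction t with
  | zero => simp
  | succ t ih =>
    rw [← ih]
    rcases n with _ | n
    · simp
    · rw [prod_range_succ, prod_range_succ', add_zero]
      have e : t + 1 + n = t + (n + 1) := by omega
      rw [e, h]
      congr 1
      refine prod_congr rfl fun i _ => ?_
      congr 1
      omega

/-- Two nonzero homomorphisms to `F_p` have a common non-root. -/
lemma exists_common {p : ℕ} {S : Type*} [Group S] {f h : S → ZMod p}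
    (hf : ∀ x y, f (x * y) = f x + f y) (hh : ∀ x y, h (x * y) = h x + h y)
    (hf' : ∃ x, f x ≠ 0) (hh' : ∃ x, h x ≠ 0) : ∃ x, f x ≠ 0 ∧ h x ≠ 0 := by
  obtain ⟨x, hx⟩ := hf'
  obtain ⟨y, hy⟩ := hh'
  by_cases h1 : h x = 0
  · by_cases h2 : f y = 0
    · refine ⟨x * y, ?_, ?_⟩
      · rw [hf, h2, add_zero]; exact hx
      · rw [hh, h1, zero_add]; exact hy
    · exact ⟨y, h2, hy⟩
  · exact ⟨x, hx, h1⟩

namespace GChain

variable {p δ : ℕ} [hpf : Fact p.Prime] {S : Type u} [Group S] (C : GChain p δ S)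

/-- The symbol `X(g)`. -/
def XX (q : ℕ) (g : S) : ℕ → ZMod p := fun b => C.φ (tt q b * q) g

variable {C} {a : ℕ} (hδ : δ = (p - 1) * p ^ a)
  (ht1 : ∀ b g, ¬ p ^ a ∣ b → C.φ (b + p ^ a) g = C.φ b g)

include hδ in
lemma XX_per (g : S) : Per p δ (C.XX (p ^ a) g) := by
  intro b
  have hq : 0 < p ^ a := pow_pos hpf.out.pos a
  have e : tt (p ^ a) (b + δ) = tt (p ^ a) b + (p - 1) := by
    rw [hδ, tt_add hq]
  show C.φ (tt (p ^ a) (b + δ) * p ^ a) g = C.φ (tt (p ^ a) b * p ^ a) g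
  rw [e, add_mul, ← hδ, C.φ_per]

include ht1 in
/-- The generic power in the tie case. -/
lemma genPow_tie (n : ℕ) (g : ℕ → S) (hD : ∀ b, C.gen n g b ≠ 0) :
    ∃ c : RatFunc (ZMod p), c ≠ 0 ∧ ∀ b, ∏ i ∈ range (p ^ a), C.gen n g (b + i) =
      c * C.gen n g (tt (p ^ a) b * p ^ a) := by
  have hq : 0 < p ^ a := pow_pos hpf.out.pos a
  set x : ℕ → RatFunc (ZMod p) := fun b => ∏ i ∈ range (p ^ a), C.gen n g (b + i) with hx
  have hstep : ∀ b, C.gen n g b * x (b + 1) = x b * C.gen n g (b + p ^ a) := by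
    intro b
    rw [hx]
    show C.gen n g b * ∏ i ∈ range (p ^ a), C.gen n g (b + 1 + i) =
      (∏ i ∈ range (p ^ a), C.gen n g (b + i)) * C.gen n g (b + p ^ a)
    rw [← Finset.prod_range_succ (fun i => C.gen n g (b + i)), Finset.prod_range_succ', mul_comm]
    congr 1
    refine Finset.prod_congr rfl fun i _ => ?_
    congr 1
    omega
  have hper : ∀ b, ¬ p ^ a ∣ b → C.gen n g (b + p ^ a) = C.gen n g b := by
    intro b hb
    rw [gen_apply, gen_apply]
    refine Finset.sum_congr rfl fun i _ => ?_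
    rw [ht1 b _ hb]
  refine ⟨x 0 / C.gen n g 0, ?_, ?_⟩
  · refine div_ne_zero ?_ (hD 0)
    rw [hx]
    exact Finset.prod_ne_zero_iff.2 fun i _ => hD _
  · intro b
    induction b with
    | zero =>
      have h0 : tt (p ^ a) 0 = 0 := by
        have := tt_mul hq 0
        rwa [zero_mul] at this
      rw [h0, zero_mul, div_mul_cancel₀ _ (hD 0)]
    | succ b ih =>
      have h1 := hstep b
      change x b = _ at ih
      show x (b + 1) = _
      by_cases hb : p ^ a ∣ b
      · obtain ⟨t, ht⟩ := hb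
        rw [mul_comm] at ht
        have e1 : tt (p ^ a) (b + 1) = t + 1 := by rw [ht, tt_succ_mul hq]
        have e2 : tt (p ^ a) b = t := by rw [ht, tt_mul hq]
        rw [e1]
        rw [ih, e2, ← ht] at h1
        have e3 : (t + 1) * p ^ a = b + p ^ a := by rw [ht]; ring
        rw [e3]
        have h2 : C.gen n g b * x (b + 1) =
            C.gen n g b * (x 0 / C.gen n g 0 * C.gen n g (b + p ^ a)) := by
          rw [h1]; ring
        exact mul_left_cancel₀ (hD b) h2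
      · rw [tt_succ_of_not hq hb, ← ih]
        rw [hper b hb, mul_comm] at h1
        exact mul_right_cancel₀ (hD b) h1

include ht1 hδ in
lemma gen_tie_mem (n : ℕ) (g : ℕ → S) (hD : ∀ b, C.gen n g b ≠ 0) :
    (fun b => C.gen n g (tt (p ^ a) b * p ^ a)) ∈
      (C.symSys hpf.out).Lk (RatFunc (ZMod p)) (p ^ a) := by
  obtain ⟨c, hc, h⟩ := genPow_tie ht1 n g hD
  have hp2 := hpf.out.two_le
  have ha : ∀ i < a, (p - 1) * p ^ i < δ := by
    intro i hi
    rw [hδ]
    exact Nat.mul_lt_mul_of_pos_left (Nat.pow_lt_pow_right (by omega) hi) (by omega)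
  have h1 := C.genPow_mem n g a ha
  have h2 := Submodule.smul_mem _ c⁻¹ h1
  have h3 : c⁻¹ • (fun b => ∏ i ∈ range (p ^ a), C.gen n g (b + i)) =
      fun b => C.gen n g (tt (p ^ a) b * p ^ a) := by
    funext b
    rw [Pi.smul_apply, smul_eq_mul, h b, ← mul_assoc, inv_mul_cancel₀ hc, one_mul]
  rwa [h3] at h2

include ht1 hδ in
lemma XX_mem (g : S) : C.XX (p ^ a) g ∈ C.LL (p ^ a) := by
  obtain ⟨g₀, hg₀⟩ := C.exists_gen
  let g' : ℕ → S := fun i => if i = 0 then g else g₀ (i - 1)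
  have hD : ∀ b, C.gen (δ + 1) g' b ≠ 0 := by
    intro b
    refine genSym_ne_zero ?_
    obtain ⟨i, hi, hne⟩ := hg₀ b
    refine ⟨i + 1, by omega, ?_⟩
    show C.φ b (if i + 1 = 0 then g else g₀ (i + 1 - 1)) ≠ 0
    rw [if_neg (by omega), Nat.add_sub_cancel]
    exact hne
  obtain ⟨π, hπ⟩ := exists_coeffForm p
  have h1 := (C.symSys hpf.out).linearForm_mem (π 0) (gen_tie_mem hδ ht1 (δ + 1) g' hD)
  have h2 : (fun b => π 0 (C.gen (δ + 1) g' (tt (p ^ a) b * p ^ a))) = C.XX (p ^ a) g := by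
    funext b
    rw [gen, genSym, hπ, Polynomial.finsetSum_coeff]
    rw [Finset.sum_eq_single 0]
    · simp [XX, g']
    · intro i _ hi
      rw [Polynomial.coeff_C_mul, Polynomial.coeff_X_pow, if_neg (Ne.symm hi), mul_zero]
    · intro h
      exact absurd (Finset.mem_range.2 (by omega)) h
  rw [h2] at h1
  exact h1

variable (ht2 : ∀ b g, p ^ a ∣ b → ¬ δ ∣ b → C.φ b g = C.φ (p ^ a) g)

include hδ ht2 in
lemma XX_pow (hp2 : p ≠ 2) (g : S) (b : ℕ) :
    ∏ i ∈ range p, C.XX (p ^ a) g (b + i * p ^ a) =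
      (C.φ 0 g * (C.φ (p ^ a) g) ^ (p - 2)) * C.XX (p ^ a) g b := by
  have hq : 0 < p ^ a := pow_pos hpf.out.pos a
  have hp := hpf.out.two_le
  set f : ℕ → ZMod p := fun j => C.φ (j * p ^ a) g with hf
  have hfper : ∀ j, f (j + (p - 1)) = f j := by
    intro j
    show C.φ ((j + (p - 1)) * p ^ a) g = C.φ (j * p ^ a) g
    rw [add_mul, ← hδ, C.φ_per]
  have h1 : ∀ i, C.XX (p ^ a) g (b + i * p ^ a) = f (tt (p ^ a) b + i) := by
    intro i
    show C.φ (tt (p ^ a) (b + i * p ^ a) * p ^ a) g = C.φ ((tt (p ^ a) b + i) * p ^ a) g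
    rw [tt_add hq]
  have h0 : C.XX (p ^ a) g b = f (tt (p ^ a) b) := rfl
  simp only [h1, h0]
  obtain ⟨n, hn⟩ : ∃ n, p = n + 2 := ⟨p - 2, by omega⟩
  have h2 : ∏ i ∈ range p, f (tt (p ^ a) b + i) = f (tt (p ^ a) b) * ∏ i ∈ range (p - 1), f i := by
    rw [← prod_period hfper (tt (p ^ a) b + 1)]
    have e : range p = range ((p - 1) + 1) := congrArg range (by omega)
    rw [e, prod_range_succ', mul_comm, add_zero]
    congr 1
    refine prod_congr rfl fun i _ => ?_
    congr 1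
    omega
  rw [h2, mul_comm]
  congr 1
  have e : p - 1 = (p - 2) + 1 := by omega
  rw [e, prod_range_succ']
  have h3 : ∀ i ∈ range (p - 2), f (i + 1) = C.φ (p ^ a) g := by
    intro i hi
    refine ht2 _ _ (Dvd.intro_left _ rfl) ?_
    rw [hδ]
    intro hd
    have := Nat.dvd_of_mul_dvd_mul_right hq hd
    have := Nat.le_of_dvd (by omega) this
    have := Finset.mem_range.1 hi
    omega
  rw [prod_congr rfl h3, prod_const, card_range, mul_comm]
  congr 1
  show C.φ (0 * p ^ a) g = C.φ 0 g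
  rw [zero_mul]

include hδ ht1 ht2 in
lemma XX_mem' (hp2 : p ≠ 2) (g : S) :
    (C.φ 0 g * (C.φ (p ^ a) g) ^ (p - 2) + 1) • C.XX (p ^ a) g ∈ C.LL (p ^ a + δ) := by
  obtain ⟨h1, y, hy⟩ := XX_mem hδ ht1 g
  refine ⟨(XX_per hδ g).smul _, y ^ p, ?_⟩
  have h2 := hy.pow_eq hpf.out (pow_pos hpf.out.pos a) hδ
  have h3 : (fun b => (∏ i ∈ range p, C.XX (p ^ a) g (b + i * p ^ a)) + C.XX (p ^ a) g b) =
      (C.φ 0 g * (C.φ (p ^ a) g) ^ (p - 2) + 1) • C.XX (p ^ a) g := by
    funext b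
    rw [XX_pow hδ ht2 hp2, Pi.smul_apply, smul_eq_mul, add_mul, one_mul]
  rwa [h3] at h2

namespace Rows

include hδ ht1 ht2 in
/-- **The tie case: the functionals are opposite.** -/
theorem tie_opposite (R : C.Rows) (hp2 : p ≠ 2) (g : S) : C.φ 0 g + C.φ (p ^ a) g = 0 := by
  have hp := hpf.out
  have hp2' := hp.two_le
  have hq : 0 < p ^ a := pow_pos hp.pos a
  by_contra hg
  obtain ⟨W, hW⟩ := R.rank_one
  have hδ' := C.δ_pos
  set l := W + R.B + R.N0 with hl
  set w := p ^ a + δ + l * δ with hw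
  have hlw : l ≤ w := by
    have : l * 1 ≤ l * δ := Nat.mul_le_mul_left _ hδ'
    omega
  -- a good element
  obtain ⟨x, hx1, hx2⟩ := exists_common (f := C.φ (w - R.N0))
    (h := fun g => C.φ 0 g + C.φ (p ^ a) g) (C.φ_mul _)
    (fun x y => by rw [C.φ_mul, C.φ_mul]; ring) (C.φ_ne _) ⟨g, hg⟩
  have hκ : C.φ 0 x * (C.φ (p ^ a) x) ^ (p - 2) + 1 ≠ 0 := by
    by_cases h0 : C.φ (p ^ a) x = 0
    · rw [h0, zero_pow (by omega), mul_zero, zero_add]
      exact one_ne_zero
    · intro h1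
      apply hx2
      have h2 : C.φ (p ^ a) x * (C.φ (p ^ a) x) ^ (p - 2) = 1 := by
        rw [← pow_succ']
        have e : p - 2 + 1 = p - 1 := by omega
        rw [e]
        exact ZMod.pow_card_sub_one_eq_one h0
      calc C.φ 0 x + C.φ (p ^ a) x
          = (C.φ 0 x * (C.φ (p ^ a) x) ^ (p - 2) + 1) * C.φ (p ^ a) x +
            C.φ 0 x * (1 - C.φ (p ^ a) x * (C.φ (p ^ a) x) ^ (p - 2)) := by ring
        _ = 0 := by rw [h1, h2]; ring
  have h3 := (C.LL _).smul_mem (C.φ 0 x * (C.φ (p ^ a) x) ^ (p - 2) + 1)⁻¹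
    (XX_mem' hδ ht1 ht2 hp2 x)
  rw [smul_smul, inv_mul_cancel₀ hκ, one_smul] at h3
  have h4 : C.XX (p ^ a) x ∈ C.LL w := by
    refine LL_gt hp (by omega) ?_ l h3
    have h5 : (p - 1) * (p ^ a + δ) = δ + (p - 1) * δ := by
      conv_rhs => rw [hδ]
      conv_lhs => rw [hδ]
      ring
    rw [h5]
    have : 0 < (p - 1) * δ := Nat.mul_pos (by omega) hδ'
    omega
  obtain ⟨c, hc⟩ := hW w (by omega) _ h4
  have hb : R.B ≤ w - R.N0 := by omega
  have e1 : w - R.N0 + R.N0 = w := by omega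
  -- the relation
  have hzero : ∀ b, c * (C.φ (w - R.N0) x * R.r (w - R.N0 + 1) b) = 0 := by
    intro b
    have h5 := R.rel hb x b
    rw [e1] at h5
    rw [← h5]
    have h6 : C.φ (b + w) x = C.φ (b + p ^ a) x := by
      have : b + w = b + p ^ a + (l + 1) * δ := by rw [hw]; ring
      rw [this, C.φ_add_mul]
    have h7 : ∀ b, c * R.r (w - R.N0) b = C.XX (p ^ a) x b := fun b => by rw [hc]; rfl
    rw [h6]
    have h8 : c * (R.r (w - R.N0) b * C.φ (b + p ^ a) x - C.φ b x * R.r (w - R.N0) (b + 1)) =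
        (c * R.r (w - R.N0) b) * C.φ (b + p ^ a) x - C.φ b x * (c * R.r (w - R.N0) (b + 1)) := by
      ring
    rw [h8, h7, h7]
    show C.φ (tt (p ^ a) b * p ^ a) x * C.φ (b + p ^ a) x -
      C.φ b x * C.φ (tt (p ^ a) (b + 1) * p ^ a) x = 0
    by_cases hb' : p ^ a ∣ b
    · obtain ⟨t, ht⟩ := hb'
      rw [mul_comm] at ht
      have e2 : tt (p ^ a) (b + 1) = t + 1 := by rw [ht, tt_succ_mul hq]
      have e3 : tt (p ^ a) b = t := by rw [ht, tt_mul hq]
      have e4 : (t + 1) * p ^ a = b + p ^ a := by rw [ht]; ring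
      rw [e2, e3, e4, ← ht]
      ring
    · rw [tt_succ_of_not hq hb', ht1 b x hb']
      ring
  have hcne : c ≠ 0 := by
    rintro rfl
    rw [zero_smul] at hc
    apply hx2
    have h5 := congrFun hc 0
    have h6 := congrFun hc (1 * p ^ a)
    have h7 : C.XX (p ^ a) x 0 = C.φ 0 x := by
      show C.φ (tt (p ^ a) 0 * p ^ a) x = C.φ 0 x
      have := tt_mul hq 0
      rw [zero_mul] at this
      rw [this, zero_mul]
    have h8 : C.XX (p ^ a) x (1 * p ^ a) = C.φ (p ^ a) x := by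
      show C.φ (tt (p ^ a) (1 * p ^ a) * p ^ a) x = C.φ (p ^ a) x
      rw [tt_mul hq, one_mul]
    rw [h7] at h5
    rw [h8] at h6
    show C.φ 0 x + C.φ (p ^ a) x = 0
    rw [h5, h6]
    simp
  refine R.ne (w - R.N0 + 1) (by omega) ?_
  funext b
  rcases mul_eq_zero.1 (hzero b) with h5 | h5
  · exact absurd h5 hcne
  rcases mul_eq_zero.1 h5 with h6 | h6
  · exact absurd h6 hx1
  · exact h6

end Rows

end GChain

end Pool.Agent.Helper11.Coclass
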