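import Pool.Agent.Helper11.Coclass.Tie
import Pool.Agent.Helper11.Coclass.Kreknin

/-!
# The tie case, second part
-/

namespace Pool.Agent.Helper11.Coclass

open Finset
open scoped commutatorElement

universe u

section Anti

variable (p δ : ℕ)

/-- Antiperiodic functions. -/
def Anti : Submodule (ZMod p) (ℕ → ZMod p) where
  carrier := {f | ∀ b, f (b + δ) = - f b}
  add_mem' := by
    intro f g hf hg b
    rw [Pi.add_apply, hf, hg, Pi.add_apply, neg_add]
  zero_mem' := by intro b; simp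
  smul_mem' := by
    intro c f hf b
    rw [Pi.smul_apply, hf, Pi.smul_apply, smul_neg]

variable {p δ}

lemma Per.mod {s : ℕ → ZMod p} (h : Per p δ s) (b : ℕ) : s (b % δ) = s b := by
  have h1 := h.add_mul (b % δ) (b / δ)
  rw [Nat.mod_add_div'] at h1
  exact h1.symm

/-- Weighted shifts on antiperiodic functions. -/
def opW (w : ℕ) (x : ℕ → ZMod p) : Module.End (ZMod p) (Anti p δ) where
  toFun f := ⟨fun b => x (b % δ) * f.1 (b + w), by
    intro b
    show x ((b + δ) % δ) * f.1 (b + δ + w) = - (x (b % δ) * f.1 (b + w))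
    have e : b + δ + w = b + w + δ := by omega
    rw [Nat.add_mod_right, e, f.2 (b + w), mul_neg]⟩
  map_add' f g := Subtype.ext (by
    funext b
    show x (b % δ) * (f.1 (b + w) + g.1 (b + w)) = _
    rw [mul_add]
    rfl)
  map_smul' c f := Subtype.ext (by
    funext b
    show x (b % δ) * (c * f.1 (b + w)) = c * (x (b % δ) * f.1 (b + w))
    ring)

lemma opW_apply {w : ℕ} {x : ℕ → ZMod p} (hx : Per p δ x) (f : Anti p δ) (b : ℕ) :
    (opW w x f).1 b = x b * f.1 (b + w) := by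
  show x (b % δ) * f.1 (b + w) = _
  rw [hx.mod]

lemma opW_ext {A B : Module.End (ZMod p) (Anti p δ)}
    (h : ∀ f b, (A f).1 b = (B f).1 b) : A = B :=
  LinearMap.ext fun f => Subtype.ext (funext fun b => h f b)

lemma opW_mul {v w : ℕ} {x y : ℕ → ZMod p} (hx : Per p δ x) (hy : Per p δ y) :
    opW (δ := δ) v x * opW w y = opW (v + w) (fun b => x b * y (b + v)) := by
  have hxy : Per p δ (fun b => x b * y (b + v)) := by
    intro b
    show x (b + δ) * y (b + δ + v) = x b * y (b + v)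
    have e : b + δ + v = b + v + δ := by omega
    rw [hx, e, hy]
  refine opW_ext fun f b => ?_
  rw [opW_apply hxy]
  show (opW v x (opW w y f)).1 b = _
  have e : b + v + w = b + (v + w) := by omega
  rw [opW_apply hx, opW_apply hy, e, mul_assoc]

lemma opW_shift (w : ℕ) (x : ℕ → ZMod p) : opW (δ := δ) (w + δ) x = - opW w x := by
  refine opW_ext fun f b => ?_
  show x (b % δ) * f.1 (b + (w + δ)) = - (x (b % δ) * f.1 (b + w))
  have e : b + (w + δ) = b + w + δ := by omega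
  rw [e, f.2 (b + w), mul_neg]

lemma opW_smul (w : ℕ) (c : ZMod p) (x : ℕ → ZMod p) :
    opW (δ := δ) w (c • x) = c • opW w x := by
  refine opW_ext fun f b => ?_
  show (c * x (b % δ)) * f.1 (b + w) = c * (x (b % δ) * f.1 (b + w))
  ring

lemma opW_sub (w : ℕ) (x y : ℕ → ZMod p) :
    opW (δ := δ) w x - opW w y = opW w (x - y) := by
  refine opW_ext fun f b => ?_
  show x (b % δ) * f.1 (b + w) - y (b % δ) * f.1 (b + w) =
    (x (b % δ) - y (b % δ)) * f.1 (b + w)
  ring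

lemma opW_inj (hδ : 0 < δ) {w : ℕ} {x : ℕ → ZMod p} (hx : Per p δ x)
    (h : opW (δ := δ) w x = 0) : x = 0 := by
  let f : Anti p δ := ⟨fun b => (-1) ^ (b / δ), fun b => by
    show (-1 : ZMod p) ^ ((b + δ) / δ) = - (-1) ^ (b / δ)
    rw [Nat.add_div_right _ hδ, pow_succ]
    ring⟩
  funext b
  have h1 : (opW w x f).1 b = 0 := by
    rw [h]
    rfl
  rw [opW_apply hx] at h1
  have h2 : IsUnit (f.1 (b + w)) := by
    show IsUnit ((-1 : ZMod p) ^ ((b + w) / δ))
    exact isUnit_one.neg.pow _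
  exact (h2.mul_left_eq_zero).1 h1

/-- Commutators of weighted shifts. -/
lemma opW_comm {v w : ℕ} {x y : ℕ → ZMod p} (hx : Per p δ x) (hy : Per p δ y) :
    opW (δ := δ) v x * opW w y - opW w y * opW v x =
      opW (v + w) (fun b => x b * y (b + v) - y b * x (b + w)) := by
  rw [opW_mul hx hy, opW_mul hy hx, add_comm w v, opW_sub]
  rfl

end Anti

namespace GChain

variable {p δ : ℕ} [hpf : Fact p.Prime] {S : Type u} [Group S] {C : GChain p δ S}

open Classical in
/-- The symbol `X₀`. -/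
noncomputable def X0 (p δ q : ℕ) : ℕ → ZMod p := fun b => if δ ∣ tt q b * q then -1 else 1

variable {a : ℕ} (hδ : δ = (p - 1) * p ^ a)
  (ht1 : ∀ b g, ¬ p ^ a ∣ b → C.φ (b + p ^ a) g = C.φ b g)
  (ht2 : ∀ b g, p ^ a ∣ b → ¬ δ ∣ b → C.φ b g = C.φ (p ^ a) g)
  (hop : ∀ g, C.φ 0 g + C.φ (p ^ a) g = 0)

include ht2 hop in
lemma φ_tt (b : ℕ) (g : S) :
    C.φ (tt (p ^ a) b * p ^ a) g = C.φ (p ^ a) g * X0 p δ (p ^ a) b := by
  rw [X0]
  split_ifs with h
  · obtain ⟨k, hk⟩ := h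
    have h1 : C.φ (tt (p ^ a) b * p ^ a) = C.φ 0 := by
      rw [hk, mul_comm δ k]
      have := C.φ_add_mul 0 k
      rwa [zero_add] at this
    rw [h1, mul_neg_one]
    exact eq_neg_of_add_eq_zero_left (hop g)
  · rw [mul_one]
    exact ht2 _ _ (Dvd.intro_left _ rfl) h

include hδ in
lemma X0_per : Per p δ (X0 p δ (p ^ a)) := by
  intro b
  have hq : 0 < p ^ a := pow_pos hpf.out.pos a
  have e : tt (p ^ a) (b + δ) = tt (p ^ a) b + (p - 1) := by
    rw [hδ, tt_add hq]
  have h : δ ∣ tt (p ^ a) (b + δ) * p ^ a ↔ δ ∣ tt (p ^ a) b * p ^ a := by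
    rw [e, add_mul, ← hδ]
    exact Nat.dvd_add_left (dvd_refl δ)
  simp only [X0, h]

include hδ ht1 ht2 hop in
lemma X0_mem : X0 p δ (p ^ a) ∈ C.LL (p ^ a) := by
  obtain ⟨g, hg⟩ := C.φ_ne (p ^ a)
  have h1 := (C.LL _).smul_mem (C.φ (p ^ a) g)⁻¹ (XX_mem hδ ht1 g)
  have h2 : (C.φ (p ^ a) g)⁻¹ • C.XX (p ^ a) g = X0 p δ (p ^ a) := by
    funext b
    show (C.φ (p ^ a) g)⁻¹ * C.φ (tt (p ^ a) b * p ^ a) g = _
    rw [φ_tt ht2 hop, ← mul_assoc, inv_mul_cancel₀ hg, one_mul]
  rwa [h2] at h1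

namespace Rows

/-- Iterated commutators with a weighted shift. -/
lemma iter_comm (R : C.Rows) (n : ℕ) (g : ℕ → S) {b : ℕ} (hb : R.B ≤ b) (j : ℕ) :
    ((rmul (op (fun b : ℕ => b + 1) 1 (C.gen n g)) -
      lmul (op (fun b : ℕ => b + 1) 1 (C.gen n g))) ^ j : AddMonoid.End _)
      (op (fun b : ℕ => b + 1) (b + R.N0)
        (fun c => algebraMap (ZMod p) (RatFunc (ZMod p)) (R.r b c))) =
    (∏ i ∈ range j, C.gen n g (b + i)) • op (fun b : ℕ => b + 1) (b + j + R.N0)
        (fun c => algebraMap (ZMod p) (RatFunc (ZMod p)) (R.r (b + j) c)) := by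
  induction j with
  | zero => simp
  | succ j ih =>
    set T := op (fun b : ℕ => b + 1) 1 (C.gen n g) with hT
    set Y := op (fun b : ℕ => b + 1) (b + R.N0)
        (fun c => algebraMap (ZMod p) (RatFunc (ZMod p)) (R.r b c)) with hY
    have e0 : ((rmul T - lmul T) ^ (j + 1) : AddMonoid.End _) Y =
        (((rmul T - lmul T) ^ j : AddMonoid.End _) Y) * T -
          T * (((rmul T - lmul T) ^ j : AddMonoid.End _) Y) := by
      rw [pow_succ']
      rfl
    have e3 : ∀ (κ : RatFunc (ZMod p)) (A B : Module.End (RatFunc (ZMod p)) (ℕ → RatFunc (ZMod p))),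
        (κ • A) * B - B * (κ • A) = κ • (A * B - B * A) := by
      intro κ A B
      rw [smul_sub, smul_mul_assoc, mul_smul_comm]
    rw [e0, ih, hT, e3, op_mul, op_mul, add_comm 1 (b + j + R.N0)]
    have h1 := R.gen_rel n g (b := b + j) (by omega)
    have e1 : b + j + R.N0 + 1 = b + (j + 1) + R.N0 := by omega
    have e2 : b + j + 1 = b + (j + 1) := by omega
    rw [prod_range_succ, mul_smul, e1]
    congr 1
    rw [← opLin_apply, ← opLin_apply, ← opLin_apply, ← map_sub, ← map_smul]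
    congr 1
    funext c
    rw [Pi.sub_apply, Pi.smul_apply, sig_iter, Function.iterate_one, smul_eq_mul, ← e2]
    exact h1 c

include ht1 ht2 hop in
/-- The commutator of a row with `X₀`. -/
lemma comm_X0 (R : C.Rows) {b : ℕ} (hb : R.B ≤ b) (c : ℕ) :
    R.r b c * X0 p δ (p ^ a) (c + (b + R.N0)) - X0 p δ (p ^ a) c * R.r b (c + p ^ a) =
      X0 p δ (p ^ a) b * R.r (b + p ^ a) c := by
  obtain ⟨g, hg⟩ := C.exists_gen
  have hD : ∀ b, C.gen δ g b ≠ 0 := fun b => genSym_ne_zero (hg b)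
  obtain ⟨κ, hκ, hprod⟩ := genPow_tie ht1 δ g hD
  have hDtt : ∀ b, C.gen δ g (tt (p ^ a) b * p ^ a) =
      C.gen δ g (p ^ a) * algebraMap (ZMod p) (RatFunc (ZMod p)) (X0 p δ (p ^ a) b) := by
    intro b
    rw [gen_apply, gen_apply, Finset.sum_mul]
    refine Finset.sum_congr rfl fun i _ => ?_
    rw [φ_tt ht2 hop, map_mul]
    ring
  have h1 := R.iter_comm δ g hb (p ^ a)
  have hcharp : CharP (RatFunc (ZMod p)) p :=
    (Algebra.charP_iff (ZMod p) (RatFunc (ZMod p)) p).1 (ZMod.charP p)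
  set T := op (fun b : ℕ => b + 1) 1 (C.gen δ g) with hT
  have hchar : CharP (AddMonoid.End (Module.End (RatFunc (ZMod p)) (ℕ → RatFunc (ZMod p)))) p := by
    have : Nontrivial (AddMonoid.End (Module.End (RatFunc (ZMod p)) (ℕ → RatFunc (ZMod p)))) := by
      refine ⟨0, 1, fun h => ?_⟩
      have h2 := DFunLike.congr_fun h (1 : Module.End (RatFunc (ZMod p)) (ℕ → RatFunc (ZMod p)))
      have h3 : (0 : Module.End (RatFunc (ZMod p)) (ℕ → RatFunc (ZMod p))) = 1 := h2
      exact zero_ne_one h3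
    refine (CharP.charP_iff_prime_eq_zero hpf.out).2 ?_
    refine DFunLike.ext _ _ fun x => ?_
    rw [AddMonoid.End.natCast_apply, ← Nat.cast_smul_eq_nsmul (RatFunc (ZMod p)),
      CharP.cast_eq_zero, zero_smul]
    rfl
  have hcomm : Commute (rmul T) (lmul T) := by
    refine AddMonoidHom.ext fun x => ?_
    show (T * x) * T = T * (x * T)
    rw [mul_assoc]
  rw [sub_pow_char_pow_of_commute _ _ hcomm] at h1
  have h2 : (rmul T ^ p ^ a - lmul T ^ p ^ a : AddMonoid.End _)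
      (op (fun b : ℕ => b + 1) (b + R.N0)
        (fun c => algebraMap (ZMod p) (RatFunc (ZMod p)) (R.r b c))) =
      op (fun b : ℕ => b + 1) (b + R.N0)
        (fun c => algebraMap (ZMod p) (RatFunc (ZMod p)) (R.r b c)) * T ^ p ^ a -
      T ^ p ^ a * op (fun b : ℕ => b + 1) (b + R.N0)
        (fun c => algebraMap (ZMod p) (RatFunc (ZMod p)) (R.r b c)) := by
    rw [← rmul_pow, ← lmul_pow]
    rfl
  rw [h2, hT, op_pow, mul_one, op_mul, op_mul, add_comm (p ^ a) (b + R.N0)] at h1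
  have e1 : b + p ^ a + R.N0 = b + R.N0 + p ^ a := by omega
  rw [e1, ← opLin_apply, ← opLin_apply, ← opLin_apply, ← map_sub, ← map_smul] at h1
  have h3 := op_injective _ h1
  have h4 := congrFun h3 c
  have hsp : ∀ b, symPow (fun b : ℕ => b + 1) 1 (p ^ a) (C.gen δ g) b =
      κ * (C.gen δ g (p ^ a) * algebraMap (ZMod p) (RatFunc (ZMod p)) (X0 p δ (p ^ a) b)) := by
    intro b
    rw [← hDtt, ← hprod, symPow]
    simp only [sig_iter, mul_one]
  rw [Pi.sub_apply, Pi.smul_apply, hsp, hsp, sig_iter, sig_iter, hprod b, hDtt b,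
    smul_eq_mul] at h4
  have hκD : κ * C.gen δ g (p ^ a) ≠ 0 := mul_ne_zero hκ (hD _)
  have h5 : (κ * C.gen δ g (p ^ a)) * (algebraMap (ZMod p) (RatFunc (ZMod p))
      (R.r b c * X0 p δ (p ^ a) (c + (b + R.N0)) - X0 p δ (p ^ a) c * R.r b (c + p ^ a))) =
      (κ * C.gen δ g (p ^ a)) * (algebraMap (ZMod p) (RatFunc (ZMod p))
      (X0 p δ (p ^ a) b * R.r (b + p ^ a) c)) := by
    rw [map_sub, map_mul, map_mul, map_mul]
    linear_combination h4
  exact (algebraMap (ZMod p) (RatFunc (ZMod p))).injective (mul_left_cancel₀ hκD h5)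

end Rows

end GChain

end Pool.Agent.Helper11.Coclass
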