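import Pool.Agent.Helper34.Coclass.Filt

/-!
# The weak Jennings theorem

If `k` is an `N_p`-series of a finite `p`-group with `k (N+1) = 1` and `1 ≠ w ∈ k N`, then
`w - 1` is not in the `(N+1)`-st power of the augmentation ideal.
-/

namespace Pool.Agent.Helper11.Coclass

open Pool.Agent.Helper34.Coclass MonoidAlgebra
open scoped commutatorElement

universe u v

/-- `N_p`-series. -/
structure NpSer (p : ℕ) (G : Type u) [Group G] where
  k : ℕ → Subgroup G
  zero : k 0 = ⊤
  one : k 1 = ⊤
  anti : ∀ n, k (n + 1) ≤ k n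
  comm : ∀ a b, ∀ g ∈ k a, ∀ h ∈ k b, ⁅g, h⁆ ∈ k (a + b)
  pow : ∀ a, ∀ g ∈ k a, g ^ p ∈ k (p * a)

namespace NpSer

variable {p : ℕ} {G : Type u} [Group G] (κ : NpSer p G)

lemma anti' {m n : ℕ} (h : m ≤ n) : κ.k n ≤ κ.k m := by
  induction n, h using Nat.le_induction with
  | base => exact le_rfl
  | succ n _ ih => exact (κ.anti n).trans ih

instance normal (n : ℕ) : (κ.k n).Normal := by
  refine ⟨fun g hg h => ?_⟩
  have h1 := κ.comm 0 n h (by rw [κ.zero]; trivial) g hg
  rw [zero_add] at h1
  have e : h * g * h⁻¹ = ⁅h, g⁆ * g := by rw [commutatorElement_def]; group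
  rw [e]
  exact mul_mem h1 hg

end NpSer

section Step

variable {K : Type v} [Field K] {p : ℕ} {G : Type u} [Group G] (κ : NpSer p G) (N : ℕ) (w : G)

/-- A filtration of `K[H]` adapted to the series. -/
structure Adapted (H : Subgroup G) (F : ℕ → Submodule K (MonoidAlgebra K G)) : Prop where
  anti : ∀ n, F (n + 1) ≤ F n
  supp : F 0 ≤ Submodule.span K {z | ∃ h ∈ H, z = of K G h}
  one : 1 ∈ F 0
  act : ∀ m, ∀ h ∈ H, h ∈ κ.k m → ∀ n, ∀ a ∈ F n, (of K G h - 1) * a ∈ F (n + m)
  nm : of K G w - 1 ∉ F (N + 1)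

variable {κ N w}

lemma Adapted.anti' {H : Subgroup G} {F : ℕ → Submodule K (MonoidAlgebra K G)}
    (hF : Adapted κ N w H F) {m n : ℕ} (h : m ≤ n) : F n ≤ F m := by
  induction n, h using Nat.le_induction with
  | base => exact le_rfl
  | succ n _ ih => exact (hF.anti n).trans ih

/-- Data for the inductive step. -/
structure StepData (κ : NpSer p G) (H H' : Subgroup G) (x : G) (c : ℕ) : Prop where
  le : H ≤ H'
  mem : x ∈ H'
  conj : ∀ h ∈ H, x⁻¹ * h * x ∈ H
  xp : x ^ p ∈ H
  decomp : ∀ g ∈ H', ∃ i < p, ∃ h ∈ H, g = x ^ i * h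
  npow : ∀ i, 0 < i → i < p → x ^ i ∉ H
  wt : x ∈ κ.k c
  max : ∀ g ∈ H', g ∉ H → ∀ m, g ∈ κ.k m → m ≤ c

/-- The auxiliary spaces. -/
noncomputable def SS (F : ℕ → Submodule K (MonoidAlgebra K G)) (x : G) (c i s : ℕ) :
    Submodule K (MonoidAlgebra K G) :=
  Submodule.span K {z | ∃ j ≤ i, ∃ a ∈ F (s + (i - j) * c), z = (of K G x - 1) ^ j * a}

/-- The new filtration. -/
noncomputable def FF (p : ℕ) (F : ℕ → Submodule K (MonoidAlgebra K G)) (x : G) (c n : ℕ) :
    Submodule K (MonoidAlgebra K G) :=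
  Submodule.span K {z | ∃ i < p, ∃ a ∈ F (n - i * c), z = (of K G x - 1) ^ i * a}

lemma span_map_mul {s : Set (MonoidAlgebra K G)} {M : Submodule K (MonoidAlgebra K G)}
    (b : MonoidAlgebra K G) (h : ∀ z ∈ s, b * z ∈ M) {z : MonoidAlgebra K G}
    (hz : z ∈ Submodule.span K s) : b * z ∈ M := by
  induction hz using Submodule.span_induction with
  | mem z hz => exact h z hz
  | zero => rw [mul_zero]; exact zero_mem _
  | add x y _ _ hx hy => rw [mul_add]; exact add_mem hx hy
  | smul c x _ hx => rw [mul_smul_comm]; exact Submodule.smul_mem _ _ hx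

variable {H H' : Subgroup G} {F : ℕ → Submodule K (MonoidAlgebra K G)} {x : G} {c : ℕ}
  (hF : Adapted κ N w H F) (D : StepData κ H H' x c)

include hF in
lemma SS_mono (i : ℕ) {s s' : ℕ} (h : s ≤ s') : SS F x c i s' ≤ SS F x c i s := by
  refine Submodule.span_mono ?_
  rintro _ ⟨j, hj, a, ha, rfl⟩
  exact ⟨j, hj, a, hF.anti' (by omega) ha, rfl⟩

lemma SS_add (i s : ℕ) : SS F x c i (s + c) ≤ SS F x c (i + 1) s := by
  refine Submodule.span_mono ?_
  rintro _ ⟨j, hj, a, ha, rfl⟩
  refine ⟨j, by omega, a, ?_, rfl⟩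
  have e : s + (i + 1 - j) * c = s + c + (i - j) * c := by
    have : i + 1 - j = (i - j) + 1 := by omega
    rw [this]; ring
  rwa [e]

lemma SS_mul (i s : ℕ) {z : MonoidAlgebra K G} (hz : z ∈ SS F x c i s) :
    (of K G x - 1) * z ∈ SS F x c (i + 1) s := by
  refine span_map_mul _ ?_ hz
  rintro _ ⟨j, hj, a, ha, rfl⟩
  refine Submodule.subset_span ⟨j + 1, by omega, a, ?_, ?_⟩
  · have e : i + 1 - (j + 1) = i - j := by omega
    rwa [e]
  · rw [← mul_assoc, ← pow_succ']

include hF in
/-- The stability of the auxiliary spaces, given the commutation lemma. -/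
lemma SS_stable {i : ℕ} (P : ∀ j ≤ i, ∀ m, ∀ h ∈ H, h ∈ κ.k m → ∀ r, ∀ a ∈ F r,
    (of K G h - 1) * ((of K G x - 1) ^ j * a) ∈ SS F x c j (r + m)) {m : ℕ} {h : G}
    (hh : h ∈ H) (hm : h ∈ κ.k m) {s : ℕ} {z : MonoidAlgebra K G} (hz : z ∈ SS F x c i s) :
    (of K G h - 1) * z ∈ SS F x c i (s + m) := by
  refine span_map_mul _ ?_ hz
  rintro _ ⟨j, hj, a, ha, rfl⟩
  have h1 := P j hj m h hh hm _ a ha
  refine (Submodule.span_mono ?_ : SS F x c j (s + (i - j) * c + m) ≤ SS F x c i (s + m)) h1
  rintro _ ⟨l, hl, b, hb, rfl⟩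
  refine ⟨l, by omega, b, ?_, rfl⟩
  have e : s + m + (i - l) * c = s + (i - j) * c + m + (j - l) * c := by
    have : i - l = (i - j) + (j - l) := by omega
    rw [this]; ring
  rwa [e]

include hF D in
lemma comm_lemma (i : ℕ) : ∀ m, ∀ h ∈ H, h ∈ κ.k m → ∀ r, ∀ a ∈ F r,
    (of K G h - 1) * ((of K G x - 1) ^ i * a) ∈ SS F x c i (r + m) := by
  induction i using Nat.strong_induction_on with
  | _ i IH =>
    intro m h hh hm r a ha
    rcases i with _ | i
    · refine Submodule.subset_span ⟨0, le_rfl, (of K G h - 1) * a, ?_, ?_⟩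
      · have := hF.act m h hh hm r a ha
        simpa using this
      · simp
    · set g := (of K G x - 1) ^ i * a with hg
      -- the commutator
      set c' := h⁻¹ * x⁻¹ * h * x with hc'
      have hc'H : c' ∈ H := by
        have h1 := D.conj h hh
        have e : c' = h⁻¹ * (x⁻¹ * h * x) := by rw [hc']; group
        rw [e]
        exact mul_mem (inv_mem hh) h1
      have hc'k : c' ∈ κ.k (m + c) := by
        have h1 := κ.comm m c h⁻¹ (inv_mem hm) x⁻¹ (inv_mem D.wt)
        have e : c' = ⁅h⁻¹, x⁻¹⁆ := by rw [hc', commutatorElement_def]; group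
        rw [e]
        exact h1
      have P : ∀ j ≤ i, ∀ m, ∀ h ∈ H, h ∈ κ.k m → ∀ r, ∀ a ∈ F r,
          (of K G h - 1) * ((of K G x - 1) ^ j * a) ∈ SS F x c j (r + m) :=
        fun j hj => IH j (by omega)
      have e1 : (of K G h - 1) * ((of K G x - 1) ^ (i + 1) * a) =
          (of K G x - 1) * ((of K G h - 1) * g) +
          (((of K G h - 1) * ((of K G c' - 1) * g) + (of K G c' - 1) * g) +
          (of K G x - 1) * ((of K G h - 1) * ((of K G c' - 1) * g) + (of K G c' - 1) * g)) := by
        have e2 : of K G h * of K G x = of K G x * of K G h * of K G c' := by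
          rw [← map_mul, ← map_mul, ← map_mul]
          congr 1
          rw [hc']; group
        have e3 : (of K G x - 1) ^ (i + 1) * a = (of K G x - 1) * g := by
          rw [hg, ← mul_assoc, ← pow_succ']
        rw [e3]
        have e4 : (of K G h - 1) * ((of K G x - 1) * g) =
            (of K G h * of K G x) * g - of K G h * g - of K G x * g + g := by noncomm_ring
        rw [e4, e2]
        noncomm_ring
      rw [e1]
      have h1 : (of K G h - 1) * g ∈ SS F x c i (r + m) := P i le_rfl m h hh hm r a ha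
      have h2 : (of K G c' - 1) * g ∈ SS F x c i (r + m + c) := by
        have := P i le_rfl (m + c) c' hc'H hc'k r a ha
        rwa [← add_assoc] at this
      have h3 : (of K G h - 1) * ((of K G c' - 1) * g) ∈ SS F x c i (r + m + c) := by
        have := SS_stable hF P (m := 0) hh (by rw [κ.zero]; trivial) h2
        exact this
      have h4 := add_mem h3 h2
      refine add_mem (SS_mul i _ h1) (add_mem (SS_add i _ h4) ?_)
      exact SS_mono hF _ (by omega) (SS_mul i _ h4)

lemma SS_le_FF {i s : ℕ} (hi : i < p) : SS F x c i s ≤ FF p F x c (s + i * c) := by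
  refine Submodule.span_mono ?_
  rintro _ ⟨j, hj, a, ha, rfl⟩
  refine ⟨j, by omega, a, ?_, rfl⟩
  have e : s + i * c - j * c = s + (i - j) * c := by
    have h1 : j * c ≤ i * c := Nat.mul_le_mul_right c hj
    rw [Nat.sub_mul]
    omega
  rwa [e]

include hF in
lemma FF_anti' {m n : ℕ} (h : m ≤ n) : FF p F x c n ≤ FF p F x c m := by
  refine Submodule.span_mono ?_
  rintro _ ⟨j, hj, a, ha, rfl⟩
  exact ⟨j, hj, a, hF.anti' (by omega) ha, rfl⟩

include hF D in
lemma FF_act_H {m : ℕ} {h : G} (hh : h ∈ H) (hm : h ∈ κ.k m) {n : ℕ} {z : MonoidAlgebra K G}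
    (hz : z ∈ FF p F x c n) : (of K G h - 1) * z ∈ FF p F x c (n + m) := by
  refine span_map_mul _ ?_ hz
  rintro _ ⟨i, hi, a, ha, rfl⟩
  have h1 := SS_le_FF hi (comm_lemma hF D i m h hh hm _ a ha)
  exact FF_anti' hF (by omega) h1

variable [hp : Fact p.Prime] [CharP K p]

include hF D in
lemma FF_act_x {n : ℕ} {z : MonoidAlgebra K G} (hz : z ∈ FF p F x c n) :
    (of K G x - 1) * z ∈ FF p F x c (n + c) := by
  refine span_map_mul _ ?_ hz
  rintro _ ⟨i, hi, a, ha, rfl⟩
  rw [← mul_assoc, ← pow_succ']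
  rcases Nat.lt_or_ge (i + 1) p with h | h
  · refine Submodule.subset_span ⟨i + 1, h, a, ?_, rfl⟩
    have e : n + c - (i + 1) * c = n - i * c := by
      have : (i + 1) * c = i * c + c := by ring
      omega
    rwa [e]
  · have e : i + 1 = p := by omega
    rw [e, ← of_pow_sub_one]
    have h1 := hF.act (p * c) (x ^ p) D.xp (κ.pow c x D.wt) _ a ha
    refine Submodule.subset_span ⟨0, hp.out.pos, _, hF.anti' ?_ h1, by rw [pow_zero, one_mul]⟩
    have e2 : p * c = i * c + c := by rw [← e]; ring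
    omega

include hF D in
lemma FF_act {m : ℕ} {g : G} (hg : g ∈ H') (hm : g ∈ κ.k m) {n : ℕ} {z : MonoidAlgebra K G}
    (hz : z ∈ FF p F x c n) : (of K G g - 1) * z ∈ FF p F x c (n + m) := by
  by_cases hgH : g ∈ H
  · exact FF_act_H hF D hgH hm hz
  have hmc : m ≤ c := D.max g hg hgH m hm
  obtain ⟨i, -, h, hh, rfl⟩ := D.decomp g hg
  have hxi : ∀ i : ℕ, x ^ i ∈ κ.k m := fun i => pow_mem (κ.anti' hmc D.wt) i
  have hhk : h ∈ κ.k m := by
    have := mul_mem (inv_mem (hxi i)) hm
    rwa [inv_mul_cancel_left] at this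
  -- the powers of `x`
  have hx : ∀ i : ℕ, ∀ n, ∀ z ∈ FF p F x c n, (of K G (x ^ i) - 1) * z ∈ FF p F x c (n + m) := by
    intro i
    induction i with
    | zero => intro n z hz; rw [pow_zero, map_one, sub_self, zero_mul]; exact zero_mem _
    | succ i ih =>
      intro n z hz
      have e : (of K G (x ^ (i + 1)) - 1) * z = (of K G (x ^ i) - 1) * ((of K G x - 1) * z) +
          (of K G (x ^ i) - 1) * z + (of K G x - 1) * z := by
        rw [pow_succ, map_mul]; noncomm_ring
      rw [e]
      have h1 := FF_act_x hF D hz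
      have h2 := FF_anti' hF (show n + m ≤ n + c by omega) h1
      have h3 := ih _ _ h2
      exact add_mem (add_mem (FF_anti' hF (by omega) h3) (ih _ _ hz)) h2
  have e : (of K G (x ^ i * h) - 1) * z = (of K G (x ^ i) - 1) * ((of K G h - 1) * z) +
      (of K G (x ^ i) - 1) * z + (of K G h - 1) * z := by
    rw [map_mul]; noncomm_ring
  rw [e]
  have h1 := FF_act_H hF D hh hhk hz
  have h2 := hx i _ _ h1
  exact add_mem (add_mem (FF_anti' hF (by omega) h2) (hx i _ _ hz)) h1

open Classical in
/-- The retraction of `H'` onto `H`. -/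
noncomputable def retr (p : ℕ) (H : Subgroup G) (x g : G) : G :=
  if h : ∃ i < p, (x ^ i)⁻¹ * g ∈ H then (x ^ h.choose)⁻¹ * g else 1

omit hp in
include D in
lemma retr_eq {i : ℕ} (hi : i < p) {h : G} (hh : h ∈ H) : retr p H x (x ^ i * h) = h := by
  have hex : ∃ i' < p, (x ^ i')⁻¹ * (x ^ i * h) ∈ H := ⟨i, hi, by rwa [inv_mul_cancel_left]⟩
  rw [retr, dif_pos hex]
  obtain ⟨h1, h2⟩ := hex.choose_spec
  have h3 : hex.choose = i := by
    set i' := hex.choose
    have h4 : (x ^ i')⁻¹ * x ^ i ∈ H := by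
      have := mul_mem h2 (inv_mem hh)
      have e : (x ^ i')⁻¹ * (x ^ i * h) * h⁻¹ = (x ^ i')⁻¹ * x ^ i := by group
      rwa [e] at this
    rcases lt_trichotomy i' i with h5 | h5 | h5
    · exfalso
      have e : (x ^ i')⁻¹ * x ^ i = x ^ (i - i') := by
        rw [inv_mul_eq_iff_eq_mul, ← pow_add]
        congr 1
        omega
      rw [e] at h4
      exact D.npow (i - i') (by omega) (by omega) h4
    · exact h5
    · exfalso
      have e : ((x ^ i')⁻¹ * x ^ i)⁻¹ = x ^ (i' - i) := by
        rw [mul_inv_rev, inv_inv, inv_mul_eq_iff_eq_mul, ← pow_add]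
        congr 1
        omega
      have h6 := inv_mem h4
      rw [e] at h6
      exact D.npow (i' - i) (by omega) (by omega) h6
  rw [h3, inv_mul_cancel_left]

omit hp in
lemma mapDomain_of (r : G → G) (g : G) :
    mapDomainLinearMap K K r (of K G g) = of K G (r g) := by
  simp [of]

omit hp in
include hF D in
lemma retr_FF (hp0 : 0 < p) (n : ℕ) {z : MonoidAlgebra K G} (hz : z ∈ FF p F x c n) :
    mapDomainLinearMap K K (retr p H x) z ∈ F n := by
  -- the key computation
  have key : ∀ i j, j + i < p → ∀ a ∈ Submodule.span K {z | ∃ h ∈ H, z = of K G h},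
      mapDomainLinearMap K K (retr p H x) (of K G (x ^ j) * ((of K G x - 1) ^ i * a)) =
        if i = 0 then a else 0 := by
    intro i
    induction i with
    | zero =>
      intro j hj a ha
      rw [pow_zero, one_mul, if_pos rfl]
      induction ha using Submodule.span_induction with
      | mem a ha =>
        obtain ⟨h, hh, rfl⟩ := ha
        rw [← map_mul, mapDomain_of, retr_eq D (by omega) hh]
      | zero => rw [mul_zero, map_zero]
      | add x y _ _ hx hy => rw [mul_add, map_add, hx, hy]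
      | smul c x _ hx => rw [mul_smul_comm, map_smul, hx]
    | succ i ih =>
      intro j hj a ha
      have e : of K G (x ^ j) * ((of K G x - 1) ^ (i + 1) * a) =
          of K G (x ^ (j + 1)) * ((of K G x - 1) ^ i * a) -
          of K G (x ^ j) * ((of K G x - 1) ^ i * a) := by
        rw [pow_succ' (of K G x - 1), pow_succ x, map_mul]
        noncomm_ring
      rw [e, map_sub, ih (j + 1) (by omega) a ha, ih j (by omega) a ha, sub_self,
        if_neg (Nat.succ_ne_zero i)]
  induction hz using Submodule.span_induction with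
  | mem z hz =>
    obtain ⟨i, hi, a, ha, rfl⟩ := hz
    have h1 := key i 0 (by omega) a (hF.supp (hF.anti' (by omega) ha))
    rw [pow_zero, map_one, one_mul] at h1
    rw [h1]
    split_ifs with h0
    · subst h0
      simpa using ha
    · exact zero_mem _
  | zero => rw [map_zero]; exact zero_mem _
  | add x y _ _ hx hy => rw [map_add]; exact add_mem hx hy
  | smul c x _ hx => rw [map_smul]; exact Submodule.smul_mem _ _ hx

include hF D in
/-- The inductive step. -/
theorem Adapted.step (hw : w ∈ H) : Adapted κ N w H' (FF p F x c) where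
  anti n := FF_anti' hF (by omega)
  supp := by
    refine Submodule.span_le.2 ?_
    rintro _ ⟨i, -, a, ha, rfl⟩
    have h1 : a ∈ Submodule.span K {z | ∃ h ∈ H', z = of K G h} := by
      refine (Submodule.span_mono ?_) (hF.supp (hF.anti' (by omega) ha))
      rintro _ ⟨h, hh, rfl⟩
      exact ⟨h, D.le hh, rfl⟩
    show (of K G x - 1) ^ i * a ∈ Submodule.span K {z | ∃ h ∈ H', z = of K G h}
    induction i with
    | zero => rwa [pow_zero, one_mul]
    | succ i ih =>
      rw [pow_succ', mul_assoc, sub_mul, one_mul]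
      have h2 : (of K G x - 1) ^ i * a ∈ Submodule.span K {z | ∃ h ∈ H', z = of K G h} :=
        ih (hF.anti' (by omega) ha)
      refine sub_mem ?_ h2
      refine span_map_mul _ ?_ h2
      rintro _ ⟨h, hh, rfl⟩
      rw [← map_mul]
      exact Submodule.subset_span ⟨_, mul_mem D.mem hh, rfl⟩
  one := Submodule.subset_span ⟨0, hp.out.pos, 1, by simpa using hF.one, by simp⟩
  act m g hg hm n z hz := FF_act hF D hg hm hz
  nm := by
    intro hcon
    have h1 := retr_FF hF D hp.out.pos (N + 1) hcon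
    have e : mapDomainLinearMap K K (retr p H x) (of K G w - 1) = of K G w - 1 := by
      have e1 := retr_eq D (i := 0) hp.out.pos hw
      have e2 := retr_eq D (i := 0) hp.out.pos H.one_mem
      rw [pow_zero, one_mul] at e1 e2
      rw [map_sub, mapDomain_of, e1, ← map_one (of K G), mapDomain_of, e2]
    rw [e] at h1
    exact hF.nm h1

end Step

end Pool.Agent.Helper11.Coclass
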