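import Pool.Agent.Helper11.Coclass.WJ

/-!
# The weak Jennings theorem, conclusion
-/

namespace Pool.Agent.Helper11.Coclass

open Pool.Agent.Helper34.Coclass MonoidAlgebra
open scoped commutatorElement

universe u v

variable {K : Type v} [Field K] {p : ℕ} [hp : Fact p.Prime] [CharP K p] {G : Type u} [Group G]
  {κ : NpSer p G} {N : ℕ} {w : G}

/-- The starting filtration, on the cyclic group generated by `w`. -/
lemma adapted_base (hN : κ.k (N + 1) = ⊥) (hw : w ∈ κ.k N) (hw1 : w ≠ 1) :
    Adapted κ N w (Subgroup.zpowers w)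
      (fun n => Submodule.span K {z | ∃ j : ℕ, n ≤ j * N ∧ z = (of K G w - 1) ^ j}) := by
  have hN0 : 1 ≤ N := by
    by_contra h
    have h0 : N = 0 := by omega
    subst h0
    rw [zero_add, κ.one] at hN
    apply hw1
    have : w ∈ (⊤ : Subgroup G) := trivial
    rwa [hN, Subgroup.mem_bot] at this
  have hwp : w ^ p = 1 := by
    have h1 := κ.pow N w hw
    have h2 : p * N ≥ N + 1 := by
      have := Nat.mul_le_mul_right N hp.out.two_le
      omega
    have h3 := κ.anti' h2 h1
    rwa [hN, Subgroup.mem_bot] at h3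
  have htp : (of K G w - 1) ^ p = 0 := by
    rw [← of_pow_sub_one, hwp, map_one, sub_self]
  refine ⟨?_, ?_, ?_, ?_, ?_⟩
  · intro n
    refine Submodule.span_mono ?_
    rintro _ ⟨j, hj, rfl⟩
    exact ⟨j, by omega, rfl⟩
  · refine Submodule.span_le.2 ?_
    rintro _ ⟨j, -, rfl⟩
    show (of K G w - 1) ^ j ∈ Submodule.span K {z | ∃ h ∈ Subgroup.zpowers w, z = of K G h}
    induction j with
    | zero => exact Submodule.subset_span ⟨1, one_mem _, by rw [pow_zero, map_one]⟩
    | succ j ih =>
      rw [pow_succ', sub_mul, one_mul]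
      refine sub_mem ?_ ih
      refine span_map_mul _ ?_ ih
      rintro _ ⟨h, hh, rfl⟩
      rw [← map_mul]
      exact Submodule.subset_span ⟨_, mul_mem (Subgroup.mem_zpowers w) hh, rfl⟩
  · exact Submodule.subset_span ⟨0, by omega, by rw [pow_zero]⟩
  · intro m h hh hm n a ha
    rcases Nat.lt_or_ge N m with hmN | hmN
    · have h1 : h ∈ κ.k (N + 1) := κ.anti' hmN hm
      rw [hN, Subgroup.mem_bot] at h1
      rw [h1, map_one, sub_self, zero_mul]
      exact zero_mem _
    · -- `h` is a power of `w`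
      obtain ⟨i, rfl⟩ : ∃ i : ℕ, w ^ i = h := by
        obtain ⟨i, hi⟩ := Subgroup.mem_zpowers_iff.1 hh
        have hp0 : (p : ℤ) ≠ 0 := by exact_mod_cast hp.out.ne_zero
        have hnn := Int.emod_nonneg i hp0
        refine ⟨(i % p).toNat, ?_⟩
        rw [← hi, ← zpow_natCast, Int.toNat_of_nonneg hnn]
        conv_rhs => rw [← Int.emod_add_mul_ediv i p]
        rw [zpow_add, zpow_mul, zpow_natCast, hwp, one_zpow, mul_one]
      have key : ∀ i : ℕ, ∀ n, ∀ a ∈ Submodule.span K {z | ∃ j : ℕ, n ≤ j * N ∧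
          z = (of K G w - 1) ^ j}, (of K G (w ^ i) - 1) * a ∈
          Submodule.span K {z | ∃ j : ℕ, n + N ≤ j * N ∧ z = (of K G w - 1) ^ j} := by
        intro i
        induction i with
        | zero => intro n a _; rw [pow_zero, map_one, sub_self, zero_mul]; exact zero_mem _
        | succ i ih =>
          intro n a ha
          have h1 : (of K G w - 1) * a ∈
              Submodule.span K {z | ∃ j : ℕ, n + N ≤ j * N ∧ z = (of K G w - 1) ^ j} := by
            refine span_map_mul _ ?_ ha
            rintro _ ⟨j, hj, rfl⟩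
            refine Submodule.subset_span ⟨j + 1, ?_, by rw [pow_succ']⟩
            have : (j + 1) * N = j * N + N := by ring
            omega
          have h2 : (of K G (w ^ i) - 1) * ((of K G w - 1) * a) ∈
              Submodule.span K {z | ∃ j : ℕ, n + N ≤ j * N ∧ z = (of K G w - 1) ^ j} := by
            refine (Submodule.span_mono ?_) (ih (n + N) _ h1)
            rintro _ ⟨j, hj, rfl⟩
            exact ⟨j, by omega, rfl⟩
          have e : (of K G (w ^ (i + 1)) - 1) * a = (of K G (w ^ i) - 1) * ((of K G w - 1) * a) +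
              (of K G (w ^ i) - 1) * a + (of K G w - 1) * a := by
            rw [pow_succ, map_mul]; noncomm_ring
          rw [e]
          exact add_mem (add_mem h2 (ih n a ha)) h1
      refine (Submodule.span_mono ?_) (key i n a ha)
      rintro _ ⟨j, hj, rfl⟩
      exact ⟨j, by omega, rfl⟩
  · intro hcon
    -- `t = t ^ 2 * q` with `t` nilpotent
    have h1 : ∀ z ∈ Submodule.span K {z | ∃ j : ℕ, N + 1 ≤ j * N ∧ z = (of K G w - 1) ^ j},
        ∃ q : MonoidAlgebra K G, Commute (of K G w - 1) q ∧ z = (of K G w - 1) ^ 2 * q := by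
      intro z hz
      induction hz using Submodule.span_induction with
      | mem z hz =>
        obtain ⟨j, hj, rfl⟩ := hz
        have hj2 : 2 ≤ j := by
          by_contra h
          have : j * N ≤ 1 * N := Nat.mul_le_mul_right N (by omega)
          omega
        refine ⟨(of K G w - 1) ^ (j - 2), (Commute.refl _).pow_right _, ?_⟩
        rw [← pow_add]
        congr 1
        omega
      | zero => exact ⟨0, Commute.zero_right _, by rw [mul_zero]⟩
      | add x y _ _ hx hy =>
        obtain ⟨q, hq, rfl⟩ := hx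
        obtain ⟨q', hq', rfl⟩ := hy
        exact ⟨q + q', hq.add_right hq', by rw [mul_add]⟩
      | smul c x _ hx =>
        obtain ⟨q, hq, rfl⟩ := hx
        exact ⟨c • q, hq.smul_right c, by rw [mul_smul_comm]⟩
    obtain ⟨q, hq, hz⟩ := h1 _ hcon
    set t := of K G w - 1 with ht
    have h2 : ∀ n : ℕ, t = t ^ (n + 1) * q ^ n := by
      intro n
      induction n with
      | zero => rw [zero_add, pow_one, pow_zero, mul_one]
      | succ n ih =>
        have e : t ^ (n + 1 + 1) * q ^ (n + 1) = t ^ n * (t ^ 2 * q) * q ^ n := by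
          rw [pow_succ' q n, ← mul_assoc, ← mul_assoc, ← pow_add]
        rw [e, ← hz, ← pow_succ]
        exact ih
    have h3 : t = 0 := by
      rw [h2 (p - 1), Nat.sub_add_cancel hp.out.one_le, htp, zero_mul]
    rw [ht, sub_eq_zero, ← map_one (of K G)] at h3
    exact hw1 (of_injective h3)

variable [Finite G]

/-- Existence of the data for the inductive step. -/
lemma exists_stepData (hG : IsPGroup p G) (hN : κ.k (N + 1) = ⊥) (H : Subgroup G) (hH : H ≠ ⊤) :
    ∃ (H' : Subgroup G) (x : G) (c : ℕ), H < H' ∧ StepData κ H H' x c := by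
  obtain ⟨n, hn⟩ := (IsPGroup.iff_card.1 hG)
  obtain ⟨m, hm⟩ := (IsPGroup.iff_card.1 (hG.to_subgroup H))
  have hlt : Nat.card H < Nat.card G := by
    refine lt_of_le_of_ne (Subgroup.card_le_card_group H) fun h => hH ?_
    exact Subgroup.eq_top_of_card_eq H h
  have hmn : m < n := by
    rw [hn, hm] at hlt
    exact (Nat.pow_lt_pow_iff_right hp.out.one_lt).1 hlt
  obtain ⟨H', hH', hle⟩ := Sylow.exists_subgroup_card_pow_succ (G := G) (p := p) (n := m)
    (by rw [hn]; exact pow_dvd_pow p hmn) hm
  have hidx : (H.subgroupOf H').index = p := by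
    have h1 : Nat.card H * (H.subgroupOf H').index = Nat.card H' := by
      have h2 := Subgroup.card_mul_index (H.subgroupOf H')
      have h3 : Nat.card (H.subgroupOf H') = Nat.card H :=
        Nat.card_congr (Subgroup.subgroupOfEquivOfLe hle).toEquiv
      rwa [h3] at h2
    rw [hm, hH', pow_succ] at h1
    exact Nat.eq_of_mul_eq_mul_left (pow_pos hp.out.pos m) h1
  have hminfac : (Nat.card H').minFac = p := by
    rw [hH', Nat.pow_minFac (Nat.succ_ne_zero m), hp.out.minFac_eq]
  have hnorm : (H.subgroupOf H').Normal :=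
    Subgroup.normal_of_index_eq_minFac_card (by rw [hidx, hminfac])
  -- an element of `H'` outside `H`
  have hltH : H < H' := by
    refine lt_of_le_of_ne hle fun h => ?_
    have h1 : (H.subgroupOf H').index = 1 := by
      rw [← h, Subgroup.subgroupOf_self, Subgroup.index_top]
    rw [hidx] at h1
    exact hp.out.one_lt.ne' h1
  classical
  -- the weights of the elements
  let Wt : Set ℕ := {m | ∃ x ∈ H', x ∉ H ∧ x ∈ κ.k m}
  have hWt0 : Wt.Nonempty := by
    obtain ⟨x, hx, hxH⟩ := SetLike.exists_of_lt hltH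
    exact ⟨0, x, hx, hxH, by rw [κ.zero]; trivial⟩
  have hWtb : BddAbove Wt := by
    refine ⟨N, ?_⟩
    rintro m ⟨x, -, hxH, hxm⟩
    by_contra h
    have h1 := κ.anti' (show N + 1 ≤ m by omega) hxm
    rw [hN, Subgroup.mem_bot] at h1
    exact hxH (h1 ▸ one_mem _)
  have hmem := Nat.sSup_mem hWt0 hWtb
  obtain ⟨x, hxH', hxH, hxc⟩ := hmem
  refine ⟨H', x, sSup Wt, hltH, ?_⟩
  have hcard : Nat.card (H' ⧸ (H.subgroupOf H')) = p := hidx
  set y : H' := ⟨x, hxH'⟩ with hy
  have hy1 : (QuotientGroup.mk y : H' ⧸ (H.subgroupOf H')) ≠ 1 := by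
    intro h
    rw [QuotientGroup.eq_one_iff] at h
    exact hxH h
  have hmk : ∀ g : H', (QuotientGroup.mk g : H' ⧸ (H.subgroupOf H')) = 1 ↔ (g : G) ∈ H := by
    intro g
    rw [QuotientGroup.eq_one_iff]
    rfl
  have hord : orderOf (QuotientGroup.mk y : H' ⧸ (H.subgroupOf H')) = p := by
    refine orderOf_eq_prime ?_ hy1
    rw [← hcard]
    exact pow_card_eq_one'
  refine ⟨hle, hxH', ?_, ?_, ?_, ?_, hxc, ?_⟩
  · intro h hh
    have h1 := hnorm.conj_mem ⟨h, hle hh⟩ hh y⁻¹
    have h2 : ((y⁻¹ * ⟨h, hle hh⟩ * y⁻¹⁻¹ : H') : G) ∈ H := h1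
    simpa [hy] using h2
  · have h1 : (QuotientGroup.mk (y ^ p) : H' ⧸ (H.subgroupOf H')) = 1 := by
      rw [QuotientGroup.mk_pow, ← hord]
      exact pow_orderOf_eq_one _
    exact (hmk _).1 h1
  · intro g hg
    have h1 : (QuotientGroup.mk (⟨g, hg⟩ : H') : H' ⧸ (H.subgroupOf H')) ∈
        Submonoid.powers (QuotientGroup.mk y : H' ⧸ (H.subgroupOf H')) :=
      mem_powers_of_prime_card hcard hy1
    rw [mem_powers_iff_mem_range_orderOf, Finset.mem_image] at h1
    obtain ⟨i, hi, h2⟩ := h1
    rw [hord, Finset.mem_range] at hi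
    refine ⟨i, hi, (x ^ i)⁻¹ * g, ?_, by group⟩
    have h3 : (QuotientGroup.mk ((y ^ i)⁻¹ * ⟨g, hg⟩) : H' ⧸ (H.subgroupOf H')) = 1 := by
      rw [QuotientGroup.mk_mul, QuotientGroup.mk_inv, QuotientGroup.mk_pow, h2, inv_mul_cancel]
    exact (hmk _).1 h3
  · intro i hi hip hmem
    have h1 : (QuotientGroup.mk y : H' ⧸ (H.subgroupOf H')) ^ i = 1 := by
      rw [← QuotientGroup.mk_pow]
      exact (hmk _).2 hmem
    have h2 := orderOf_dvd_of_pow_eq_one h1
    rw [hord] at h2
    exact absurd (Nat.le_of_dvd hi h2) (by omega)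
  · intro g hg hgH m hm
    exact le_csSup hWtb ⟨g, hg, hgH, hm⟩

/-- **The weak Jennings theorem.** -/
theorem weak_jennings (hG : IsPGroup p G) (hN : κ.k (N + 1) = ⊥) (hw : w ∈ κ.k N) (hw1 : w ≠ 1) :
    w ∉ dimSub K (N + 1) := by
  -- there is an adapted filtration on the whole group
  have hall : ∀ n : ℕ, ∀ H : Subgroup G, Nat.card G - Nat.card H ≤ n → w ∈ H →
      (∃ F : ℕ → Submodule K (MonoidAlgebra K G), Adapted κ N w H F) →
      ∃ F : ℕ → Submodule K (MonoidAlgebra K G), Adapted κ N w ⊤ F := by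
    intro n
    induction n with
    | zero =>
      intro H hcard _ hF
      have h1 : H = ⊤ := by
        refine Subgroup.eq_top_of_card_eq H (le_antisymm (Subgroup.card_le_card_group H) ?_)
        omega
      exact h1 ▸ hF
    | succ n ih =>
      intro H hcard hwH hF
      by_cases hH : H = ⊤
      · exact hH ▸ hF
      obtain ⟨F, hF⟩ := hF
      obtain ⟨H', x, c, hlt, D⟩ := exists_stepData (κ := κ) hG hN H hH
      refine ih H' ?_ (hlt.le hwH) ⟨_, hF.step D hwH⟩
      have h1 : Nat.card H < Nat.card H' := by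
        refine lt_of_le_of_ne (Subgroup.card_le_of_le hlt.le) fun h => hlt.ne ?_
        exact Subgroup.eq_of_le_of_card_ge hlt.le h.ge
      have h2 := Subgroup.card_le_card_group H'
      omega
  obtain ⟨F, hF⟩ := hall _ (Subgroup.zpowers w) le_rfl (Subgroup.mem_zpowers w)
    ⟨_, adapted_base (K := K) hN hw hw1⟩
  have hact : ∀ n, ∀ z ∈ filt K G n, ∀ m, ∀ a ∈ F m, z * a ∈ F (m + n) := by
    intro n
    induction n with
    | zero =>
      intro z _ m a ha
      induction z using MonoidAlgebra.induction_on with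
      | of g =>
        have h1 := hF.act 0 g trivial (by rw [κ.zero]; trivial) m a ha
        rw [sub_mul, one_mul] at h1
        have h2 := add_mem h1 ha
        rwa [sub_add_cancel] at h2
      | add x y hx hy => rw [add_mul]; exact add_mem (hx trivial) (hy trivial)
      | smul c x hx => rw [smul_mul_assoc]; exact Submodule.smul_mem _ _ (hx trivial)
    | succ n ih =>
      intro z hz m a ha
      rw [filt] at hz
      induction hz using Submodule.mul_induction_on' with
      | mem_mul_mem x hx y hy =>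
        rw [mul_assoc]
        have h1 := ih y hy m a ha
        induction hx using Submodule.span_induction with
        | mem x hx =>
          obtain ⟨g, rfl⟩ := hx
          have h2 := hF.act 1 g trivial (by rw [κ.one]; trivial) (m + n) _ h1
          rwa [add_assoc] at h2
        | zero => rw [zero_mul]; exact zero_mem _
        | add x y _ _ hx hy => rw [add_mul]; exact add_mem hx hy
        | smul c x _ hx => rw [smul_mul_assoc]; exact Submodule.smul_mem _ _ hx
      | add x _ y _ hx hy => rw [add_mul]; exact add_mem hx hy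
  intro hcon
  have h1 := hact (N + 1) _ (mem_dimSub K |>.1 hcon) 0 1 hF.one
  rw [mul_one, zero_add] at h1
  exact hF.nm h1

/-- Dimension subgroups are contained in every `N_p`-series. -/
theorem dimSub_le (hG : IsPGroup p G) (κ : NpSer p G) (n : ℕ) : dimSub K n ≤ κ.k n := by
  classical
  intro g hg
  by_contra hcon
  -- the last term containing `g`
  have hex : ∃ m, g ∉ κ.k m := ⟨n, hcon⟩
  set m₁ := Nat.find hex with hm₁
  have h1 : g ∉ κ.k m₁ := Nat.find_spec hex
  have h2 : m₁ ≤ n := Nat.find_min' hex hcon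
  have h3 : m₁ ≠ 0 := by
    intro h0
    rw [h0, κ.zero] at h1
    exact h1 trivial
  obtain ⟨m, hm⟩ := Nat.exists_eq_succ_of_ne_zero h3
  have h4 : g ∈ κ.k m := by
    by_contra h5
    have := Nat.find_min' hex h5
    omega
  have hm' : m₁ = m + 1 := hm
  rw [hm'] at h1
  -- the quotient by `k (m+1)`
  let Q := G ⧸ κ.k (m + 1)
  let f : G →* Q := QuotientGroup.mk' (κ.k (m + 1))
  have hfs : Function.Surjective f := QuotientGroup.mk'_surjective _
  let κ' : NpSer p Q :=
    { k := fun n => (κ.k n).map f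
      zero := by rw [κ.zero, Subgroup.map_top_of_surjective _ hfs]
      one := by rw [κ.one, Subgroup.map_top_of_surjective _ hfs]
      anti := fun n => Subgroup.map_mono (κ.anti n)
      comm := by
        rintro a b _ ⟨x, hx, rfl⟩ _ ⟨y, hy, rfl⟩
        refine ⟨⁅x, y⁆, κ.comm a b x hx y hy, ?_⟩
        simp only [commutatorElement_def, map_mul, map_inv]
      pow := by
        rintro a _ ⟨x, hx, rfl⟩
        exact ⟨x ^ p, κ.pow a x hx, map_pow _ _ _⟩ }
  have hN : κ'.k (m + 1) = ⊥ := by
    show (κ.k (m + 1)).map f = ⊥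
    rw [Subgroup.map_eq_bot_iff, QuotientGroup.ker_mk']
  have hw : f g ∈ κ'.k m := ⟨g, h4, rfl⟩
  have hw1 : f g ≠ 1 := by
    intro h
    exact h1 ((QuotientGroup.eq_one_iff g).1 h)
  have hGQ : IsPGroup p Q := hG.to_quotient _
  refine weak_jennings (K := K) hGQ hN hw hw1 ?_
  have h5 := map_dimSub K f hg
  exact dimSub_anti K (by omega) h5

end Pool.Agent.Helper11.Coclass
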